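import Pool.Agent.H36.QT.Sem

/-!
# Exponent codes of the bases (seat helper36, MP_02a80e_co)
-/

set_option autoImplicit false

namespace Pool.Agent.H36.QT

/-- table of the codes `∑_x dg x i * 16 ^ x`, 28 bits each -/
def cdT : ℕ := 0x11100001101000110010011000101100001101100010101001010010101000110010101001001100011010001010111000011010001100100110001010110001010010100110010001100111000011010001010100100110001110000110100010110000111

/-- the code of the `i`-th basis -/
def cdv (i : ℕ) : ℕ := Nat.land (Nat.shiftRight cdT (28 * i)) 268435455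

theorem dg_le (x i : ℕ) : dg x i ≤ 1 := by
  unfold dg; split_ifs <;> simp

/-- value of seven digits -/
def val7 (f : ℕ → ℕ) : ℕ :=
  f 0 + 16 * (f 1 + 16 * (f 2 + 16 * (f 3 + 16 * (f 4 + 16 * (f 5 + 16 * f 6)))))

theorem val7_inj {f g : ℕ → ℕ} (hf : ∀ x, f x < 16) (hg : ∀ x, g x < 16) (h : val7 f = val7 g) :
    ∀ x < 7, f x = g x := by
  unfold val7 at h
  have f0 := hf 0; have f1 := hf 1; have f2 := hf 2; have f3 := hf 3; have f4 := hf 4
  have f5 := hf 5; have f6 := hf 6
  have g0 := hg 0; have g1 := hg 1; have g2 := hg 2; have g3 := hg 3; have g4 := hg 4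
  have g5 := hg 5; have g6 := hg 6
  have e0 : f 0 = g 0 := by omega
  have h1 : f 1 + 16 * (f 2 + 16 * (f 3 + 16 * (f 4 + 16 * (f 5 + 16 * f 6)))) =
    g 1 + 16 * (g 2 + 16 * (g 3 + 16 * (g 4 + 16 * (g 5 + 16 * g 6)))) := by omega
  have e1 : f 1 = g 1 := by omega
  have h2 : f 2 + 16 * (f 3 + 16 * (f 4 + 16 * (f 5 + 16 * f 6))) =
    g 2 + 16 * (g 3 + 16 * (g 4 + 16 * (g 5 + 16 * g 6))) := by omega
  have e2 : f 2 = g 2 := by omega
  have h3 : f 3 + 16 * (f 4 + 16 * (f 5 + 16 * f 6)) =
    g 3 + 16 * (g 4 + 16 * (g 5 + 16 * g 6)) := by omega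
  have e3 : f 3 = g 3 := by omega
  have h4 : f 4 + 16 * (f 5 + 16 * f 6) = g 4 + 16 * (g 5 + 16 * g 6) := by omega
  have e4 : f 4 = g 4 := by omega
  have h5 : f 5 + 16 * f 6 = g 5 + 16 * g 6 := by omega
  have e5 : f 5 = g 5 := by omega
  have e6 : f 6 = g 6 := by omega
  intro x hx
  interval_cases x <;> assumption

theorem cdv_eq : ∀ i < 29, cdv i = val7 fun x => dg x i := by decide +kernel

theorem cd2 {i j k l : ℕ} (hi : i < 29) (hj : j < 29) (hk : k < 29) (hl : l < 29) :
    (∀ x < 7, dg x i + dg x j = dg x k + dg x l) ↔ cdv i + cdv j = cdv k + cdv l := by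
  have key : ∀ a b : ℕ, a < 29 → b < 29 → cdv a + cdv b = val7 fun x => dg x a + dg x b := by
    intro a b ha hb
    rw [cdv_eq a ha, cdv_eq b hb]; unfold val7; ring
  rw [key i j hi hj, key k l hk hl]
  constructor
  · intro h
    unfold val7
    simp only [h 0 (by norm_num), h 1 (by norm_num), h 2 (by norm_num), h 3 (by norm_num),
      h 4 (by norm_num), h 5 (by norm_num), h 6 (by norm_num)]
  · intro h
    refine val7_inj (fun x => ?_) (fun x => ?_) h
    · have := dg_le x i; have := dg_le x j; omega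
    · have := dg_le x k; have := dg_le x l; omega

theorem cd3 {i j m k l n : ℕ} (hi : i < 29) (hj : j < 29) (hm : m < 29) (hk : k < 29) (hl : l < 29)
    (hn : n < 29) :
    (∀ x < 7, dg x i + dg x j + dg x m = dg x k + dg x l + dg x n) ↔
      cdv i + cdv j + cdv m = cdv k + cdv l + cdv n := by
  have key : ∀ a b c : ℕ, a < 29 → b < 29 → c < 29 →
      cdv a + cdv b + cdv c = val7 fun x => dg x a + dg x b + dg x c := by
    intro a b c ha hb hc
    rw [cdv_eq a ha, cdv_eq b hb, cdv_eq c hc]; unfold val7; ring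
  rw [key i j m hi hj hm, key k l n hk hl hn]
  constructor
  · intro h
    unfold val7
    simp only [h 0 (by norm_num), h 1 (by norm_num), h 2 (by norm_num), h 3 (by norm_num),
      h 4 (by norm_num), h 5 (by norm_num), h 6 (by norm_num)]
  · intro h
    refine val7_inj (fun x => ?_) (fun x => ?_) h
    · have := dg_le x i; have := dg_le x j; have := dg_le x m; omega
    · have := dg_le x k; have := dg_le x l; have := dg_le x n; omega

end Pool.Agent.H36.QT
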