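import Pool.Agent.H36.QT.W5
import Pool.Agent.H36.QT.D.B0
import Pool.Agent.H36.QT.D.B1
import Pool.Agent.H36.QT.D.B2
import Pool.Agent.H36.QT.D.B3
import Pool.Agent.H36.QT.D.C0
import Pool.Agent.H36.QT.D.C1
import Pool.Agent.H36.QT.D.C2
import Pool.Agent.H36.QT.D.C3
import Pool.Agent.H36.QT.D.C4
import Pool.Agent.H36.QT.D.C5
import Pool.Agent.H36.QT.D.C6
import Pool.Agent.H36.QT.D.C7
import Pool.Agent.H36.QT.D.C8
import Pool.Agent.H36.QT.D.C9
import Pool.Agent.H36.QT.D.C10
import Pool.Agent.H36.QT.D.C11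
import Pool.Agent.H36.QT.D.C12
import Pool.Agent.H36.QT.D.C13
import Pool.Agent.H36.QT.D.C14
import Pool.Agent.H36.QT.D.C15
import Pool.Agent.H36.QT.D.C16
import Pool.Agent.H36.QT.D.C17
import Pool.Agent.H36.QT.D.C18
import Pool.Agent.H36.QT.D.C19
import Pool.Agent.H36.QT.D.C20
import Pool.Agent.H36.QT.D.C21
import Pool.Agent.H36.QT.D.C22
import Pool.Agent.H36.QT.D.C23
import Pool.Agent.H36.QT.D.C24
import Pool.Agent.H36.QT.D.C25
import Pool.Agent.H36.QT.D.C26
import Pool.Agent.H36.QT.D.C27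
import Pool.Agent.H36.QT.D.C28
import Pool.Agent.H36.QT.D.C29
import Pool.Agent.H36.QT.D.C30
import Pool.Agent.H36.QT.D.C31
import Pool.Agent.H36.QT.D.C32
import Pool.Agent.H36.QT.D.C33
import Pool.Agent.H36.QT.D.C34
import Pool.Agent.H36.QT.D.C35
import Pool.Agent.H36.QT.D.C36
import Pool.Agent.H36.QT.D.C37
import Pool.Agent.H36.QT.D.C38
import Pool.Agent.H36.QT.D.C39
import Pool.Agent.H36.QT.D.C40
import Pool.Agent.H36.QT.D.C41
import Pool.Agent.H36.QT.D.C42
import Pool.Agent.H36.QT.D.C43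
import Pool.Agent.H36.QT.D.C44
import Pool.Agent.H36.QT.D.C45
import Pool.Agent.H36.QT.D.C46
import Pool.Agent.H36.QT.D.C47
import Pool.Agent.H36.QT.D.C48
import Pool.Agent.H36.QT.D.C49
import Pool.Agent.H36.QT.D.C50
import Pool.Agent.H36.QT.D.C51
import Pool.Agent.H36.QT.D.C52
import Pool.Agent.H36.QT.D.C53
import Pool.Agent.H36.QT.D.C54
import Pool.Agent.H36.QT.D.C55
import Pool.Agent.H36.QT.D.C56
import Pool.Agent.H36.QT.D.C57
import Pool.Agent.H36.QT.D.C58
import Pool.Agent.H36.QT.D.C59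
import Pool.Agent.H36.QT.D.C60
import Pool.Agent.H36.QT.D.C61
import Pool.Agent.H36.QT.D.C62
import Pool.Agent.H36.QT.D.C63
import Pool.Agent.H36.QT.D.C64
import Pool.Agent.H36.QT.D.C65
import Pool.Agent.H36.QT.D.C66
import Pool.Agent.H36.QT.D.C67
import Pool.Agent.H36.QT.D.C68
import Pool.Agent.H36.QT.D.C69
import Pool.Agent.H36.QT.D.C70
import Pool.Agent.H36.QT.D.C71
import Pool.Agent.H36.QT.D.C72
import Pool.Agent.H36.QT.D.C73
import Pool.Agent.H36.QT.D.C74
import Pool.Agent.H36.QT.D.C75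
import Pool.Agent.H36.QT.D.C76
import Pool.Agent.H36.QT.D.C77
import Pool.Agent.H36.QT.D.C78
import Pool.Agent.H36.QT.D.C79
import Pool.Agent.H36.QT.D.C80
import Pool.Agent.H36.QT.D.C81
import Pool.Agent.H36.QT.D.C82
import Pool.Agent.H36.QT.D.C83
import Pool.Agent.H36.QT.D.C84
import Pool.Agent.H36.QT.D.C85
import Pool.Agent.H36.QT.D.C86
import Pool.Agent.H36.QT.D.C87
import Pool.Agent.H36.QT.D.C88
import Pool.Agent.H36.QT.D.C89
import Pool.Agent.H36.QT.D.C90
import Pool.Agent.H36.QT.D.C91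
import Pool.Agent.H36.QT.D.C92
import Pool.Agent.H36.QT.D.C93
import Pool.Agent.H36.QT.D.C94
import Pool.Agent.H36.QT.D.C95
import Pool.Agent.H36.QT.D.C96
import Pool.Agent.H36.QT.D.C97
import Pool.Agent.H36.QT.D.C98
import Pool.Agent.H36.QT.D.C99
import Pool.Agent.H36.QT.D.C100
import Pool.Agent.H36.QT.D.C101

/-!
# The chain of the certificate blocks (seat helper36, MP_02a80e_co)
-/

set_option autoImplicit false
set_option linter.all false

namespace Pool.Agent.H36.QT

/-- the length of a list -/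
noncomputable def lenK (l : List ℕ) : ℕ → ℕ :=
  @List.rec ℕ (fun _ => ℕ → ℕ) (fun i => i) (fun _ _ ih i => frN (Nat.succ i) ih) l

theorem lenK_eq (l : List ℕ) : ∀ i : ℕ, lenK l i = i + l.length := by
  induction l with
  | nil => intro i; rfl
  | cons c l ih =>
    intro i
    have h : lenK (c :: l) i = frN (Nat.succ i) (lenK l) := rfl
    rw [h, frN_eq, ih, List.length_cons]
    omega

/-- W1 with the side conditions -/
def S_W1' : Prop := ∀ db ct gt : Tr, (∀ f, ValidCub (ct.get f)) →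
  (∀ f, ∀ F ∈ fs 31 (ct.get f), F ≠ 0 ∧ F % 2 ^ 32 = 0 ∧ F < 2 ^ 382) →
  (∀ g, GoodT (gt.get g)) →
  ∀ (l : List ℕ) (i : ℕ), i + l.length ≤ 2 ^ 32 → (∀ h < i, Valid (cl db h)) →
  nodes db ct gt l i = true → ∀ h < i + l.length, Valid (cl db h)

/-- the hypotheses proved in other modules -/
structure Hyps : Prop where
  w1 : S_W1'
  w3 : ∀ f, ValidCub (D.ct.get f)
  w3b : ∀ f, ∀ F ∈ fs 31 (D.ct.get f), F ≠ 0 ∧ F % 2 ^ 32 = 0 ∧ F < 2 ^ 382
  w4 : ∀ g, GoodT (D.gt.get g)

/-- the clauses below `n` are valid -/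
def P (n : ℕ) : Prop := ∀ h < n, Valid (cl D.db h)

theorem step (H : Hyps) {l : List ℕ} {a b : ℕ} (hp : P a)
    (hok : nodes D.db D.ct D.gt l a = true) (hl : lenK l a = b) (hb : b ≤ 2 ^ 32) : P b := by
  rw [lenK_eq] at hl
  subst hl
  exact H.w1 D.db D.ct D.gt H.w3 H.w3b H.w4 l a hb hp hok

theorem stepB {l : List Ce} {a b c : ℕ} (hp : P a) (hok : all5 D.db l a = true)
    (hl : l.length = c) (hb : a + c = b) : P b := by
  subst hb; subst hl
  intro h hh
  rcases Nat.lt_or_ge h a with h1 | h1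
  · exact hp h h1
  · exact all5_valid hok h h1 hh

theorem pb : P (nat_lit 5689) :=
  stepB (stepB (stepB (stepB (a := nat_lit 0) (fun h hh => absurd hh (Nat.not_lt_zero h))
    D.okb0 D.lenb0 (b := nat_lit 1500) (Nat.eq_of_beq_eq_true rfl)) D.okb1 D.lenb1 (b := nat_lit 3000) (Nat.eq_of_beq_eq_true rfl))
    D.okb2 D.lenb2 (b := nat_lit 4500) (Nat.eq_of_beq_eq_true rfl)) D.okb3 D.lenb3 (Nat.eq_of_beq_eq_true rfl)

theorem e0 : lenK D.c0 (nat_lit 5689) = nat_lit 15315 := by decide +kernel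
theorem p0 (H : Hyps) : P (nat_lit 15315) := step H pb D.ok0 e0 (Nat.le_of_ble_eq_true rfl)
theorem e1 : lenK D.c1 (nat_lit 15315) = nat_lit 19384 := by decide +kernel
theorem p1 (H : Hyps) : P (nat_lit 19384) := step H (p0 H) D.ok1 e1 (Nat.le_of_ble_eq_true rfl)
theorem e2 : lenK D.c2 (nat_lit 19384) = nat_lit 21479 := by decide +kernel
theorem p2 (H : Hyps) : P (nat_lit 21479) := step H (p1 H) D.ok2 e2 (Nat.le_of_ble_eq_true rfl)
theorem e3 : lenK D.c3 (nat_lit 21479) = nat_lit 23511 := by decide +kernel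
theorem p3 (H : Hyps) : P (nat_lit 23511) := step H (p2 H) D.ok3 e3 (Nat.le_of_ble_eq_true rfl)
theorem e4 : lenK D.c4 (nat_lit 23511) = nat_lit 26799 := by decide +kernel
theorem p4 (H : Hyps) : P (nat_lit 26799) := step H (p3 H) D.ok4 e4 (Nat.le_of_ble_eq_true rfl)
theorem e5 : lenK D.c5 (nat_lit 26799) = nat_lit 29478 := by decide +kernel
theorem p5 (H : Hyps) : P (nat_lit 29478) := step H (p4 H) D.ok5 e5 (Nat.le_of_ble_eq_true rfl)
theorem e6 : lenK D.c6 (nat_lit 29478) = nat_lit 32867 := by decide +kernel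
theorem p6 (H : Hyps) : P (nat_lit 32867) := step H (p5 H) D.ok6 e6 (Nat.le_of_ble_eq_true rfl)
theorem e7 : lenK D.c7 (nat_lit 32867) = nat_lit 36394 := by decide +kernel
theorem p7 (H : Hyps) : P (nat_lit 36394) := step H (p6 H) D.ok7 e7 (Nat.le_of_ble_eq_true rfl)
theorem e8 : lenK D.c8 (nat_lit 36394) = nat_lit 39280 := by decide +kernel
theorem p8 (H : Hyps) : P (nat_lit 39280) := step H (p7 H) D.ok8 e8 (Nat.le_of_ble_eq_true rfl)
theorem e9 : lenK D.c9 (nat_lit 39280) = nat_lit 41578 := by decide +kernel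
theorem p9 (H : Hyps) : P (nat_lit 41578) := step H (p8 H) D.ok9 e9 (Nat.le_of_ble_eq_true rfl)
theorem e10 : lenK D.c10 (nat_lit 41578) = nat_lit 43601 := by decide +kernel
theorem p10 (H : Hyps) : P (nat_lit 43601) := step H (p9 H) D.ok10 e10 (Nat.le_of_ble_eq_true rfl)
theorem e11 : lenK D.c11 (nat_lit 43601) = nat_lit 45319 := by decide +kernel
theorem p11 (H : Hyps) : P (nat_lit 45319) := step H (p10 H) D.ok11 e11 (Nat.le_of_ble_eq_true rfl)
theorem e12 : lenK D.c12 (nat_lit 45319) = nat_lit 47144 := by decide +kernel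
theorem p12 (H : Hyps) : P (nat_lit 47144) := step H (p11 H) D.ok12 e12 (Nat.le_of_ble_eq_true rfl)
theorem e13 : lenK D.c13 (nat_lit 47144) = nat_lit 49248 := by decide +kernel
theorem p13 (H : Hyps) : P (nat_lit 49248) := step H (p12 H) D.ok13 e13 (Nat.le_of_ble_eq_true rfl)
theorem e14 : lenK D.c14 (nat_lit 49248) = nat_lit 51419 := by decide +kernel
theorem p14 (H : Hyps) : P (nat_lit 51419) := step H (p13 H) D.ok14 e14 (Nat.le_of_ble_eq_true rfl)
theorem e15 : lenK D.c15 (nat_lit 51419) = nat_lit 53428 := by decide +kernel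
theorem p15 (H : Hyps) : P (nat_lit 53428) := step H (p14 H) D.ok15 e15 (Nat.le_of_ble_eq_true rfl)
theorem e16 : lenK D.c16 (nat_lit 53428) = nat_lit 55588 := by decide +kernel
theorem p16 (H : Hyps) : P (nat_lit 55588) := step H (p15 H) D.ok16 e16 (Nat.le_of_ble_eq_true rfl)
theorem e17 : lenK D.c17 (nat_lit 55588) = nat_lit 57253 := by decide +kernel
theorem p17 (H : Hyps) : P (nat_lit 57253) := step H (p16 H) D.ok17 e17 (Nat.le_of_ble_eq_true rfl)
theorem e18 : lenK D.c18 (nat_lit 57253) = nat_lit 59151 := by decide +kernel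
theorem p18 (H : Hyps) : P (nat_lit 59151) := step H (p17 H) D.ok18 e18 (Nat.le_of_ble_eq_true rfl)
theorem e19 : lenK D.c19 (nat_lit 59151) = nat_lit 60556 := by decide +kernel
theorem p19 (H : Hyps) : P (nat_lit 60556) := step H (p18 H) D.ok19 e19 (Nat.le_of_ble_eq_true rfl)
theorem e20 : lenK D.c20 (nat_lit 60556) = nat_lit 62115 := by decide +kernel
theorem p20 (H : Hyps) : P (nat_lit 62115) := step H (p19 H) D.ok20 e20 (Nat.le_of_ble_eq_true rfl)
theorem e21 : lenK D.c21 (nat_lit 62115) = nat_lit 63751 := by decide +kernel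
theorem p21 (H : Hyps) : P (nat_lit 63751) := step H (p20 H) D.ok21 e21 (Nat.le_of_ble_eq_true rfl)
theorem e22 : lenK D.c22 (nat_lit 63751) = nat_lit 65616 := by decide +kernel
theorem p22 (H : Hyps) : P (nat_lit 65616) := step H (p21 H) D.ok22 e22 (Nat.le_of_ble_eq_true rfl)
theorem e23 : lenK D.c23 (nat_lit 65616) = nat_lit 67418 := by decide +kernel
theorem p23 (H : Hyps) : P (nat_lit 67418) := step H (p22 H) D.ok23 e23 (Nat.le_of_ble_eq_true rfl)
theorem e24 : lenK D.c24 (nat_lit 67418) = nat_lit 69129 := by decide +kernel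
theorem p24 (H : Hyps) : P (nat_lit 69129) := step H (p23 H) D.ok24 e24 (Nat.le_of_ble_eq_true rfl)
theorem e25 : lenK D.c25 (nat_lit 69129) = nat_lit 70927 := by decide +kernel
theorem p25 (H : Hyps) : P (nat_lit 70927) := step H (p24 H) D.ok25 e25 (Nat.le_of_ble_eq_true rfl)
theorem e26 : lenK D.c26 (nat_lit 70927) = nat_lit 72383 := by decide +kernel
theorem p26 (H : Hyps) : P (nat_lit 72383) := step H (p25 H) D.ok26 e26 (Nat.le_of_ble_eq_true rfl)
theorem e27 : lenK D.c27 (nat_lit 72383) = nat_lit 74246 := by decide +kernel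
theorem p27 (H : Hyps) : P (nat_lit 74246) := step H (p26 H) D.ok27 e27 (Nat.le_of_ble_eq_true rfl)
theorem e28 : lenK D.c28 (nat_lit 74246) = nat_lit 75907 := by decide +kernel
theorem p28 (H : Hyps) : P (nat_lit 75907) := step H (p27 H) D.ok28 e28 (Nat.le_of_ble_eq_true rfl)
theorem e29 : lenK D.c29 (nat_lit 75907) = nat_lit 77500 := by decide +kernel
theorem p29 (H : Hyps) : P (nat_lit 77500) := step H (p28 H) D.ok29 e29 (Nat.le_of_ble_eq_true rfl)
theorem e30 : lenK D.c30 (nat_lit 77500) = nat_lit 79089 := by decide +kernel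
theorem p30 (H : Hyps) : P (nat_lit 79089) := step H (p29 H) D.ok30 e30 (Nat.le_of_ble_eq_true rfl)
theorem e31 : lenK D.c31 (nat_lit 79089) = nat_lit 80637 := by decide +kernel
theorem p31 (H : Hyps) : P (nat_lit 80637) := step H (p30 H) D.ok31 e31 (Nat.le_of_ble_eq_true rfl)
theorem e32 : lenK D.c32 (nat_lit 80637) = nat_lit 82099 := by decide +kernel
theorem p32 (H : Hyps) : P (nat_lit 82099) := step H (p31 H) D.ok32 e32 (Nat.le_of_ble_eq_true rfl)
theorem e33 : lenK D.c33 (nat_lit 82099) = nat_lit 83435 := by decide +kernel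
theorem p33 (H : Hyps) : P (nat_lit 83435) := step H (p32 H) D.ok33 e33 (Nat.le_of_ble_eq_true rfl)
theorem e34 : lenK D.c34 (nat_lit 83435) = nat_lit 84696 := by decide +kernel
theorem p34 (H : Hyps) : P (nat_lit 84696) := step H (p33 H) D.ok34 e34 (Nat.le_of_ble_eq_true rfl)
theorem e35 : lenK D.c35 (nat_lit 84696) = nat_lit 85982 := by decide +kernel
theorem p35 (H : Hyps) : P (nat_lit 85982) := step H (p34 H) D.ok35 e35 (Nat.le_of_ble_eq_true rfl)
theorem e36 : lenK D.c36 (nat_lit 85982) = nat_lit 87666 := by decide +kernel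
theorem p36 (H : Hyps) : P (nat_lit 87666) := step H (p35 H) D.ok36 e36 (Nat.le_of_ble_eq_true rfl)
theorem e37 : lenK D.c37 (nat_lit 87666) = nat_lit 89265 := by decide +kernel
theorem p37 (H : Hyps) : P (nat_lit 89265) := step H (p36 H) D.ok37 e37 (Nat.le_of_ble_eq_true rfl)
theorem e38 : lenK D.c38 (nat_lit 89265) = nat_lit 90942 := by decide +kernel
theorem p38 (H : Hyps) : P (nat_lit 90942) := step H (p37 H) D.ok38 e38 (Nat.le_of_ble_eq_true rfl)
theorem e39 : lenK D.c39 (nat_lit 90942) = nat_lit 92515 := by decide +kernel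
theorem p39 (H : Hyps) : P (nat_lit 92515) := step H (p38 H) D.ok39 e39 (Nat.le_of_ble_eq_true rfl)
theorem e40 : lenK D.c40 (nat_lit 92515) = nat_lit 93928 := by decide +kernel
theorem p40 (H : Hyps) : P (nat_lit 93928) := step H (p39 H) D.ok40 e40 (Nat.le_of_ble_eq_true rfl)
theorem e41 : lenK D.c41 (nat_lit 93928) = nat_lit 95476 := by decide +kernel
theorem p41 (H : Hyps) : P (nat_lit 95476) := step H (p40 H) D.ok41 e41 (Nat.le_of_ble_eq_true rfl)
theorem e42 : lenK D.c42 (nat_lit 95476) = nat_lit 96647 := by decide +kernel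
theorem p42 (H : Hyps) : P (nat_lit 96647) := step H (p41 H) D.ok42 e42 (Nat.le_of_ble_eq_true rfl)
theorem e43 : lenK D.c43 (nat_lit 96647) = nat_lit 97755 := by decide +kernel
theorem p43 (H : Hyps) : P (nat_lit 97755) := step H (p42 H) D.ok43 e43 (Nat.le_of_ble_eq_true rfl)
theorem e44 : lenK D.c44 (nat_lit 97755) = nat_lit 98944 := by decide +kernel
theorem p44 (H : Hyps) : P (nat_lit 98944) := step H (p43 H) D.ok44 e44 (Nat.le_of_ble_eq_true rfl)
theorem e45 : lenK D.c45 (nat_lit 98944) = nat_lit 100096 := by decide +kernel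
theorem p45 (H : Hyps) : P (nat_lit 100096) := step H (p44 H) D.ok45 e45 (Nat.le_of_ble_eq_true rfl)
theorem e46 : lenK D.c46 (nat_lit 100096) = nat_lit 101373 := by decide +kernel
theorem p46 (H : Hyps) : P (nat_lit 101373) := step H (p45 H) D.ok46 e46 (Nat.le_of_ble_eq_true rfl)
theorem e47 : lenK D.c47 (nat_lit 101373) = nat_lit 102686 := by decide +kernel
theorem p47 (H : Hyps) : P (nat_lit 102686) := step H (p46 H) D.ok47 e47 (Nat.le_of_ble_eq_true rfl)
theorem e48 : lenK D.c48 (nat_lit 102686) = nat_lit 103814 := by decide +kernel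
theorem p48 (H : Hyps) : P (nat_lit 103814) := step H (p47 H) D.ok48 e48 (Nat.le_of_ble_eq_true rfl)
theorem e49 : lenK D.c49 (nat_lit 103814) = nat_lit 105116 := by decide +kernel
theorem p49 (H : Hyps) : P (nat_lit 105116) := step H (p48 H) D.ok49 e49 (Nat.le_of_ble_eq_true rfl)
theorem e50 : lenK D.c50 (nat_lit 105116) = nat_lit 106718 := by decide +kernel
theorem p50 (H : Hyps) : P (nat_lit 106718) := step H (p49 H) D.ok50 e50 (Nat.le_of_ble_eq_true rfl)
theorem e51 : lenK D.c51 (nat_lit 106718) = nat_lit 107878 := by decide +kernel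
theorem p51 (H : Hyps) : P (nat_lit 107878) := step H (p50 H) D.ok51 e51 (Nat.le_of_ble_eq_true rfl)
theorem e52 : lenK D.c52 (nat_lit 107878) = nat_lit 109135 := by decide +kernel
theorem p52 (H : Hyps) : P (nat_lit 109135) := step H (p51 H) D.ok52 e52 (Nat.le_of_ble_eq_true rfl)
theorem e53 : lenK D.c53 (nat_lit 109135) = nat_lit 110423 := by decide +kernel
theorem p53 (H : Hyps) : P (nat_lit 110423) := step H (p52 H) D.ok53 e53 (Nat.le_of_ble_eq_true rfl)
theorem e54 : lenK D.c54 (nat_lit 110423) = nat_lit 111428 := by decide +kernel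
theorem p54 (H : Hyps) : P (nat_lit 111428) := step H (p53 H) D.ok54 e54 (Nat.le_of_ble_eq_true rfl)
theorem e55 : lenK D.c55 (nat_lit 111428) = nat_lit 112591 := by decide +kernel
theorem p55 (H : Hyps) : P (nat_lit 112591) := step H (p54 H) D.ok55 e55 (Nat.le_of_ble_eq_true rfl)
theorem e56 : lenK D.c56 (nat_lit 112591) = nat_lit 113992 := by decide +kernel
theorem p56 (H : Hyps) : P (nat_lit 113992) := step H (p55 H) D.ok56 e56 (Nat.le_of_ble_eq_true rfl)
theorem e57 : lenK D.c57 (nat_lit 113992) = nat_lit 115154 := by decide +kernel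
theorem p57 (H : Hyps) : P (nat_lit 115154) := step H (p56 H) D.ok57 e57 (Nat.le_of_ble_eq_true rfl)
theorem e58 : lenK D.c58 (nat_lit 115154) = nat_lit 116375 := by decide +kernel
theorem p58 (H : Hyps) : P (nat_lit 116375) := step H (p57 H) D.ok58 e58 (Nat.le_of_ble_eq_true rfl)
theorem e59 : lenK D.c59 (nat_lit 116375) = nat_lit 117531 := by decide +kernel
theorem p59 (H : Hyps) : P (nat_lit 117531) := step H (p58 H) D.ok59 e59 (Nat.le_of_ble_eq_true rfl)
theorem e60 : lenK D.c60 (nat_lit 117531) = nat_lit 118789 := by decide +kernel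
theorem p60 (H : Hyps) : P (nat_lit 118789) := step H (p59 H) D.ok60 e60 (Nat.le_of_ble_eq_true rfl)
theorem e61 : lenK D.c61 (nat_lit 118789) = nat_lit 119723 := by decide +kernel
theorem p61 (H : Hyps) : P (nat_lit 119723) := step H (p60 H) D.ok61 e61 (Nat.le_of_ble_eq_true rfl)
theorem e62 : lenK D.c62 (nat_lit 119723) = nat_lit 120833 := by decide +kernel
theorem p62 (H : Hyps) : P (nat_lit 120833) := step H (p61 H) D.ok62 e62 (Nat.le_of_ble_eq_true rfl)
theorem e63 : lenK D.c63 (nat_lit 120833) = nat_lit 121910 := by decide +kernel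
theorem p63 (H : Hyps) : P (nat_lit 121910) := step H (p62 H) D.ok63 e63 (Nat.le_of_ble_eq_true rfl)
theorem e64 : lenK D.c64 (nat_lit 121910) = nat_lit 122893 := by decide +kernel
theorem p64 (H : Hyps) : P (nat_lit 122893) := step H (p63 H) D.ok64 e64 (Nat.le_of_ble_eq_true rfl)
theorem e65 : lenK D.c65 (nat_lit 122893) = nat_lit 124038 := by decide +kernel
theorem p65 (H : Hyps) : P (nat_lit 124038) := step H (p64 H) D.ok65 e65 (Nat.le_of_ble_eq_true rfl)
theorem e66 : lenK D.c66 (nat_lit 124038) = nat_lit 125074 := by decide +kernel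
theorem p66 (H : Hyps) : P (nat_lit 125074) := step H (p65 H) D.ok66 e66 (Nat.le_of_ble_eq_true rfl)
theorem e67 : lenK D.c67 (nat_lit 125074) = nat_lit 126227 := by decide +kernel
theorem p67 (H : Hyps) : P (nat_lit 126227) := step H (p66 H) D.ok67 e67 (Nat.le_of_ble_eq_true rfl)
theorem e68 : lenK D.c68 (nat_lit 126227) = nat_lit 127347 := by decide +kernel
theorem p68 (H : Hyps) : P (nat_lit 127347) := step H (p67 H) D.ok68 e68 (Nat.le_of_ble_eq_true rfl)
theorem e69 : lenK D.c69 (nat_lit 127347) = nat_lit 128361 := by decide +kernel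
theorem p69 (H : Hyps) : P (nat_lit 128361) := step H (p68 H) D.ok69 e69 (Nat.le_of_ble_eq_true rfl)
theorem e70 : lenK D.c70 (nat_lit 128361) = nat_lit 129483 := by decide +kernel
theorem p70 (H : Hyps) : P (nat_lit 129483) := step H (p69 H) D.ok70 e70 (Nat.le_of_ble_eq_true rfl)
theorem e71 : lenK D.c71 (nat_lit 129483) = nat_lit 130447 := by decide +kernel
theorem p71 (H : Hyps) : P (nat_lit 130447) := step H (p70 H) D.ok71 e71 (Nat.le_of_ble_eq_true rfl)
theorem e72 : lenK D.c72 (nat_lit 130447) = nat_lit 131401 := by decide +kernel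
theorem p72 (H : Hyps) : P (nat_lit 131401) := step H (p71 H) D.ok72 e72 (Nat.le_of_ble_eq_true rfl)
theorem e73 : lenK D.c73 (nat_lit 131401) = nat_lit 132452 := by decide +kernel
theorem p73 (H : Hyps) : P (nat_lit 132452) := step H (p72 H) D.ok73 e73 (Nat.le_of_ble_eq_true rfl)
theorem e74 : lenK D.c74 (nat_lit 132452) = nat_lit 133398 := by decide +kernel
theorem p74 (H : Hyps) : P (nat_lit 133398) := step H (p73 H) D.ok74 e74 (Nat.le_of_ble_eq_true rfl)
theorem e75 : lenK D.c75 (nat_lit 133398) = nat_lit 134459 := by decide +kernel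
theorem p75 (H : Hyps) : P (nat_lit 134459) := step H (p74 H) D.ok75 e75 (Nat.le_of_ble_eq_true rfl)
theorem e76 : lenK D.c76 (nat_lit 134459) = nat_lit 135385 := by decide +kernel
theorem p76 (H : Hyps) : P (nat_lit 135385) := step H (p75 H) D.ok76 e76 (Nat.le_of_ble_eq_true rfl)
theorem e77 : lenK D.c77 (nat_lit 135385) = nat_lit 136391 := by decide +kernel
theorem p77 (H : Hyps) : P (nat_lit 136391) := step H (p76 H) D.ok77 e77 (Nat.le_of_ble_eq_true rfl)
theorem e78 : lenK D.c78 (nat_lit 136391) = nat_lit 137350 := by decide +kernel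
theorem p78 (H : Hyps) : P (nat_lit 137350) := step H (p77 H) D.ok78 e78 (Nat.le_of_ble_eq_true rfl)
theorem e79 : lenK D.c79 (nat_lit 137350) = nat_lit 138220 := by decide +kernel
theorem p79 (H : Hyps) : P (nat_lit 138220) := step H (p78 H) D.ok79 e79 (Nat.le_of_ble_eq_true rfl)
theorem e80 : lenK D.c80 (nat_lit 138220) = nat_lit 139143 := by decide +kernel
theorem p80 (H : Hyps) : P (nat_lit 139143) := step H (p79 H) D.ok80 e80 (Nat.le_of_ble_eq_true rfl)
theorem e81 : lenK D.c81 (nat_lit 139143) = nat_lit 140028 := by decide +kernel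
theorem p81 (H : Hyps) : P (nat_lit 140028) := step H (p80 H) D.ok81 e81 (Nat.le_of_ble_eq_true rfl)
theorem e82 : lenK D.c82 (nat_lit 140028) = nat_lit 140909 := by decide +kernel
theorem p82 (H : Hyps) : P (nat_lit 140909) := step H (p81 H) D.ok82 e82 (Nat.le_of_ble_eq_true rfl)
theorem e83 : lenK D.c83 (nat_lit 140909) = nat_lit 141749 := by decide +kernel
theorem p83 (H : Hyps) : P (nat_lit 141749) := step H (p82 H) D.ok83 e83 (Nat.le_of_ble_eq_true rfl)
theorem e84 : lenK D.c84 (nat_lit 141749) = nat_lit 142496 := by decide +kernel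
theorem p84 (H : Hyps) : P (nat_lit 142496) := step H (p83 H) D.ok84 e84 (Nat.le_of_ble_eq_true rfl)
theorem e85 : lenK D.c85 (nat_lit 142496) = nat_lit 143226 := by decide +kernel
theorem p85 (H : Hyps) : P (nat_lit 143226) := step H (p84 H) D.ok85 e85 (Nat.le_of_ble_eq_true rfl)
theorem e86 : lenK D.c86 (nat_lit 143226) = nat_lit 144373 := by decide +kernel
theorem p86 (H : Hyps) : P (nat_lit 144373) := step H (p85 H) D.ok86 e86 (Nat.le_of_ble_eq_true rfl)
theorem e87 : lenK D.c87 (nat_lit 144373) = nat_lit 145364 := by decide +kernel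
theorem p87 (H : Hyps) : P (nat_lit 145364) := step H (p86 H) D.ok87 e87 (Nat.le_of_ble_eq_true rfl)
theorem e88 : lenK D.c88 (nat_lit 145364) = nat_lit 146492 := by decide +kernel
theorem p88 (H : Hyps) : P (nat_lit 146492) := step H (p87 H) D.ok88 e88 (Nat.le_of_ble_eq_true rfl)
theorem e89 : lenK D.c89 (nat_lit 146492) = nat_lit 147605 := by decide +kernel
theorem p89 (H : Hyps) : P (nat_lit 147605) := step H (p88 H) D.ok89 e89 (Nat.le_of_ble_eq_true rfl)
theorem e90 : lenK D.c90 (nat_lit 147605) = nat_lit 148572 := by decide +kernel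
theorem p90 (H : Hyps) : P (nat_lit 148572) := step H (p89 H) D.ok90 e90 (Nat.le_of_ble_eq_true rfl)
theorem e91 : lenK D.c91 (nat_lit 148572) = nat_lit 149368 := by decide +kernel
theorem p91 (H : Hyps) : P (nat_lit 149368) := step H (p90 H) D.ok91 e91 (Nat.le_of_ble_eq_true rfl)
theorem e92 : lenK D.c92 (nat_lit 149368) = nat_lit 150221 := by decide +kernel
theorem p92 (H : Hyps) : P (nat_lit 150221) := step H (p91 H) D.ok92 e92 (Nat.le_of_ble_eq_true rfl)
theorem e93 : lenK D.c93 (nat_lit 150221) = nat_lit 151066 := by decide +kernel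
theorem p93 (H : Hyps) : P (nat_lit 151066) := step H (p92 H) D.ok93 e93 (Nat.le_of_ble_eq_true rfl)
theorem e94 : lenK D.c94 (nat_lit 151066) = nat_lit 151951 := by decide +kernel
theorem p94 (H : Hyps) : P (nat_lit 151951) := step H (p93 H) D.ok94 e94 (Nat.le_of_ble_eq_true rfl)
theorem e95 : lenK D.c95 (nat_lit 151951) = nat_lit 152788 := by decide +kernel
theorem p95 (H : Hyps) : P (nat_lit 152788) := step H (p94 H) D.ok95 e95 (Nat.le_of_ble_eq_true rfl)
theorem e96 : lenK D.c96 (nat_lit 152788) = nat_lit 153661 := by decide +kernel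
theorem p96 (H : Hyps) : P (nat_lit 153661) := step H (p95 H) D.ok96 e96 (Nat.le_of_ble_eq_true rfl)
theorem e97 : lenK D.c97 (nat_lit 153661) = nat_lit 154530 := by decide +kernel
theorem p97 (H : Hyps) : P (nat_lit 154530) := step H (p96 H) D.ok97 e97 (Nat.le_of_ble_eq_true rfl)
theorem e98 : lenK D.c98 (nat_lit 154530) = nat_lit 155297 := by decide +kernel
theorem p98 (H : Hyps) : P (nat_lit 155297) := step H (p97 H) D.ok98 e98 (Nat.le_of_ble_eq_true rfl)
theorem e99 : lenK D.c99 (nat_lit 155297) = nat_lit 156075 := by decide +kernel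
theorem p99 (H : Hyps) : P (nat_lit 156075) := step H (p98 H) D.ok99 e99 (Nat.le_of_ble_eq_true rfl)
theorem e100 : lenK D.c100 (nat_lit 156075) = nat_lit 156806 := by decide +kernel
theorem p100 (H : Hyps) : P (nat_lit 156806) := step H (p99 H) D.ok100 e100 (Nat.le_of_ble_eq_true rfl)
theorem e101 : lenK D.c101 (nat_lit 156806) = nat_lit 157206 := by decide +kernel
theorem p101 (H : Hyps) : P (nat_lit 157206) := step H (p100 H) D.ok101 e101 (Nat.le_of_ble_eq_true rfl)

theorem nA (H : Hyps) : Valid (cl D.db 143378) := p101 H 143378 (by norm_num)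

theorem nB (H : Hyps) : Valid (cl D.db 157204) := p101 H 157204 (by norm_num)

theorem nC (H : Hyps) : Valid (cl D.db 157205) := p101 H 157205 (by norm_num)

theorem clA : cl D.db 143378 = 0x2200000000000000000000000000000000000000 := by decide +kernel

theorem clB : cl D.db 157204 = 0x10000200000000000000000000000000000000000000 := by decide +kernel

theorem clC : cl D.db 157205 = 0x20200000000000000000000000000000000000000 := by decide +kernel

theorem bitsA : ∀ b < 382, (0x2200000000000000000000000000000000000000 : ℕ).testBit b = true → b = 153 ∨ b = 157 := by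
  decide +kernel

theorem bitsB : ∀ b < 382, (0x10000200000000000000000000000000000000000000 : ℕ).testBit b = true → b = 153 ∨ b = 172 := by
  decide +kernel

theorem bitsC : ∀ b < 382, (0x20200000000000000000000000000000000000000 : ℕ).testBit b = true → b = 153 ∨ b = 161 := by
  decide +kernel

theorem lemA_of (H : Hyps) : LemA := by
  intro e w S h
  have h1 := nA H e w S
  rw [clA] at h1
  apply h1
  intro b _ h3 h4
  rcases bitsA b h3 h4 with rfl | rfl
  · exact h.1
  · exact h.2

theorem lemB_of (H : Hyps) : LemB := by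
  intro e w S h
  have h1 := nB H e w S
  rw [clB] at h1
  apply h1
  intro b _ h3 h4
  rcases bitsB b h3 h4 with rfl | rfl
  · exact h.1
  · exact h.2

/-- the third exclusion -/
theorem lemC_of (H : Hyps) : ∀ e w, Sys e w → ¬ (e 12 21 ∧ e 13 23) := by
  intro e w S h
  have h1 := nC H e w S
  rw [clC] at h1
  apply h1
  intro b _ h3 h4
  rcases bitsC b h3 h4 with rfl | rfl
  · exact h.1
  · exact h.2

end Pool.Agent.H36.QT
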