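import Mathlib

/-!
# Quadratic triangulations of matroid base polytopes: definitions (seat helper36, MP_02a80e_co)
-/

set_option autoImplicit false

namespace Pool.Agent.H36.QT

/-- The vertex `e_B = ∑_{i ∈ B} e_i` of the base polytope. -/
noncomputable def vtx {α : Type} (B : Set α) : α → ℝ := B.indicator fun _ => 1

/-- The vertex set `𝒜 = {e_B : B a basis of M}` of the base polytope of `M`. -/
def verts {α : Type} (M : Matroid α) : Set (α → ℝ) := {x | ∃ B, M.IsBase B ∧ x = vtx B}

/-- The simplicial complex `K` is a regular, unimodular and flag triangulation of the point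
configuration `A`:

* `vert`, `cover`: the vertices of the simplices are in `A`, and the simplices cover `conv A`;
* `regular`: there are heights `h` on `A` such that the simplices are the projections of the lower
  faces of the convex hull of the points `(a, h a)`, that is, the sets of the `a ∈ A` at which an
  affine function `l + c` with `l a + c ≤ h a` on `A` is equal to `h`;
* `unimodular`: the affine lattice generated by the vertices of a maximal simplex contains `A`
  (normalized volume one with respect to the affine lattice spanned by `A`);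
* `flag`: every minimal non-face has exactly two elements. -/
structure IsQuadratic {E : Type} [AddCommGroup E] [Module ℝ E] (A : Set E)
    (K : Geometry.SimplicialComplex ℝ E) : Prop where
  vert : ∀ s ∈ K.faces, (s : Set E) ⊆ A
  cover : K.space = convexHull ℝ A
  regular : ∃ h : E → ℝ, ∀ s : Finset E, s ∈ K.faces ↔ s.Nonempty ∧ (s : Set E) ⊆ A ∧
    ∃ (l : E →ₗ[ℝ] ℝ) (c : ℝ), (∀ a ∈ A, l a + c ≤ h a) ∧ ∀ a ∈ A, (l a + c = h a ↔ a ∈ s)
  unimodular : ∀ s ∈ K.facets, ∀ a ∈ A, ∃ n : E → ℤ,
    ∑ v ∈ s, n v = 1 ∧ ∑ v ∈ s, (n v : ℝ) • v = a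
  flag : ∀ s : Finset E, s.Nonempty → (s : Set E) ⊆ A → s ∉ K.faces →
    (∀ t : Finset E, t ⊂ s → t.Nonempty → t ∈ K.faces) → s.card = 2

/-- `M ∈ 𝒬`: the base polytope of `M` has a quadratic triangulation. -/
def HasQuad {α : Type} (M : Matroid α) : Prop :=
  ∃ K : Geometry.SimplicialComplex ℝ (α → ℝ), IsQuadratic (verts M) K

/-- `M` has a minor isomorphic to `N`. -/
def HasMinorIso {α β : Type} (N : Matroid β) (M : Matroid α) : Prop :=
  ∃ f : β ↪ α, N.mapEmbedding f ≤m M

/-- The combinatorial content of a quadratic triangulation: `e X Y` says that `{e_X, e_Y}` is a face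
(of dimension at most one), `w` are the heights. -/
structure Comb {α : Type} (M : Matroid α) (w : Set α → ℝ) (e : Set α → Set α → Prop) : Prop where
  symm : ∀ X Y, e X Y → e Y X
  two : ∀ X Y, M.IsBase X → M.IsBase Y → ∃ X' Y', M.IsBase X' ∧ M.IsBase Y' ∧ e X' Y' ∧
    vtx X' + vtx Y' = vtx X + vtx Y
  lt : ∀ X Y X' Y', M.IsBase X → M.IsBase Y → M.IsBase X' → M.IsBase Y' → e X Y →
    vtx X' + vtx Y' = vtx X + vtx Y → (X' = X ∧ Y' = Y) ∨ (X' = Y ∧ Y' = X) ∨ w X + w Y < w X' + w Y'
  three : ∀ X Y Z, M.IsBase X → M.IsBase Y → M.IsBase Z → ∃ X' Y' Z', M.IsBase X' ∧ M.IsBase Y' ∧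
    M.IsBase Z' ∧ e X' Y' ∧ e X' Z' ∧ e Y' Z' ∧
    vtx X' + vtx Y' + vtx Z' = vtx X + vtx Y + vtx Z
  unique : ∀ X Y Z X' Y' Z', M.IsBase X → M.IsBase Y → M.IsBase Z → M.IsBase X' → M.IsBase Y' →
    M.IsBase Z' → e X Y → e X Z → e Y Z → e X' Y' → e X' Z' → e Y' Z' →
    vtx X' + vtx Y' + vtx Z' = vtx X + vtx Y + vtx Z →
    ({X', Y', Z'} : Multiset (Set α)) = {X, Y, Z}

end Pool.Agent.H36.QT
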