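import Mathlib

/-!
# Kernel functions of the certificate checker (seat helper36, MP_02a80e_co)

Literals of the 175 basic variables are the bits `32 + v` (true) and `207 + v` (false), `v < 175`.
A clause is stored as the set of the negations of its literals: the clause says that not all
literals of the set are true. The lowest 32 bits of a state are a tag without meaning.
-/

set_option autoImplicit false

namespace Pool.Agent.H36.QT

/-- Search trees with numbers at the leaves. -/
inductive Tr : Type
  | lf : ℕ → Tr
  | nd : ℕ → Tr → Tr → Tr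

/-- Look up. -/
noncomputable def Tr.get (t : Tr) : ℕ → ℕ :=
  @Tr.rec (fun _ => ℕ → ℕ) (fun v _ => v)
    (fun p _ _ l r k => @Bool.rec (fun _ => ℕ) (l k) (r k) (Nat.ble p k)) t

/-- Call by value. -/
noncomputable def frN {α : Type} (v : ℕ) (k : ℕ → α) : α :=
  @Nat.rec (fun _ => α) (k (nat_lit 0)) (fun p _ => k p) (Nat.add v (nat_lit 1))

/-- `2 ^ 384 - 1` -/
noncomputable def m384 : ℕ := nat_lit 0xffffffffffffffffffffffffffffffffffffffffffffffffffffffffffffffffffffffffffffffffffffffffffffffff

/-- The `h`-th clause of the data base: 16 clauses of 384 bits at each leaf. -/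
noncomputable def cl (db : Tr) (h : ℕ) : ℕ :=
  Nat.land (Nat.shiftRight (db.get (Nat.shiftRight h (nat_lit 4)))
    (Nat.mul (nat_lit 384) (Nat.land h (nat_lit 15))))
    (nat_lit 0xffffffffffffffffffffffffffffffffffffffffffffffffffffffffffffffffffffffffffffffffffffffffffffffff)

/-- Exchange of a literal and its negation (with garbage outside of the bits `32, …, 381`). -/
noncomputable def sw (s d : ℕ) : ℕ :=
  Nat.lor s (Nat.lor (Nat.shiftLeft d (nat_lit 175)) (Nat.shiftRight d (nat_lit 175)))

/-- The cubic rule. `x` is the list of the remaining triples, `a` the triple which is still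
possible (or `0`); `k` is the continuation. -/
noncomputable def cub (n : ℕ) : ℕ → ℕ → ℕ → (ℕ → Bool) → Bool :=
  @Nat.rec (fun _ => ℕ → ℕ → ℕ → (ℕ → Bool) → Bool) (fun _ _ _ _ => false)
    (fun _ ih x a s k =>
      @Nat.rec (fun _ => Bool) (@Nat.rec (fun _ => Bool) true (fun _ _ => frN (sw s a) k) a)
        (fun _ _ => frN (Nat.land x
            (nat_lit 0xffffffffffffffffffffffffffffffffffffffffffffffffffffffffffffffffffffffffffffffffffffffffffffffff)) fun f =>
          frN (Nat.shiftRight x (nat_lit 384)) fun y =>
          @Nat.rec (fun _ => Bool) (@Nat.rec (fun _ => Bool) (ih y f s k) (fun _ _ => false) a)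
            (fun _ _ => ih y a s k) (Nat.land f s)) x) n

/-- Unit propagation along the hints `c` (base `2 ^ 18` digits). -/
noncomputable def rup (db ct : Tr) (i : ℕ) (n : ℕ) : ℕ → ℕ → Bool :=
  @Nat.rec (fun _ => ℕ → ℕ → Bool) (fun _ _ => false)
    (fun _ ih c s =>
      frN (Nat.land c (nat_lit 262143)) fun h =>
      frN (Nat.shiftRight c (nat_lit 18)) fun c' =>
      @Bool.rec (fun _ => Bool)
        (@Bool.rec (fun _ => Bool) false
          (frN (cl db h) fun N =>
           frN (Nat.xor N (Nat.land N s)) fun D =>
            @Nat.rec (fun _ => Bool) true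
              (fun _ _ => @Nat.rec (fun _ => Bool) (frN (sw s D) (ih c')) (fun _ _ => false)
                (Nat.land D (Nat.sub D (nat_lit 1)))) D)
          (Nat.ble (Nat.succ h) i))
        (cub (nat_lit 32) (ct.get (Nat.sub h (nat_lit 200000))) (nat_lit 0) s (ih c'))
        (Nat.ble (nat_lit 200000) h)) n

/-- Application of the permutation of the literals with the table `T` (9 bits for each literal) to
the literals of the list `l` (base 512 digits, `511` is the end); `a` and `b` are the sets of the
literals and of their images. -/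
noncomputable def img (T : ℕ) (n : ℕ) : ℕ → ℕ → ℕ → (ℕ → ℕ → Bool) → Bool :=
  @Nat.rec (fun _ => ℕ → ℕ → ℕ → (ℕ → ℕ → Bool) → Bool) (fun _ a b k => k a b)
    (fun _ ih l a b k =>
      @Nat.rec (fun _ => Bool) (k a b)
        (fun _ _ => frN (Nat.land l (nat_lit 511)) fun q =>
          frN (Nat.shiftRight l (nat_lit 9)) fun l' =>
          frN (Nat.lor a (Nat.shiftLeft (nat_lit 1) q)) fun a' =>
          frN (Nat.lor b (Nat.shiftLeft (nat_lit 1)
            (Nat.land (Nat.shiftRight T (Nat.mul (nat_lit 9) q)) (nat_lit 511)))) fun b' => ih l' a' b' k) l) n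

/-- The check of the node `i` with the certificate `c`: a unit propagation proof (even) or the
image of an earlier clause (odd: `1 + 2 g + 64 p + 2 ^ 24 l`). -/
noncomputable def node (db ct gt : Tr) (i c : ℕ) : Bool :=
  @Nat.rec (fun _ => Bool)
    (frN (Nat.lor (cl db i) i) fun s => rup db ct i (nat_lit 200) (Nat.shiftRight c (nat_lit 1)) s)
    (fun _ _ =>
      frN (Nat.land (Nat.shiftRight c (nat_lit 6)) (nat_lit 262143)) fun p =>
      @Bool.rec (fun _ => Bool) false
        (img (gt.get (Nat.land (Nat.shiftRight c (nat_lit 1)) (nat_lit 31))) (nat_lit 64)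
          (Nat.shiftRight c (nat_lit 24)) (nat_lit 0) (nat_lit 0) fun a b =>
            @Bool.rec (fun _ => Bool) false (Nat.beq b (cl db i)) (Nat.beq a (cl db p)))
        (Nat.ble (Nat.succ p) i)) (Nat.land c (nat_lit 1))

/-- The check of the nodes `i, i + 1, …`. -/
noncomputable def nodes (db ct gt : Tr) (l : List ℕ) : ℕ → Bool :=
  @List.rec ℕ (fun _ => ℕ → Bool) (fun _ => true)
    (fun c _ ih i => @Bool.rec (fun _ => Bool) false (frN (Nat.succ i) ih) (node db ct gt i c)) l

end Pool.Agent.H36.QT
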