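import Pool.Agent.H36.QT.Stm
import Pool.Agent.H36.QT.Ker

/-!
# Semantics of the certificate (seat helper36, MP_02a80e_co)

The points of the non-Fano matroid `F_7^-` are `0, 1, 2, 3` (a quadrangle) and the diagonal points
`4 = 03 ∩ 12`, `5 = 02 ∩ 13`, `6 = 01 ∩ 23`; its 29 bases are given by bit masks.
-/

set_option autoImplicit false

namespace Pool.Agent.H36.QT

/-- The bases of `F_7^-`. -/
def mkl : List ℕ :=
  [7, 11, 13, 14, 19, 21, 26, 28, 35, 38, 41, 44, 49, 50, 52, 56,
    69, 70, 73, 74, 81, 82, 84, 88, 97, 98, 100, 104, 112]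

/-- `1` if the point `x` is in the `i`-th basis, otherwise `0`. -/
def dg (x i : ℕ) : ℕ := if (mkl.getD i 0).testBit x then 1 else 0

/-- A quadratic system on the bases of `F_7^-`: `e i j` says that the pair is standard, `w` are the
heights. -/
structure Sys (e : ℕ → ℕ → Prop) (w : ℕ → ℝ) : Prop where
  symm : ∀ i j, e i j → e j i
  two : ∀ i j, i < 29 → j < 29 → ∃ i' j', i' < 29 ∧ j' < 29 ∧ e i' j' ∧
    ∀ x < 7, dg x i' + dg x j' = dg x i + dg x j
  lt : ∀ i j i' j', i < 29 → j < 29 → i' < 29 → j' < 29 → e i j →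
    (∀ x < 7, dg x i' + dg x j' = dg x i + dg x j) →
    (i' = i ∧ j' = j) ∨ (i' = j ∧ j' = i) ∨ w i + w j < w i' + w j'
  three : ∀ i j k, i < 29 → j < 29 → k < 29 → ∃ i' j' k', i' < 29 ∧ j' < 29 ∧ k' < 29 ∧
    e i' j' ∧ e i' k' ∧ e j' k' ∧
    ∀ x < 7, dg x i' + dg x j' + dg x k' = dg x i + dg x j + dg x k
  unique : ∀ i j k i' j' k', i < 29 → j < 29 → k < 29 → i' < 29 → j' < 29 → k' < 29 →
    e i j → e i k → e j k → e i' j' → e i' k' → e j' k' →
    (∀ x < 7, dg x i' + dg x j' + dg x k' = dg x i + dg x j + dg x k) →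
    ({i', j', k'} : Multiset ℕ) = {i, j, k}

/-- The pairs of bases of the 175 variables. -/
def el : List (ℕ × ℕ) :=
  [(1, 5), (0, 6), (0, 7), (1, 7), (4, 7), (0, 10), (1, 9), (0, 11), (1, 11), (0, 12), (0, 13),
    (0, 14), (1, 12), (1, 13), (2, 12), (0, 15), (1, 14), (2, 13), (3, 12), (4, 11), (7, 8), (3, 13),
    (2, 14), (3, 14), (1, 15), (2, 15), (3, 15), (4, 14), (4, 15), (5, 15), (6, 14), (8, 11), (8, 14),
    (8, 15), (10, 14), (9, 15), (0, 18), (0, 19), (2, 17), (2, 19), (0, 20), (0, 21), (0, 22), (1, 20),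
    (1, 21), (2, 20), (0, 23), (1, 22), (2, 21), (3, 20), (5, 19), (6, 16), (3, 21), (2, 22), (3, 22),
    (1, 23), (2, 23), (3, 23), (4, 22), (4, 23), (5, 23), (6, 22), (0, 24), (0, 25), (0, 26), (1, 24),
    (1, 25), (2, 24), (0, 27), (1, 26), (2, 25), (3, 24), (9, 18), (10, 17), (3, 25), (2, 26), (3, 26),
    (1, 27), (2, 27), (3, 27), (4, 24), (4, 25), (5, 24), (0, 28), (4, 26), (5, 25), (8, 22), (9, 20),
    (12, 17), (13, 16), (9, 21), (5, 26), (9, 22), (10, 20), (1, 28), (4, 27), (6, 24), (8, 23), (10, 21),
    (12, 19), (13, 18), (6, 25), (2, 28), (5, 27), (7, 24), (10, 22), (11, 20), (14, 18), (15, 16), (3, 28),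
    (6, 26), (7, 25), (9, 23), (11, 21), (14, 19), (15, 17), (7, 26), (10, 23), (6, 27), (7, 27), (4, 28),
    (12, 21), (13, 20), (5, 28), (12, 22), (14, 20), (13, 22), (12, 23), (6, 28), (13, 23), (15, 21), (7, 28),
    (14, 23), (15, 22), (8, 26), (8, 27), (10, 26), (9, 27), (8, 28), (12, 25), (13, 24), (12, 26), (9, 28),
    (13, 26), (14, 25), (10, 28), (12, 27), (15, 24), (13, 27), (11, 28), (14, 27), (15, 26), (16, 19), (16, 21),
    (18, 21), (16, 23), (17, 23), (16, 25), (18, 25), (16, 27), (17, 27), (20, 25), (16, 28), (20, 26), (22, 24),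
    (17, 28), (21, 26), (22, 25), (18, 28), (20, 27), (23, 24), (19, 28), (21, 27), (23, 25), (22, 27)]

/-- The meaning of the literal `b`, `32 ≤ b < 382`. -/
def Lit (e : ℕ → ℕ → Prop) (b : ℕ) : Prop :=
  if b < 207 then e (el.getD (b - 32) (0, 0)).1 (el.getD (b - 32) (0, 0)).2
  else ¬ e (el.getD (b - 207) (0, 0)).1 (el.getD (b - 207) (0, 0)).2

/-- All literals of the set `S` hold. -/
def Hold (e : ℕ → ℕ → Prop) (S : ℕ) : Prop :=
  ∀ b, 32 ≤ b → b < 382 → S.testBit b = true → Lit e b

/-- Not all literals of the set `N` hold. -/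
def Valid (N : ℕ) : Prop := ∀ e w, Sys e w → ¬ Hold e N

/-- The numbers of a list of 384 bit numbers. -/
def fs : ℕ → ℕ → List ℕ
  | 0, _ => []
  | n + 1, x => if x = 0 then [] else (x % 2 ^ 384) :: fs n (x / 2 ^ 384)

/-- In a cubic fibre one of the triples is standard; the triple is given by the negations of its
literals. -/
def ValidCub (x : ℕ) : Prop := ∀ e w, Sys e w → ∃ F ∈ fs 31 x,
  ∀ b, 32 ≤ b → b < 382 → F.testBit b = true → ¬ Lit e b

/-- The entry `b` of the table `T`. -/
def ent (T b : ℕ) : ℕ := Nat.land (Nat.shiftRight T (9 * b)) 511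

/-- `T` is the table of a symmetry. -/
def GoodT (T : ℕ) : Prop := ∀ e w, Sys e w → ∃ e' w', Sys e' w' ∧ ∀ b, 32 ≤ b → b < 382 →
  32 ≤ ent T b ∧ ent T b < 382 ∧ (Lit e' b ↔ Lit e (ent T b))

/-- The table of the literals of the pairs of bases (`0`: the pair is always standard). -/
noncomputable def TB : ℕ := nat_lit 0x2facd650000000000000000000000000000000000000000000000000000000019c0063b1000000000000000000000000000000000000000000000000000000000cc63002e00000000000000000000000000000000000000000000000000000000064b0d820000000000000000000000000000000000000000000000000000000065802de00b6802d600b4800000000000000000000000000000000000000000000320016e5f000016a5d0000000000000000000000000000000000000000000000018ac000002d8bc00002d000b380000000000000000000000000000000000000000c25f8017a005d80172005c0000000000000000000000000000000000000000000000016f63598014aa2a75168893460000000000000000000000000000000000000016c00585714800a6a75248b95ca800000000000000000000000000000000000000b45780158a14f0013534424a4f200000000000000000000000000000000000000592b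556004fa71320041cb0f1210000000000000000000000000000000000005a8000158abd1a86914547a3b1b8d00000f2788000000000000000000000000002c400a8ab0012a89411f6380034c480042780000000000000000000000000000015ca900002aa903e1e8ef19340021e4300001de007700000000000000000000000aa53a980000409da411f88c421d0d2090000001f800000000000000000000000051a5d288f44000010c85c220f058200000ed76001d0e61a0000000000000000002812c8e42a00005d0042801068194c003e003add2e77237000000000000000000136873d9d4e45c0042400527e3e4003d003a800e56eb69b0006980000000000000983f9d0e2702d96800007dbe9f0f71e0ec000019b6db200120000000000000000469bcd86a33964ac5428801ec007a8e86e3519001ae006a80000d168000000000218dc6b3318cb055281348e00230007236188b800006b35000d20033c000000000fc6d32988c257279309600003d1e638180b4582800098002300080000000000007332180be5e271289248229100000178ac5429138940000110840000000000000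

/-- The literal of the pair `i ≤ j`. -/
noncomputable def tbit (i j : ℕ) : ℕ := ent TB (29 * i + j)

/-- W1: soundness of the checker. -/
def S_W1 : Prop := ∀ db ct gt : Tr, (∀ f, ValidCub (ct.get f)) → (∀ g, GoodT (gt.get g)) →
  ∀ (l : List ℕ) (i : ℕ), (∀ h < i, Valid (cl db h)) → nodes db ct gt l i = true →
  ∀ h < i + l.length, Valid (cl db h)

/-- W2: the table of the pairs (`two` and `lt` for the pairs with the same sum of exponents; a pair
which is alone in its fibre is standard, and in a fibre with two pairs exactly one is standard). -/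
def S_W2 : Prop := ∀ e w, Sys e w → ∀ i j, i ≤ j → j < 29 →
  (tbit i j = 0 ∧ e i j) ∨ (32 ≤ tbit i j ∧ tbit i j < 382 ∧ (e i j ↔ Lit e (tbit i j)))

/-- The first exclusion: `045|146` and `245|046` are not both standard. -/
def LemA : Prop := ∀ e w, Sys e w → ¬ (e 12 21 ∧ e 14 20)

/-- The second exclusion: `045|146` and `145|056` are not both standard. -/
def LemB : Prop := ∀ e w, Sys e w → ¬ (e 12 21 ∧ e 13 24)

/-- W7: the final assembly. For every quadrangle `q_0, q_1, q_2, q_3` of `PG(2,3)` the points `q_i` and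
the diagonal points `03 ∩ 12`, `02 ∩ 13`, `01 ∩ 23` form an `F_7^-`, and a system `Comb` on `PG(2,3)`
gives a system `Sys` on it, so the two exclusions hold for the 24 orders of the 234 quadrangles. With
`exactly one of the three pairs` for the fibres `{c, p, q | c, r, s}, {c, p, r | c, q, s},
{c, p, s | c, q, r}` (`p, q, r, s` on four different lines through `c`) this is an unsatisfiable
formula with a very short refutation. -/
def S_W7 : Prop := LemA → LemB → ∀ M : Matroid (Fin 13), IsVecMatroid pgVec M → ¬ HasQuad M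

end Pool.Agent.H36.QT
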