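import Pool.Agent.H36.QT.Defs

/-!
# Fixed statements for the disproof of MP_02a80e_co (seat helper36)

`S_T1`: the combinatorial content of a quadratic triangulation. Proof idea. Let `h` be the heights
of `regular`, `w X = h (vtx X)` and `e X Y` say that the Finset `{vtx X, vtx Y}` is a face.
* `two` and `three`: for bases `X_1, …, X_k` (`k = 2, 3`) the point `p = (1/k) ∑ vtx X_i` is in
  `conv A = K.space`, hence in `conv s` for a face `s`, which is contained in a maximal face `t` (there
  are finitely many faces); `p = ∑ λ_v v` over `t` with `λ ≥ 0`, `∑ λ = 1`. By `unimodular`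
  `∑ vtx X_i = ∑_{v ∈ t} n_v v` with integers `n_v` of sum `k`, and by affine independence
  `k λ_v = n_v`, so the `n_v` are natural numbers of sum `k`: `∑ vtx X_i = ∑ vtx X'_i` with `vtx X'_i ∈ t`,
  and all pairs are faces (subsets of `t`).
* `lt`: for the functional `l + c` of the face `{vtx X, vtx Y}`:
  `w X + w Y = (l + c)(vtx X) + (l + c)(vtx Y) = (l + c)(vtx X') + (l + c)(vtx Y') ≤ w X' + w Y'`, with
  equality only if `X'` and `Y'` are both in `{X, Y}`, and then the sums of the vectors show the rest.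
* `unique`: by `flag` the set `{vtx X, vtx Y, vtx Z}` is a face (all its subsets with at most two
  elements are faces); as in `lt`, `w X + w Y + w Z ≤ w X' + w Y' + w Z'` with equality only if
  `X', Y', Z' ∈ {X, Y, Z}`; the same with the roles exchanged, so there is equality; now the affine
  independence of the face `{vtx X, vtx Y, vtx Z}` gives the equality of the multisets.
-/

set_option autoImplicit false

namespace Pool.Agent.H36.QT

/-- Module T1. -/
def S_T1 : Prop := ∀ (α : Type) [Finite α] (M : Matroid α), HasQuad M →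
  ∃ (w : Set α → ℝ) (e : Set α → Set α → Prop), Comb M w e

/-- The 13 points of the projective plane over `ZMod 3`. -/
def pgVec : Fin 13 → Fin 3 → ZMod 3 :=
  ![![0, 0, 1], ![0, 1, 0], ![0, 1, 1], ![0, 1, 2], ![1, 0, 0], ![1, 0, 1], ![1, 0, 2], ![1, 1, 0],
    ![1, 1, 1], ![1, 1, 2], ![1, 2, 0], ![1, 2, 1], ![1, 2, 2]]

/-- The 7 points of the Fano plane over `ZMod 2`. -/
def fanoVec : Fin 7 → Fin 3 → ZMod 2 :=
  ![![0, 0, 1], ![0, 1, 0], ![0, 1, 1], ![1, 0, 0], ![1, 0, 1], ![1, 1, 0], ![1, 1, 1]]

/-- `M` is the matroid of linear independence of the vectors `v`. -/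
def IsVecMatroid {F : Type} [Field F] {α : Type} {d : ℕ} (v : α → Fin d → F) (M : Matroid α) :
    Prop :=
  M.E = Set.univ ∧ ∀ I : Set α, M.Indep I ↔ LinearIndepOn F v I

/-- Module T2 (a): vector matroids exist. -/
def S_T2a : Prop := ∀ {F : Type} [Field F] {α : Type} [Finite α] {d : ℕ} (v : α → Fin d → F),
  ∃ M : Matroid α, IsVecMatroid v M

/-- Module T2 (b): the bases of `PG(2,3)`. -/
def S_T2b : Prop := ∀ M : Matroid (Fin 13), IsVecMatroid pgVec M → ∀ X : Set (Fin 13),
  M.IsBase X ↔ ∃ i j k : Fin 13, i < j ∧ j < k ∧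
    Matrix.det !![pgVec i 0, pgVec i 1, pgVec i 2; pgVec j 0, pgVec j 1, pgVec j 2;
      pgVec k 0, pgVec k 1, pgVec k 2] ≠ 0 ∧ X = {i, j, k}

/-- Module T2 (c): no Fano minor and no minor dual to the Fano matroid. (For `F_7`: the rank of
`PG(2,3)` is 3 and it has no loops, so a minor of rank 3 is a restriction; in a quadrangle of vectors
over a field with `2 ≠ 0` the three diagonal points are not collinear. For `F_7^*`: the rank is 4.) -/
def S_T2c : Prop := ∀ (M : Matroid (Fin 13)) (N : Matroid (Fin 7)), IsVecMatroid pgVec M →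
  IsVecMatroid fanoVec N → ¬ HasMinorIso N M ∧ ¬ HasMinorIso N✶ M

end Pool.Agent.H36.QT
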