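import Pool.Agent.H36.QT.Cd

/-!
# W2: the table of the pairs (seat helper36, MP_02a80e_co)
-/

set_option autoImplicit false

namespace Pool.Agent.H36.QT

/-- all pairs `k ≤ l < 29` with the same code as the pair `i, j` satisfy `f` -/
def allS (s : ℕ) (f : ℕ → ℕ → Bool) : Bool :=
  (List.range 29).all fun k => (List.range 29).all fun l =>
    Nat.blt l k || !(Nat.beq (cdv k + cdv l) s) || f k l

theorem allS_spec {s : ℕ} {f : ℕ → ℕ → Bool} (h : allS s f = true) {k l : ℕ} (hk : k < 29)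
    (hl : l < 29) (hkl : k ≤ l) (hs : cdv k + cdv l = s) : f k l = true := by
  unfold allS at h
  rw [List.all_eq_true] at h
  have h1 := h k (List.mem_range.mpr hk)
  rw [List.all_eq_true] at h1
  have h2 := h1 l (List.mem_range.mpr hl)
  have h3 : Nat.blt l k = false := by
    rw [Bool.eq_false_iff]; intro hc
    have : l < k := by simpa [Nat.blt_eq] using hc
    omega
  have h4 : Nat.beq (cdv k + cdv l) s = true := by rw [hs]; exact Nat.beq_refl _
  rw [h3, h4] at h2
  simpa using h2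

/-- the check of the entry of the pair `i ≤ j` -/
noncomputable def chkP (i j : ℕ) : Bool :=
  (Nat.beq (tbit i j) 0 && allS (cdv i + cdv j) fun k l => Nat.beq k i && Nat.beq l j) ||
  (Nat.ble 32 (tbit i j) && Nat.blt (tbit i j) 207 &&
    Nat.beq (el.getD (tbit i j - 32) (0, 0)).1 i && Nat.beq (el.getD (tbit i j - 32) (0, 0)).2 j) ||
  (Nat.ble 207 (tbit i j) && Nat.blt (tbit i j) 382 &&
    Nat.blt (el.getD (tbit i j - 207) (0, 0)).1 29 && Nat.blt (el.getD (tbit i j - 207) (0, 0)).2 29 &&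
    Nat.beq (cdv (el.getD (tbit i j - 207) (0, 0)).1 + cdv (el.getD (tbit i j - 207) (0, 0)).2)
      (cdv i + cdv j) &&
    !(Nat.beq (el.getD (tbit i j - 207) (0, 0)).1 i) && !(Nat.beq (el.getD (tbit i j - 207) (0, 0)).1 j) &&
    allS (cdv i + cdv j) fun k l => (Nat.beq k i && Nat.beq l j) ||
      (Nat.beq k (el.getD (tbit i j - 207) (0, 0)).1 && Nat.beq l (el.getD (tbit i j - 207) (0, 0)).2))

theorem chk_all : ((List.range 29).all fun i => (List.range 29).all fun j =>
    Nat.blt j i || chkP i j) = true := by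
  decide +kernel

theorem chkP_of {i j : ℕ} (hij : i ≤ j) (hj : j < 29) : chkP i j = true := by
  have h := chk_all
  rw [List.all_eq_true] at h
  have h1 := h i (List.mem_range.mpr (by omega))
  rw [List.all_eq_true] at h1
  have h2 := h1 j (List.mem_range.mpr hj)
  have h3 : Nat.blt j i = false := by
    rw [Bool.eq_false_iff]; intro hc
    have : j < i := by simpa [Nat.blt_eq] using hc
    omega
  rw [h3] at h2
  simpa using h2

/-- the standard pair in the fibre of `i, j` -/
theorem Sys.two' {e : ℕ → ℕ → Prop} {w : ℕ → ℝ} (S : Sys e w) {i j : ℕ} (hi : i < 29)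
    (hj : j < 29) : ∃ k l, k ≤ l ∧ l < 29 ∧ e k l ∧ cdv k + cdv l = cdv i + cdv j := by
  obtain ⟨k, l, hk, hl, he, hs⟩ := S.two i j hi hj
  have h1 := (cd2 hk hl hi hj).mp hs
  rcases le_total k l with h | h
  · exact ⟨k, l, h, hl, he, h1⟩
  · exact ⟨l, k, h, hk, S.symm _ _ he, by omega⟩

theorem Sys.lt' {e : ℕ → ℕ → Prop} {w : ℕ → ℝ} (S : Sys e w) {i j k l : ℕ} (hi : i < 29)
    (hj : j < 29) (hk : k < 29) (hl : l < 29) (he : e i j) (hs : cdv k + cdv l = cdv i + cdv j)
    (h1 : ¬ (k = i ∧ l = j)) (h2 : ¬ (k = j ∧ l = i)) : w i + w j < w k + w l := by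
  rcases S.lt i j k l hi hj hk hl he ((cd2 hk hl hi hj).mpr hs) with h | h | h
  · exact absurd h h1
  · exact absurd h h2
  · exact h

theorem w2 : S_W2 := by
  intro e w S i j hij hj
  have hi : i < 29 := by omega
  have h := chkP_of hij hj
  unfold chkP at h
  rw [Bool.or_eq_true, Bool.or_eq_true] at h
  rcases h with (h | h) | h
  · left
    rw [Bool.and_eq_true] at h
    refine ⟨Nat.eq_of_beq_eq_true h.1, ?_⟩
    obtain ⟨k, l, hkl, hl, he, hs⟩ := S.two' hi hj
    have h3 := allS_spec h.2 (by omega) hl hkl hs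
    rw [Bool.and_eq_true] at h3
    have e1 := Nat.eq_of_beq_eq_true h3.1
    have e2 := Nat.eq_of_beq_eq_true h3.2
    subst e1; subst e2; exact he
  · right
    rw [Bool.and_eq_true, Bool.and_eq_true, Bool.and_eq_true] at h
    obtain ⟨⟨⟨h1, h2⟩, h3⟩, h4⟩ := h
    have g1 : 32 ≤ tbit i j := Nat.le_of_ble_eq_true h1
    have g2 : tbit i j < 207 := by simpa [Nat.blt_eq] using h2
    have g3 := Nat.eq_of_beq_eq_true h3
    have g4 := Nat.eq_of_beq_eq_true h4
    refine ⟨g1, by omega, ?_⟩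
    unfold Lit
    rw [if_pos g2, g3, g4]
  · right
    simp only [Bool.and_eq_true, Bool.not_eq_true'] at h
    obtain ⟨⟨⟨⟨⟨⟨⟨h1, h2⟩, h3⟩, h4⟩, h5⟩, h6⟩, h7⟩, h8⟩ := h
    have g1 : 207 ≤ tbit i j := Nat.le_of_ble_eq_true h1
    have g2 : tbit i j < 382 := by simpa [Nat.blt_eq] using h2
    have g3 : (el.getD (tbit i j - 207) (0, 0)).1 < 29 := by simpa [Nat.blt_eq] using h3
    have g4 : (el.getD (tbit i j - 207) (0, 0)).2 < 29 := by simpa [Nat.blt_eq] using h4
    have g5 := Nat.eq_of_beq_eq_true h5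
    have g6 : (el.getD (tbit i j - 207) (0, 0)).1 ≠ i := Nat.ne_of_beq_eq_false h6
    have g7 : (el.getD (tbit i j - 207) (0, 0)).1 ≠ j := Nat.ne_of_beq_eq_false h7
    refine ⟨by omega, g2, ?_⟩
    unfold Lit
    rw [if_neg (by omega)]
    constructor
    · intro h9 h10
      have a1 := S.lt' hi hj g3 g4 h9 g5 (fun h => g6 h.1) (fun h => g7 h.1)
      have a2 := S.lt' g3 g4 hi hj h10 g5.symm (fun h => g6 h.1.symm) (fun h => g7 h.2.symm)
      linarith
    · intro h9
      obtain ⟨k, l, hkl, hl, he, hs⟩ := S.two' hi hj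
      have h10 := allS_spec h8 (by omega) hl hkl hs
      rw [Bool.or_eq_true, Bool.and_eq_true, Bool.and_eq_true] at h10
      rcases h10 with h10 | h10
      · have e1 := Nat.eq_of_beq_eq_true h10.1
        have e2 := Nat.eq_of_beq_eq_true h10.2
        subst e1; subst e2; exact he
      · have e1 := Nat.eq_of_beq_eq_true h10.1
        have e2 := Nat.eq_of_beq_eq_true h10.2
        rw [e1, e2] at he
        exact absurd he h9

end Pool.Agent.H36.QT
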