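import Pool.Agent.H36.QT.W5
import Pool.Agent.H36.QT.D.Ct

/-!
# W3: the cubic fibres of the certificate are complete (seat helper36, MP_02a80e_co)
-/

set_option autoImplicit false
set_option maxRecDepth 100000

namespace Pool.Agent.H36.QT

/-- the negation of a literal -/
def neg (b : ℕ) : ℕ := if b < 207 then b + 175 else b - 175

theorem lit_neg {e : ℕ → ℕ → Prop} {b : ℕ} (h1 : 32 ≤ b) (h2 : b < 382) :
    Lit e (neg b) ↔ ¬ Lit e b := by
  unfold neg Lit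
  by_cases h : b < 207
  · rw [if_pos h, if_pos h, if_neg (by omega)]
    have : b + 175 - 207 = b - 32 := by omega
    rw [this]
  · rw [if_neg h, if_neg h, if_pos (by omega), not_not]
    have : b - 175 - 32 = b - 207 := by omega
    rw [this]

/-- the numbers of the fibres, by their codes -/
noncomputable def kt : Tr :=
  .nd (nat_lit 19071009) (.nd (nat_lit 3289089) (.nd (nat_lit 1253424) (.nd (nat_lit 1057554) (.nd (nat_lit 135459) (.nd (nat_lit 70434) (.nd (nat_lit 12819) (.nd (nat_lit 8754) (.nd (nat_lit 4914) (.nd (nat_lit 4899) (.lf (nat_lit 2000)) (.lf (nat_lit 2000))) (.nd (nat_lit 8499) (.lf (nat_lit 2000)) (.nd (nat_lit 8739) (.lf (nat_lit 2000)) (.lf (nat_lit 2000))))) (.nd (nat_lit 9009) (.nd (nat_lit 8979) (.lf (nat_lit 2000)) (.nd (nat_lit 8994) (.lf (nat_lit 2000)) (.lf (nat_lit 2000)))) (.nd (nat_lit 12579) (.lf (nat_lit 2000)) (.nd (nat_lit 12594) (.lf (nat_lit 2000))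 (.lf (nat_lit 2000)))))) (.nd (nat_lit 66099) (.nd (nat_lit 12849) (.nd (nat_lit 12834) (.lf (nat_lit 2000)) (.lf (nat_lit 2000))) (.nd (nat_lit 13074) (.lf (nat_lit 2000)) (.nd (nat_lit 13089) (.lf (nat_lit 2000)) (.lf (nat_lit 2000))))) (.nd (nat_lit 70179) (.nd (nat_lit 66339) (.lf (nat_lit 2000)) (.nd (nat_lit 69939) (.lf (nat_lit 2000)) (.lf (nat_lit 2000)))) (.nd (nat_lit 70194) (.lf (nat_lit 19)) (.nd (nat_lit 70419) (.lf (nat_lit 20)) (.lf (nat_lit 2000))))))) (.nd (nat_lit 78114) (.nd (nat_lit 74274) (.nd (nat_lit 74019) (.nd (nat_lit 73779) (.lf (nat_lit 22)) (.lf (nat_lit 2000))) (.nd (nat_lit 74034) (.lf (nat_lit 24)) (.nd (nat_lit 74259) (.lf (nat_lit 25)) (.lf (nat_lit 26))))) (.nd (nat_lit 74514) (.nd (nat_lit 74289) (.lf (nat_lit 27)) (.nd (nat_lit 74499) (.lf (nat_lit 28)) (.lf (nat_lit 2000)))) (.nd (nat_lit 74529) (.lf (nat_lit 30)) (.nd (nat_lit 77874) (.lf (nat_lit 31))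 (.lf (nat_lit 2000)))))) (.nd (nat_lit 78609) (.nd (nat_lit 78369) (.nd (nat_lit 78129) (.lf (nat_lit 33)) (.nd (nat_lit 78354) (.lf (nat_lit 2000)) (.lf (nat_lit 35)))) (.nd (nat_lit 78384) (.lf (nat_lit 36)) (.nd (nat_lit 78594) (.lf (nat_lit 2000)) (.lf (nat_lit 2000))))) (.nd (nat_lit 131619) (.nd (nat_lit 78624) (.lf (nat_lit 2000)) (.nd (nat_lit 131379) (.lf (nat_lit 2000)) (.lf (nat_lit 2000)))) (.nd (nat_lit 131859) (.lf (nat_lit 2000)) (.nd (nat_lit 135219) (.lf (nat_lit 2000)) (.lf (nat_lit 2000)))))))) (.nd (nat_lit 200754) (.nd (nat_lit 140034) (.nd (nat_lit 135954) (.nd (nat_lit 135699) (.nd (nat_lit 135474) (.lf (nat_lit 45)) (.lf (nat_lit 46))) (.nd (nat_lit 135714) (.lf (nat_lit 47)) (.nd (nat_lit 135939) (.lf (nat_lit 48)) (.lf (nat_lit 2000))))) (.nd (nat_lit 139569) (.nd (nat_lit 139314) (.lf (nat_lit 50)) (.nd (nat_lit 139554) (.lf (nat_lit 2000)) (.lf (nat_lit 52))))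 (.nd (nat_lit 139794) (.lf (nat_lit 53)) (.nd (nat_lit 139809) (.lf (nat_lit 54)) (.lf (nat_lit 55)))))) (.nd (nat_lit 143889) (.nd (nat_lit 143409) (.nd (nat_lit 140049) (.lf (nat_lit 2000)) (.lf (nat_lit 57))) (.nd (nat_lit 143649) (.lf (nat_lit 2000)) (.nd (nat_lit 143664) (.lf (nat_lit 59)) (.lf (nat_lit 2000))))) (.nd (nat_lit 144144) (.nd (nat_lit 143904) (.lf (nat_lit 61)) (.nd (nat_lit 144129) (.lf (nat_lit 2000)) (.lf (nat_lit 2000)))) (.nd (nat_lit 196899) (.lf (nat_lit 2000)) (.nd (nat_lit 197139) (.lf (nat_lit 2000)) (.lf (nat_lit 2000))))))) (.nd (nat_lit 1049394) (.nd (nat_lit 205089) (.nd (nat_lit 201234) (.nd (nat_lit 200994) (.lf (nat_lit 2000)) (.lf (nat_lit 68))) (.nd (nat_lit 201474) (.lf (nat_lit 69)) (.nd (nat_lit 204849) (.lf (nat_lit 2000)) (.lf (nat_lit 2000))))) (.nd (nat_lit 209184) (.nd (nat_lit 205329) (.lf (nat_lit 72)) (.nd (nat_lit 205569) (.lf (nat_lit 73))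 (.lf (nat_lit 2000)))) (.nd (nat_lit 209424) (.lf (nat_lit 2000)) (.nd (nat_lit 1049139) (.lf (nat_lit 2000)) (.lf (nat_lit 2000)))))) (.nd (nat_lit 1056819) (.nd (nat_lit 1053234) (.nd (nat_lit 1052979) (.lf (nat_lit 2000)) (.nd (nat_lit 1053219) (.lf (nat_lit 2000)) (.lf (nat_lit 80)))) (.nd (nat_lit 1053474) (.lf (nat_lit 81)) (.nd (nat_lit 1053489) (.lf (nat_lit 82)) (.lf (nat_lit 2000))))) (.nd (nat_lit 1057299) (.nd (nat_lit 1057059) (.lf (nat_lit 2000)) (.nd (nat_lit 1057074) (.lf (nat_lit 85)) (.lf (nat_lit 86)))) (.nd (nat_lit 1057314) (.lf (nat_lit 87)) (.nd (nat_lit 1057329) (.lf (nat_lit 88)) (.lf (nat_lit 89))))))))) (.nd (nat_lit 1179939) (.nd (nat_lit 1118994) (.nd (nat_lit 1061664) (.nd (nat_lit 1061154) (.nd (nat_lit 1057584) (.nd (nat_lit 1057569) (.lf (nat_lit 90)) (.lf (nat_lit 91))) (.nd (nat_lit 1060899) (.lf (nat_lit 2000)) (.nd (nat_lit 1061139) (.lf (nat_lit 2000))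 (.lf (nat_lit 2000))))) (.nd (nat_lit 1061409) (.nd (nat_lit 1061379) (.lf (nat_lit 95)) (.nd (nat_lit 1061394) (.lf (nat_lit 2000)) (.lf (nat_lit 97)))) (.nd (nat_lit 1061634) (.lf (nat_lit 98)) (.nd (nat_lit 1061649) (.lf (nat_lit 2000)) (.lf (nat_lit 2000)))))) (.nd (nat_lit 1118259) (.nd (nat_lit 1114659) (.nd (nat_lit 1114419) (.lf (nat_lit 2000)) (.lf (nat_lit 2000))) (.nd (nat_lit 1114674) (.lf (nat_lit 103)) (.nd (nat_lit 1114914) (.lf (nat_lit 104)) (.lf (nat_lit 105))))) (.nd (nat_lit 1118739) (.nd (nat_lit 1118499) (.lf (nat_lit 2000)) (.nd (nat_lit 1118514) (.lf (nat_lit 107)) (.lf (nat_lit 108)))) (.nd (nat_lit 1118754) (.lf (nat_lit 109)) (.nd (nat_lit 1118769) (.lf (nat_lit 110)) (.lf (nat_lit 111))))))) (.nd (nat_lit 1123074) (.nd (nat_lit 1122594) (.nd (nat_lit 1122339) (.nd (nat_lit 1119009) (.lf (nat_lit 112)) (.lf (nat_lit 113))) (.nd (nat_lit 1122354) (.lf (nat_lit 114))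 (.nd (nat_lit 1122579) (.lf (nat_lit 115)) (.lf (nat_lit 116))))) (.nd (nat_lit 1122834) (.nd (nat_lit 1122609) (.lf (nat_lit 117)) (.nd (nat_lit 1122819) (.lf (nat_lit 118)) (.lf (nat_lit 119)))) (.nd (nat_lit 1122849) (.lf (nat_lit 120)) (.nd (nat_lit 1122864) (.lf (nat_lit 121)) (.lf (nat_lit 122)))))) (.nd (nat_lit 1126914) (.nd (nat_lit 1126434) (.nd (nat_lit 1123089) (.lf (nat_lit 123)) (.nd (nat_lit 1123104) (.lf (nat_lit 124)) (.lf (nat_lit 125)))) (.nd (nat_lit 1126674) (.lf (nat_lit 126)) (.nd (nat_lit 1126689) (.lf (nat_lit 127)) (.lf (nat_lit 128))))) (.nd (nat_lit 1127169) (.nd (nat_lit 1126929) (.lf (nat_lit 129)) (.nd (nat_lit 1126944) (.lf (nat_lit 130)) (.lf (nat_lit 131)))) (.nd (nat_lit 1127184) (.lf (nat_lit 2000)) (.nd (nat_lit 1179699) (.lf (nat_lit 2000)) (.lf (nat_lit 2000)))))))) (.nd (nat_lit 1188609) (.nd (nat_lit 1184274) (.nd (nat_lit 1183779) (.nd (nat_lit 1180179)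 (.nd (nat_lit 1179954) (.lf (nat_lit 135)) (.lf (nat_lit 136))) (.nd (nat_lit 1180194) (.lf (nat_lit 137)) (.nd (nat_lit 1180434) (.lf (nat_lit 138)) (.lf (nat_lit 139))))) (.nd (nat_lit 1184034) (.nd (nat_lit 1183794) (.lf (nat_lit 140)) (.nd (nat_lit 1184019) (.lf (nat_lit 141)) (.lf (nat_lit 142)))) (.nd (nat_lit 1184049) (.lf (nat_lit 143)) (.nd (nat_lit 1184259) (.lf (nat_lit 144)) (.lf (nat_lit 145)))))) (.nd (nat_lit 1188114) (.nd (nat_lit 1184529) (.nd (nat_lit 1184289) (.lf (nat_lit 146)) (.nd (nat_lit 1184514) (.lf (nat_lit 147)) (.lf (nat_lit 148)))) (.nd (nat_lit 1187874) (.lf (nat_lit 149)) (.nd (nat_lit 1187889) (.lf (nat_lit 150)) (.lf (nat_lit 151))))) (.nd (nat_lit 1188354) (.nd (nat_lit 1188129) (.lf (nat_lit 152)) (.nd (nat_lit 1188144) (.lf (nat_lit 153)) (.lf (nat_lit 154)))) (.nd (nat_lit 1188369) (.lf (nat_lit 155)) (.nd (nat_lit 1188384) (.lf (nat_lit 156)) (.lf (nat_lit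 157))))))) (.nd (nat_lit 1245474) (.nd (nat_lit 1192449) (.nd (nat_lit 1191969) (.nd (nat_lit 1188624) (.lf (nat_lit 158)) (.lf (nat_lit 159))) (.nd (nat_lit 1192209) (.lf (nat_lit 160)) (.nd (nat_lit 1192224) (.lf (nat_lit 161)) (.lf (nat_lit 162))))) (.nd (nat_lit 1245219) (.nd (nat_lit 1192464) (.lf (nat_lit 163)) (.nd (nat_lit 1192704) (.lf (nat_lit 164)) (.lf (nat_lit 2000)))) (.nd (nat_lit 1245234) (.lf (nat_lit 2000)) (.nd (nat_lit 1245459) (.lf (nat_lit 2000)) (.lf (nat_lit 2000)))))) (.nd (nat_lit 1249554) (.nd (nat_lit 1245954) (.nd (nat_lit 1245699) (.lf (nat_lit 169)) (.nd (nat_lit 1245714) (.lf (nat_lit 2000)) (.lf (nat_lit 171)))) (.nd (nat_lit 1249314) (.lf (nat_lit 2000)) (.nd (nat_lit 1249329) (.lf (nat_lit 173)) (.lf (nat_lit 2000))))) (.nd (nat_lit 1249809) (.nd (nat_lit 1249569) (.lf (nat_lit 175)) (.nd (nat_lit 1249794) (.lf (nat_lit 176)) (.lf (nat_lit 177)))) (.nd (nat_lit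 1250049) (.lf (nat_lit 178)) (.nd (nat_lit 1253409) (.lf (nat_lit 2000)) (.lf (nat_lit 180)))))))))) (.nd (nat_lit 2236929) (.nd (nat_lit 2167329) (.nd (nat_lit 2105874) (.nd (nat_lit 2097969) (.nd (nat_lit 1254144) (.nd (nat_lit 1253664) (.nd (nat_lit 1253649) (.lf (nat_lit 2000)) (.lf (nat_lit 182))) (.nd (nat_lit 1253889) (.lf (nat_lit 183)) (.nd (nat_lit 1253904) (.lf (nat_lit 184)) (.lf (nat_lit 185))))) (.nd (nat_lit 1257984) (.nd (nat_lit 1257504) (.lf (nat_lit 2000)) (.nd (nat_lit 1257744) (.lf (nat_lit 2000)) (.lf (nat_lit 2000)))) (.nd (nat_lit 2097459) (.lf (nat_lit 2000)) (.nd (nat_lit 2097714) (.lf (nat_lit 2000)) (.lf (nat_lit 2000)))))) (.nd (nat_lit 2101809) (.nd (nat_lit 2101539) (.nd (nat_lit 2101299) (.lf (nat_lit 2000)) (.lf (nat_lit 2000))) (.nd (nat_lit 2101554) (.lf (nat_lit 194)) (.nd (nat_lit 2101794) (.lf (nat_lit 195)) (.lf (nat_lit 196))))) (.nd (nat_lit 2105379)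 (.nd (nat_lit 2102049) (.lf (nat_lit 197)) (.nd (nat_lit 2102064) (.lf (nat_lit 198)) (.lf (nat_lit 2000)))) (.nd (nat_lit 2105619) (.lf (nat_lit 2000)) (.nd (nat_lit 2105634) (.lf (nat_lit 201)) (.lf (nat_lit 202))))))) (.nd (nat_lit 2162739) (.nd (nat_lit 2109699) (.nd (nat_lit 2106129) (.nd (nat_lit 2105889) (.lf (nat_lit 203)) (.lf (nat_lit 204))) (.nd (nat_lit 2106144) (.lf (nat_lit 205)) (.nd (nat_lit 2109459) (.lf (nat_lit 2000)) (.lf (nat_lit 2000))))) (.nd (nat_lit 2109969) (.nd (nat_lit 2109714) (.lf (nat_lit 2000)) (.nd (nat_lit 2109954) (.lf (nat_lit 209)) (.lf (nat_lit 2000)))) (.nd (nat_lit 2110209) (.lf (nat_lit 211)) (.nd (nat_lit 2110224) (.lf (nat_lit 2000)) (.lf (nat_lit 2000)))))) (.nd (nat_lit 2166819) (.nd (nat_lit 2163234) (.nd (nat_lit 2162979) (.lf (nat_lit 2000)) (.nd (nat_lit 2162994) (.lf (nat_lit 215)) (.lf (nat_lit 216)))) (.nd (nat_lit 2163249) (.lf (nat_lit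 217)) (.nd (nat_lit 2163489) (.lf (nat_lit 218)) (.lf (nat_lit 219))))) (.nd (nat_lit 2167074) (.nd (nat_lit 2166834) (.lf (nat_lit 220)) (.nd (nat_lit 2167059) (.lf (nat_lit 221)) (.lf (nat_lit 222)))) (.nd (nat_lit 2167089) (.lf (nat_lit 223)) (.nd (nat_lit 2167314) (.lf (nat_lit 224)) (.lf (nat_lit 225)))))))) (.nd (nat_lit 2228499) (.nd (nat_lit 2171424) (.nd (nat_lit 2170914) (.nd (nat_lit 2167569) (.nd (nat_lit 2167344) (.lf (nat_lit 226)) (.lf (nat_lit 227))) (.nd (nat_lit 2167584) (.lf (nat_lit 228)) (.nd (nat_lit 2170899) (.lf (nat_lit 229)) (.lf (nat_lit 230))))) (.nd (nat_lit 2171169) (.nd (nat_lit 2171139) (.lf (nat_lit 231)) (.nd (nat_lit 2171154) (.lf (nat_lit 232)) (.lf (nat_lit 233)))) (.nd (nat_lit 2171394) (.lf (nat_lit 234)) (.nd (nat_lit 2171409) (.lf (nat_lit 235)) (.lf (nat_lit 236)))))) (.nd (nat_lit 2175249) (.nd (nat_lit 2171664) (.nd (nat_lit 2171649) (.lf (nat_lit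 237)) (.lf (nat_lit 238))) (.nd (nat_lit 2174994) (.lf (nat_lit 239)) (.nd (nat_lit 2175234) (.lf (nat_lit 240)) (.lf (nat_lit 241))))) (.nd (nat_lit 2175744) (.nd (nat_lit 2175489) (.lf (nat_lit 242)) (.nd (nat_lit 2175504) (.lf (nat_lit 243)) (.lf (nat_lit 244)))) (.nd (nat_lit 2228259) (.lf (nat_lit 2000)) (.nd (nat_lit 2228274) (.lf (nat_lit 2000)) (.lf (nat_lit 2000))))))) (.nd (nat_lit 2232609) (.nd (nat_lit 2229009) (.nd (nat_lit 2228529) (.nd (nat_lit 2228514) (.lf (nat_lit 248)) (.lf (nat_lit 249))) (.nd (nat_lit 2228754) (.lf (nat_lit 250)) (.nd (nat_lit 2228769) (.lf (nat_lit 251)) (.lf (nat_lit 252))))) (.nd (nat_lit 2232369) (.nd (nat_lit 2232339) (.lf (nat_lit 253)) (.nd (nat_lit 2232354) (.lf (nat_lit 254)) (.lf (nat_lit 255)))) (.nd (nat_lit 2232579) (.lf (nat_lit 256)) (.nd (nat_lit 2232594) (.lf (nat_lit 257)) (.lf (nat_lit 258)))))) (.nd (nat_lit 2233104) (.nd (nat_lit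 2232849) (.nd (nat_lit 2232624) (.lf (nat_lit 259)) (.nd (nat_lit 2232834) (.lf (nat_lit 260)) (.lf (nat_lit 261)))) (.nd (nat_lit 2232864) (.lf (nat_lit 262)) (.nd (nat_lit 2233089) (.lf (nat_lit 263)) (.lf (nat_lit 264))))) (.nd (nat_lit 2236674) (.nd (nat_lit 2236434) (.lf (nat_lit 265)) (.nd (nat_lit 2236449) (.lf (nat_lit 266)) (.lf (nat_lit 267)))) (.nd (nat_lit 2236689) (.lf (nat_lit 268)) (.nd (nat_lit 2236704) (.lf (nat_lit 269)) (.lf (nat_lit 270))))))))) (.nd (nat_lit 3211314) (.nd (nat_lit 2298369) (.nd (nat_lit 2294034) (.nd (nat_lit 2240784) (.nd (nat_lit 2237184) (.nd (nat_lit 2236944) (.lf (nat_lit 271)) (.lf (nat_lit 272))) (.nd (nat_lit 2240529) (.lf (nat_lit 2000)) (.nd (nat_lit 2240769) (.lf (nat_lit 274)) (.lf (nat_lit 275))))) (.nd (nat_lit 2293794) (.nd (nat_lit 2241024) (.lf (nat_lit 276)) (.nd (nat_lit 2293779) (.lf (nat_lit 2000)) (.lf (nat_lit 2000)))) (.nd (nat_lit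 2293809) (.lf (nat_lit 2000)) (.nd (nat_lit 2294019) (.lf (nat_lit 2000)) (.lf (nat_lit 2000)))))) (.nd (nat_lit 2297874) (.nd (nat_lit 2294274) (.nd (nat_lit 2294049) (.lf (nat_lit 282)) (.lf (nat_lit 283))) (.nd (nat_lit 2294289) (.lf (nat_lit 2000)) (.nd (nat_lit 2294529) (.lf (nat_lit 285)) (.lf (nat_lit 2000))))) (.nd (nat_lit 2298114) (.nd (nat_lit 2297889) (.lf (nat_lit 287)) (.nd (nat_lit 2297904) (.lf (nat_lit 288)) (.lf (nat_lit 2000)))) (.nd (nat_lit 2298129) (.lf (nat_lit 290)) (.nd (nat_lit 2298144) (.lf (nat_lit 291)) (.lf (nat_lit 292))))))) (.nd (nat_lit 3146289) (.nd (nat_lit 2302209) (.nd (nat_lit 2298624) (.nd (nat_lit 2298384) (.lf (nat_lit 293)) (.lf (nat_lit 294))) (.nd (nat_lit 2301969) (.lf (nat_lit 2000)) (.nd (nat_lit 2301984) (.lf (nat_lit 296)) (.lf (nat_lit 2000))))) (.nd (nat_lit 2306064) (.nd (nat_lit 2302224) (.lf (nat_lit 298)) (.nd (nat_lit 2302464) (.lf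 (nat_lit 299)) (.lf (nat_lit 2000)))) (.nd (nat_lit 2306304) (.lf (nat_lit 2000)) (.nd (nat_lit 3146034) (.lf (nat_lit 2000)) (.lf (nat_lit 2000)))))) (.nd (nat_lit 3154194) (.nd (nat_lit 3150369) (.nd (nat_lit 3149859) (.lf (nat_lit 2000)) (.nd (nat_lit 3150114) (.lf (nat_lit 2000)) (.lf (nat_lit 306)))) (.nd (nat_lit 3150624) (.lf (nat_lit 307)) (.nd (nat_lit 3153939) (.lf (nat_lit 2000)) (.lf (nat_lit 2000))))) (.nd (nat_lit 3158274) (.nd (nat_lit 3154449) (.lf (nat_lit 310)) (.nd (nat_lit 3154704) (.lf (nat_lit 311)) (.lf (nat_lit 2000)))) (.nd (nat_lit 3158529) (.lf (nat_lit 2000)) (.nd (nat_lit 3211299) (.lf (nat_lit 2000)) (.lf (nat_lit 2000)))))))) (.nd (nat_lit 3276819) (.nd (nat_lit 3215904) (.nd (nat_lit 3212064) (.nd (nat_lit 3211569) (.nd (nat_lit 3211554) (.lf (nat_lit 2000)) (.lf (nat_lit 317))) (.nd (nat_lit 3211809) (.lf (nat_lit 2000)) (.nd (nat_lit 3211824) (.lf (nat_lit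 319)) (.lf (nat_lit 2000))))) (.nd (nat_lit 3215634) (.nd (nat_lit 3215379) (.lf (nat_lit 2000)) (.nd (nat_lit 3215394) (.lf (nat_lit 2000)) (.lf (nat_lit 323)))) (.nd (nat_lit 3215649) (.lf (nat_lit 324)) (.nd (nat_lit 3215889) (.lf (nat_lit 325)) (.lf (nat_lit 326)))))) (.nd (nat_lit 3219969) (.nd (nat_lit 3219474) (.nd (nat_lit 3216144) (.lf (nat_lit 327)) (.nd (nat_lit 3219459) (.lf (nat_lit 2000)) (.lf (nat_lit 2000)))) (.nd (nat_lit 3219714) (.lf (nat_lit 330)) (.nd (nat_lit 3219729) (.lf (nat_lit 331)) (.lf (nat_lit 332))))) (.nd (nat_lit 3223554) (.nd (nat_lit 3219984) (.lf (nat_lit 333)) (.nd (nat_lit 3220224) (.lf (nat_lit 334)) (.lf (nat_lit 2000)))) (.nd (nat_lit 3223809) (.lf (nat_lit 2000)) (.nd (nat_lit 3224064) (.lf (nat_lit 2000)) (.lf (nat_lit 2000))))))) (.nd (nat_lit 3280929) (.nd (nat_lit 3277104) (.nd (nat_lit 3276849) (.nd (nat_lit 3276834) (.lf (nat_lit 2000)) (.lf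 (nat_lit 2000))) (.nd (nat_lit 3277074) (.lf (nat_lit 2000)) (.nd (nat_lit 3277089) (.lf (nat_lit 342)) (.lf (nat_lit 343))))) (.nd (nat_lit 3277584) (.nd (nat_lit 3277329) (.lf (nat_lit 2000)) (.nd (nat_lit 3277344) (.lf (nat_lit 345)) (.lf (nat_lit 2000)))) (.nd (nat_lit 3280899) (.lf (nat_lit 2000)) (.nd (nat_lit 3280914) (.lf (nat_lit 2000)) (.lf (nat_lit 349)))))) (.nd (nat_lit 3281664) (.nd (nat_lit 3281184) (.nd (nat_lit 3281154) (.lf (nat_lit 350)) (.nd (nat_lit 3281169) (.lf (nat_lit 351)) (.lf (nat_lit 352)))) (.nd (nat_lit 3281409) (.lf (nat_lit 353)) (.nd (nat_lit 3281424) (.lf (nat_lit 354)) (.lf (nat_lit 355))))) (.nd (nat_lit 3285249) (.nd (nat_lit 3284994) (.lf (nat_lit 2000)) (.nd (nat_lit 3285009) (.lf (nat_lit 2000)) (.lf (nat_lit 358)))) (.nd (nat_lit 3285264) (.lf (nat_lit 359)) (.nd (nat_lit 3285504) (.lf (nat_lit 360)) (.lf (nat_lit 2000))))))))))) (.nd (nat_lit 17896224)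 (.nd (nat_lit 16913169) (.nd (nat_lit 16843539) (.nd (nat_lit 16782099) (.nd (nat_lit 3346464) (.nd (nat_lit 3342609) (.nd (nat_lit 3342354) (.nd (nat_lit 3289344) (.lf (nat_lit 2000)) (.lf (nat_lit 2000))) (.nd (nat_lit 3342369) (.lf (nat_lit 2000)) (.nd (nat_lit 3342594) (.lf (nat_lit 2000)) (.lf (nat_lit 2000))))) (.nd (nat_lit 3342864) (.nd (nat_lit 3342624) (.lf (nat_lit 2000)) (.nd (nat_lit 3342849) (.lf (nat_lit 2000)) (.lf (nat_lit 2000)))) (.nd (nat_lit 3346434) (.lf (nat_lit 2000)) (.nd (nat_lit 3346449) (.lf (nat_lit 2000)) (.lf (nat_lit 2000)))))) (.nd (nat_lit 3350544) (.nd (nat_lit 3346704) (.nd (nat_lit 3346689) (.lf (nat_lit 2000)) (.lf (nat_lit 2000))) (.nd (nat_lit 3346944) (.lf (nat_lit 2000)) (.nd (nat_lit 3350529) (.lf (nat_lit 2000)) (.lf (nat_lit 2000))))) (.nd (nat_lit 16778034) (.nd (nat_lit 3350784) (.lf (nat_lit 2000)) (.nd (nat_lit 16778019) (.lf (nat_lit 2000))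 (.lf (nat_lit 2000)))) (.nd (nat_lit 16781859) (.lf (nat_lit 2000)) (.nd (nat_lit 16781874) (.lf (nat_lit 382)) (.lf (nat_lit 383))))))) (.nd (nat_lit 16786224) (.nd (nat_lit 16785939) (.nd (nat_lit 16782129) (.nd (nat_lit 16782114) (.lf (nat_lit 2000)) (.lf (nat_lit 385))) (.nd (nat_lit 16785699) (.lf (nat_lit 2000)) (.nd (nat_lit 16785714) (.lf (nat_lit 387)) (.lf (nat_lit 388))))) (.nd (nat_lit 16786179) (.nd (nat_lit 16785954) (.lf (nat_lit 389)) (.nd (nat_lit 16785969) (.lf (nat_lit 390)) (.lf (nat_lit 391)))) (.nd (nat_lit 16786194) (.lf (nat_lit 2000)) (.nd (nat_lit 16786209) (.lf (nat_lit 393)) (.lf (nat_lit 394)))))) (.nd (nat_lit 16790019) (.nd (nat_lit 16789779) (.nd (nat_lit 16789539) (.lf (nat_lit 2000)) (.nd (nat_lit 16789554) (.lf (nat_lit 2000)) (.lf (nat_lit 2000)))) (.nd (nat_lit 16789794) (.lf (nat_lit 2000)) (.nd (nat_lit 16789809) (.lf (nat_lit 399)) (.lf (nat_lit 2000)))))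 (.nd (nat_lit 16790064) (.nd (nat_lit 16790034) (.lf (nat_lit 2000)) (.nd (nat_lit 16790049) (.lf (nat_lit 402)) (.lf (nat_lit 403)))) (.nd (nat_lit 16843299) (.lf (nat_lit 2000)) (.nd (nat_lit 16843314) (.lf (nat_lit 405)) (.lf (nat_lit 406)))))))) (.nd (nat_lit 16855074) (.nd (nat_lit 16850994) (.nd (nat_lit 16847394) (.nd (nat_lit 16847139) (.nd (nat_lit 16843554) (.lf (nat_lit 2000)) (.lf (nat_lit 408))) (.nd (nat_lit 16847154) (.lf (nat_lit 409)) (.nd (nat_lit 16847379) (.lf (nat_lit 410)) (.lf (nat_lit 411))))) (.nd (nat_lit 16847634) (.nd (nat_lit 16847409) (.lf (nat_lit 412)) (.nd (nat_lit 16847619) (.lf (nat_lit 413)) (.lf (nat_lit 2000)))) (.nd (nat_lit 16847649) (.lf (nat_lit 415)) (.nd (nat_lit 16850979) (.lf (nat_lit 416)) (.lf (nat_lit 417)))))) (.nd (nat_lit 16851474) (.nd (nat_lit 16851234) (.nd (nat_lit 16851219) (.lf (nat_lit 418)) (.lf (nat_lit 419))) (.nd (nat_lit 16851249)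 (.lf (nat_lit 420)) (.nd (nat_lit 16851459) (.lf (nat_lit 421)) (.lf (nat_lit 422))))) (.nd (nat_lit 16851714) (.nd (nat_lit 16851489) (.lf (nat_lit 423)) (.nd (nat_lit 16851504) (.lf (nat_lit 424)) (.lf (nat_lit 425)))) (.nd (nat_lit 16851729) (.lf (nat_lit 426)) (.nd (nat_lit 16851744) (.lf (nat_lit 427)) (.lf (nat_lit 428))))))) (.nd (nat_lit 16908834) (.nd (nat_lit 16855554) (.nd (nat_lit 16855314) (.nd (nat_lit 16855089) (.lf (nat_lit 429)) (.lf (nat_lit 2000))) (.nd (nat_lit 16855329) (.lf (nat_lit 431)) (.nd (nat_lit 16855344) (.lf (nat_lit 432)) (.lf (nat_lit 2000))))) (.nd (nat_lit 16908579) (.nd (nat_lit 16855569) (.lf (nat_lit 434)) (.nd (nat_lit 16855584) (.lf (nat_lit 435)) (.lf (nat_lit 436)))) (.nd (nat_lit 16908594) (.lf (nat_lit 437)) (.nd (nat_lit 16908819) (.lf (nat_lit 438)) (.lf (nat_lit 439)))))) (.nd (nat_lit 16912674) (.nd (nat_lit 16912419) (.nd (nat_lit 16909059)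 (.lf (nat_lit 440)) (.nd (nat_lit 16909074) (.lf (nat_lit 2000)) (.lf (nat_lit 442)))) (.nd (nat_lit 16912434) (.lf (nat_lit 443)) (.nd (nat_lit 16912659) (.lf (nat_lit 444)) (.lf (nat_lit 445))))) (.nd (nat_lit 16912914) (.nd (nat_lit 16912689) (.lf (nat_lit 446)) (.nd (nat_lit 16912899) (.lf (nat_lit 447)) (.lf (nat_lit 448)))) (.nd (nat_lit 16912929) (.lf (nat_lit 449)) (.nd (nat_lit 16913154) (.lf (nat_lit 450)) (.lf (nat_lit 451))))))))) (.nd (nat_lit 17830179) (.nd (nat_lit 16974354) (.nd (nat_lit 16920609) (.nd (nat_lit 16916784) (.nd (nat_lit 16916529) (.nd (nat_lit 16916514) (.lf (nat_lit 452)) (.lf (nat_lit 453))) (.nd (nat_lit 16916754) (.lf (nat_lit 454)) (.nd (nat_lit 16916769) (.lf (nat_lit 455)) (.lf (nat_lit 456))))) (.nd (nat_lit 16917024) (.nd (nat_lit 16916994) (.lf (nat_lit 457)) (.nd (nat_lit 16917009) (.lf (nat_lit 458)) (.lf (nat_lit 459)))) (.nd (nat_lit 16917249)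 (.lf (nat_lit 460)) (.nd (nat_lit 16917264) (.lf (nat_lit 461)) (.lf (nat_lit 462)))))) (.nd (nat_lit 16921104) (.nd (nat_lit 16920849) (.nd (nat_lit 16920624) (.lf (nat_lit 463)) (.lf (nat_lit 2000))) (.nd (nat_lit 16920864) (.lf (nat_lit 465)) (.nd (nat_lit 16921089) (.lf (nat_lit 466)) (.lf (nat_lit 467))))) (.nd (nat_lit 16974099) (.nd (nat_lit 16973859) (.lf (nat_lit 468)) (.nd (nat_lit 16973874) (.lf (nat_lit 2000)) (.lf (nat_lit 2000)))) (.nd (nat_lit 16974114) (.lf (nat_lit 2000)) (.nd (nat_lit 16974339) (.lf (nat_lit 472)) (.lf (nat_lit 2000))))))) (.nd (nat_lit 16982289) (.nd (nat_lit 16978209) (.nd (nat_lit 16977954) (.nd (nat_lit 16974594) (.lf (nat_lit 474)) (.lf (nat_lit 2000))) (.nd (nat_lit 16977969) (.lf (nat_lit 476)) (.nd (nat_lit 16978194) (.lf (nat_lit 2000)) (.lf (nat_lit 478))))) (.nd (nat_lit 16978689) (.nd (nat_lit 16978434) (.lf (nat_lit 479)) (.nd (nat_lit 16978449)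 (.lf (nat_lit 480)) (.lf (nat_lit 481)))) (.nd (nat_lit 16982049) (.lf (nat_lit 2000)) (.nd (nat_lit 16982064) (.lf (nat_lit 483)) (.lf (nat_lit 2000)))))) (.nd (nat_lit 16986384) (.nd (nat_lit 16982544) (.nd (nat_lit 16982304) (.lf (nat_lit 485)) (.nd (nat_lit 16982529) (.lf (nat_lit 486)) (.lf (nat_lit 487)))) (.nd (nat_lit 16982784) (.lf (nat_lit 488)) (.nd (nat_lit 16986144) (.lf (nat_lit 2000)) (.lf (nat_lit 2000))))) (.nd (nat_lit 17826354) (.nd (nat_lit 16986624) (.lf (nat_lit 2000)) (.nd (nat_lit 17826339) (.lf (nat_lit 2000)) (.lf (nat_lit 493)))) (.nd (nat_lit 17826594) (.lf (nat_lit 494)) (.nd (nat_lit 17826609) (.lf (nat_lit 495)) (.lf (nat_lit 2000)))))))) (.nd (nat_lit 17838354) (.nd (nat_lit 17834274) (.nd (nat_lit 17830674) (.nd (nat_lit 17830419) (.nd (nat_lit 17830194) (.lf (nat_lit 497)) (.lf (nat_lit 498))) (.nd (nat_lit 17830434) (.lf (nat_lit 499)) (.nd (nat_lit 17830449)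 (.lf (nat_lit 500)) (.lf (nat_lit 501))))) (.nd (nat_lit 17834019) (.nd (nat_lit 17830689) (.lf (nat_lit 502)) (.nd (nat_lit 17830704) (.lf (nat_lit 503)) (.lf (nat_lit 2000)))) (.nd (nat_lit 17834034) (.lf (nat_lit 505)) (.nd (nat_lit 17834259) (.lf (nat_lit 506)) (.lf (nat_lit 507)))))) (.nd (nat_lit 17834754) (.nd (nat_lit 17834514) (.nd (nat_lit 17834289) (.lf (nat_lit 508)) (.nd (nat_lit 17834499) (.lf (nat_lit 509)) (.lf (nat_lit 510)))) (.nd (nat_lit 17834529) (.lf (nat_lit 511)) (.nd (nat_lit 17834544) (.lf (nat_lit 512)) (.lf (nat_lit 513))))) (.nd (nat_lit 17838099) (.nd (nat_lit 17834769) (.lf (nat_lit 514)) (.nd (nat_lit 17834784) (.lf (nat_lit 515)) (.lf (nat_lit 516)))) (.nd (nat_lit 17838114) (.lf (nat_lit 2000)) (.nd (nat_lit 17838339) (.lf (nat_lit 518)) (.lf (nat_lit 2000))))))) (.nd (nat_lit 17892129) (.nd (nat_lit 17891619) (.nd (nat_lit 17838594) (.nd (nat_lit 17838369)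 (.lf (nat_lit 520)) (.lf (nat_lit 521))) (.nd (nat_lit 17838609) (.lf (nat_lit 522)) (.nd (nat_lit 17838624) (.lf (nat_lit 523)) (.lf (nat_lit 524))))) (.nd (nat_lit 17891874) (.nd (nat_lit 17891634) (.lf (nat_lit 525)) (.nd (nat_lit 17891859) (.lf (nat_lit 526)) (.lf (nat_lit 527)))) (.nd (nat_lit 17891889) (.lf (nat_lit 528)) (.nd (nat_lit 17892114) (.lf (nat_lit 529)) (.lf (nat_lit 530)))))) (.nd (nat_lit 17895939) (.nd (nat_lit 17895699) (.nd (nat_lit 17895459) (.lf (nat_lit 531)) (.nd (nat_lit 17895474) (.lf (nat_lit 532)) (.lf (nat_lit 533)))) (.nd (nat_lit 17895714) (.lf (nat_lit 534)) (.nd (nat_lit 17895729) (.lf (nat_lit 535)) (.lf (nat_lit 536))))) (.nd (nat_lit 17895984) (.nd (nat_lit 17895954) (.lf (nat_lit 537)) (.nd (nat_lit 17895969) (.lf (nat_lit 538)) (.lf (nat_lit 539)))) (.nd (nat_lit 17896194) (.lf (nat_lit 540)) (.nd (nat_lit 17896209) (.lf (nat_lit 541)) (.lf (nat_lit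 542)))))))))) (.nd (nat_lit 18878769) (.nd (nat_lit 17965314) (.nd (nat_lit 17957139) (.nd (nat_lit 17900289) (.nd (nat_lit 17899794) (.nd (nat_lit 17899554) (.nd (nat_lit 17899539) (.lf (nat_lit 543)) (.lf (nat_lit 544))) (.nd (nat_lit 17899569) (.lf (nat_lit 545)) (.nd (nat_lit 17899779) (.lf (nat_lit 546)) (.lf (nat_lit 547))))) (.nd (nat_lit 17900034) (.nd (nat_lit 17899809) (.lf (nat_lit 548)) (.nd (nat_lit 17899824) (.lf (nat_lit 549)) (.lf (nat_lit 550)))) (.nd (nat_lit 17900049) (.lf (nat_lit 551)) (.nd (nat_lit 17900064) (.lf (nat_lit 552)) (.lf (nat_lit 553)))))) (.nd (nat_lit 17903889) (.nd (nat_lit 17903634) (.nd (nat_lit 17900304) (.lf (nat_lit 554)) (.lf (nat_lit 555))) (.nd (nat_lit 17903649) (.lf (nat_lit 556)) (.nd (nat_lit 17903874) (.lf (nat_lit 557)) (.lf (nat_lit 558))))) (.nd (nat_lit 17904144) (.nd (nat_lit 17903904) (.lf (nat_lit 559)) (.nd (nat_lit 17904129) (.lf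 (nat_lit 560)) (.lf (nat_lit 561)))) (.nd (nat_lit 17956899) (.lf (nat_lit 562)) (.nd (nat_lit 17956914) (.lf (nat_lit 563)) (.lf (nat_lit 564))))))) (.nd (nat_lit 17961219) (.nd (nat_lit 17957409) (.nd (nat_lit 17957169) (.nd (nat_lit 17957154) (.lf (nat_lit 565)) (.lf (nat_lit 566))) (.nd (nat_lit 17957379) (.lf (nat_lit 567)) (.nd (nat_lit 17957394) (.lf (nat_lit 568)) (.lf (nat_lit 569))))) (.nd (nat_lit 17960979) (.nd (nat_lit 17957634) (.lf (nat_lit 570)) (.nd (nat_lit 17957649) (.lf (nat_lit 571)) (.lf (nat_lit 572)))) (.nd (nat_lit 17960994) (.lf (nat_lit 573)) (.nd (nat_lit 17961009) (.lf (nat_lit 574)) (.lf (nat_lit 575)))))) (.nd (nat_lit 17961504) (.nd (nat_lit 17961264) (.nd (nat_lit 17961234) (.lf (nat_lit 576)) (.nd (nat_lit 17961249) (.lf (nat_lit 577)) (.lf (nat_lit 578)))) (.nd (nat_lit 17961474) (.lf (nat_lit 579)) (.nd (nat_lit 17961489) (.lf (nat_lit 580)) (.lf (nat_lit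 581))))) (.nd (nat_lit 17965074) (.nd (nat_lit 17961729) (.lf (nat_lit 582)) (.nd (nat_lit 17961744) (.lf (nat_lit 583)) (.lf (nat_lit 584)))) (.nd (nat_lit 17965089) (.lf (nat_lit 585)) (.nd (nat_lit 17965104) (.lf (nat_lit 586)) (.lf (nat_lit 587)))))))) (.nd (nat_lit 18026754) (.nd (nat_lit 18022419) (.nd (nat_lit 17965824) (.nd (nat_lit 17965344) (.nd (nat_lit 17965329) (.lf (nat_lit 588)) (.lf (nat_lit 589))) (.nd (nat_lit 17965569) (.lf (nat_lit 590)) (.nd (nat_lit 17965584) (.lf (nat_lit 591)) (.lf (nat_lit 592))))) (.nd (nat_lit 17969409) (.nd (nat_lit 17969169) (.lf (nat_lit 593)) (.nd (nat_lit 17969184) (.lf (nat_lit 594)) (.lf (nat_lit 595)))) (.nd (nat_lit 17969424) (.lf (nat_lit 596)) (.nd (nat_lit 17969664) (.lf (nat_lit 597)) (.lf (nat_lit 598)))))) (.nd (nat_lit 18022914) (.nd (nat_lit 18022659) (.nd (nat_lit 18022434) (.lf (nat_lit 2000)) (.nd (nat_lit 18022449) (.lf (nat_lit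 600)) (.lf (nat_lit 2000)))) (.nd (nat_lit 18022674) (.lf (nat_lit 2000)) (.nd (nat_lit 18022689) (.lf (nat_lit 603)) (.lf (nat_lit 604))))) (.nd (nat_lit 18026514) (.nd (nat_lit 18022929) (.lf (nat_lit 605)) (.nd (nat_lit 18023169) (.lf (nat_lit 606)) (.lf (nat_lit 2000)))) (.nd (nat_lit 18026529) (.lf (nat_lit 608)) (.nd (nat_lit 18026544) (.lf (nat_lit 609)) (.lf (nat_lit 2000))))))) (.nd (nat_lit 18034704) (.nd (nat_lit 18027264) (.nd (nat_lit 18026784) (.nd (nat_lit 18026769) (.lf (nat_lit 611)) (.lf (nat_lit 612))) (.nd (nat_lit 18027009) (.lf (nat_lit 613)) (.nd (nat_lit 18027024) (.lf (nat_lit 614)) (.lf (nat_lit 615))))) (.nd (nat_lit 18030849) (.nd (nat_lit 18030609) (.lf (nat_lit 2000)) (.nd (nat_lit 18030624) (.lf (nat_lit 617)) (.lf (nat_lit 618)))) (.nd (nat_lit 18030864) (.lf (nat_lit 619)) (.nd (nat_lit 18031104) (.lf (nat_lit 620)) (.lf (nat_lit 621)))))) (.nd (nat_lit 18875169)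 (.nd (nat_lit 18874674) (.nd (nat_lit 18034944) (.lf (nat_lit 2000)) (.nd (nat_lit 18874659) (.lf (nat_lit 2000)) (.lf (nat_lit 624)))) (.nd (nat_lit 18874914) (.lf (nat_lit 625)) (.nd (nat_lit 18874929) (.lf (nat_lit 626)) (.lf (nat_lit 627))))) (.nd (nat_lit 18878514) (.nd (nat_lit 18875184) (.lf (nat_lit 628)) (.nd (nat_lit 18878499) (.lf (nat_lit 2000)) (.lf (nat_lit 630)))) (.nd (nat_lit 18878739) (.lf (nat_lit 631)) (.nd (nat_lit 18878754) (.lf (nat_lit 632)) (.lf (nat_lit 633))))))))) (.nd (nat_lit 18948114) (.nd (nat_lit 18939939) (.nd (nat_lit 18883074) (.nd (nat_lit 18879264) (.nd (nat_lit 18879009) (.nd (nat_lit 18878994) (.lf (nat_lit 634)) (.lf (nat_lit 635))) (.nd (nat_lit 18879024) (.lf (nat_lit 636)) (.nd (nat_lit 18879249) (.lf (nat_lit 637)) (.lf (nat_lit 638))))) (.nd (nat_lit 18882819) (.nd (nat_lit 18882579) (.lf (nat_lit 639)) (.nd (nat_lit 18882594) (.lf (nat_lit 640))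 (.lf (nat_lit 641)))) (.nd (nat_lit 18882834) (.lf (nat_lit 642)) (.nd (nat_lit 18882849) (.lf (nat_lit 643)) (.lf (nat_lit 644)))))) (.nd (nat_lit 18886659) (.nd (nat_lit 18883104) (.nd (nat_lit 18883089) (.lf (nat_lit 645)) (.lf (nat_lit 646))) (.nd (nat_lit 18883329) (.lf (nat_lit 647)) (.nd (nat_lit 18883344) (.lf (nat_lit 648)) (.lf (nat_lit 649))))) (.nd (nat_lit 18886929) (.nd (nat_lit 18886674) (.lf (nat_lit 2000)) (.nd (nat_lit 18886914) (.lf (nat_lit 651)) (.lf (nat_lit 652)))) (.nd (nat_lit 18887169) (.lf (nat_lit 653)) (.nd (nat_lit 18887184) (.lf (nat_lit 654)) (.lf (nat_lit 655))))))) (.nd (nat_lit 18944034) (.nd (nat_lit 18940434) (.nd (nat_lit 18940179) (.nd (nat_lit 18939954) (.lf (nat_lit 656)) (.lf (nat_lit 657))) (.nd (nat_lit 18940194) (.lf (nat_lit 658)) (.nd (nat_lit 18940209) (.lf (nat_lit 659)) (.lf (nat_lit 660))))) (.nd (nat_lit 18940689) (.nd (nat_lit 18940449)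 (.lf (nat_lit 661)) (.nd (nat_lit 18940464) (.lf (nat_lit 662)) (.lf (nat_lit 663)))) (.nd (nat_lit 18940704) (.lf (nat_lit 664)) (.nd (nat_lit 18944019) (.lf (nat_lit 665)) (.lf (nat_lit 666)))))) (.nd (nat_lit 18944514) (.nd (nat_lit 18944274) (.nd (nat_lit 18944049) (.lf (nat_lit 667)) (.nd (nat_lit 18944259) (.lf (nat_lit 668)) (.lf (nat_lit 669)))) (.nd (nat_lit 18944289) (.lf (nat_lit 670)) (.nd (nat_lit 18944304) (.lf (nat_lit 671)) (.lf (nat_lit 672))))) (.nd (nat_lit 18944769) (.nd (nat_lit 18944529) (.lf (nat_lit 673)) (.nd (nat_lit 18944544) (.lf (nat_lit 674)) (.lf (nat_lit 675)))) (.nd (nat_lit 18944784) (.lf (nat_lit 676)) (.nd (nat_lit 18948099) (.lf (nat_lit 677)) (.lf (nat_lit 678)))))))) (.nd (nat_lit 19006209) (.nd (nat_lit 18952464) (.nd (nat_lit 18948609) (.nd (nat_lit 18948354) (.nd (nat_lit 18948129) (.lf (nat_lit 679)) (.lf (nat_lit 680))) (.nd (nat_lit 18948369) (.lf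 (nat_lit 681)) (.nd (nat_lit 18948384) (.lf (nat_lit 682)) (.lf (nat_lit 683))))) (.nd (nat_lit 18952194) (.nd (nat_lit 18948624) (.lf (nat_lit 684)) (.nd (nat_lit 18948864) (.lf (nat_lit 685)) (.lf (nat_lit 686)))) (.nd (nat_lit 18952209) (.lf (nat_lit 687)) (.nd (nat_lit 18952449) (.lf (nat_lit 688)) (.lf (nat_lit 689)))))) (.nd (nat_lit 19005714) (.nd (nat_lit 19005474) (.nd (nat_lit 18952704) (.lf (nat_lit 690)) (.nd (nat_lit 19005459) (.lf (nat_lit 691)) (.lf (nat_lit 692)))) (.nd (nat_lit 19005489) (.lf (nat_lit 693)) (.nd (nat_lit 19005699) (.lf (nat_lit 694)) (.lf (nat_lit 695))))) (.nd (nat_lit 19005954) (.nd (nat_lit 19005729) (.lf (nat_lit 696)) (.nd (nat_lit 19005744) (.lf (nat_lit 697)) (.lf (nat_lit 698)))) (.nd (nat_lit 19005969) (.lf (nat_lit 699)) (.nd (nat_lit 19005984) (.lf (nat_lit 700)) (.lf (nat_lit 701))))))) (.nd (nat_lit 19010304) (.nd (nat_lit 19009584) (.nd (nat_lit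 19009539) (.nd (nat_lit 19006224) (.lf (nat_lit 702)) (.lf (nat_lit 703))) (.nd (nat_lit 19009554) (.lf (nat_lit 704)) (.nd (nat_lit 19009569) (.lf (nat_lit 705)) (.lf (nat_lit 706))))) (.nd (nat_lit 19009824) (.nd (nat_lit 19009794) (.lf (nat_lit 707)) (.nd (nat_lit 19009809) (.lf (nat_lit 708)) (.lf (nat_lit 709)))) (.nd (nat_lit 19010049) (.lf (nat_lit 710)) (.nd (nat_lit 19010064) (.lf (nat_lit 711)) (.lf (nat_lit 712)))))) (.nd (nat_lit 19014144) (.nd (nat_lit 19013664) (.nd (nat_lit 19013634) (.lf (nat_lit 713)) (.nd (nat_lit 19013649) (.lf (nat_lit 714)) (.lf (nat_lit 715)))) (.nd (nat_lit 19013889) (.lf (nat_lit 716)) (.nd (nat_lit 19013904) (.lf (nat_lit 717)) (.lf (nat_lit 718))))) (.nd (nat_lit 19017984) (.nd (nat_lit 19017729) (.lf (nat_lit 719)) (.nd (nat_lit 19017744) (.lf (nat_lit 720)) (.lf (nat_lit 721)))) (.nd (nat_lit 19070979) (.lf (nat_lit 722)) (.nd (nat_lit 19070994)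 (.lf (nat_lit 2000)) (.lf (nat_lit 724)))))))))))) (.nd (nat_lit 35717169) (.nd (nat_lit 33697809) (.nd (nat_lit 20119809) (.nd (nat_lit 19988754) (.nd (nat_lit 19923489) (.nd (nat_lit 19075329) (.nd (nat_lit 19071489) (.nd (nat_lit 19071234) (.nd (nat_lit 19071024) (.lf (nat_lit 725)) (.lf (nat_lit 2000))) (.nd (nat_lit 19071249) (.lf (nat_lit 727)) (.nd (nat_lit 19071264) (.lf (nat_lit 728)) (.lf (nat_lit 729))))) (.nd (nat_lit 19075074) (.nd (nat_lit 19071504) (.lf (nat_lit 730)) (.nd (nat_lit 19071744) (.lf (nat_lit 731)) (.lf (nat_lit 2000)))) (.nd (nat_lit 19075089) (.lf (nat_lit 733)) (.nd (nat_lit 19075104) (.lf (nat_lit 734)) (.lf (nat_lit 735)))))) (.nd (nat_lit 19079424) (.nd (nat_lit 19075584) (.nd (nat_lit 19075344) (.lf (nat_lit 736)) (.lf (nat_lit 737))) (.nd (nat_lit 19079169) (.lf (nat_lit 738)) (.nd (nat_lit 19079184) (.lf (nat_lit 739)) (.lf (nat_lit 740))))) (.nd (nat_lit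 19922994) (.nd (nat_lit 19083264) (.lf (nat_lit 741)) (.nd (nat_lit 19922979) (.lf (nat_lit 2000)) (.lf (nat_lit 2000)))) (.nd (nat_lit 19923234) (.lf (nat_lit 2000)) (.nd (nat_lit 19923249) (.lf (nat_lit 745)) (.lf (nat_lit 2000))))))) (.nd (nat_lit 19931154) (.nd (nat_lit 19927314) (.nd (nat_lit 19923744) (.nd (nat_lit 19923504) (.lf (nat_lit 747)) (.lf (nat_lit 2000))) (.nd (nat_lit 19927059) (.lf (nat_lit 2000)) (.nd (nat_lit 19927074) (.lf (nat_lit 2000)) (.lf (nat_lit 751))))) (.nd (nat_lit 19927584) (.nd (nat_lit 19927329) (.lf (nat_lit 752)) (.nd (nat_lit 19927569) (.lf (nat_lit 753)) (.lf (nat_lit 754)))) (.nd (nat_lit 19927824) (.lf (nat_lit 755)) (.nd (nat_lit 19931139) (.lf (nat_lit 2000)) (.lf (nat_lit 2000)))))) (.nd (nat_lit 19935234) (.nd (nat_lit 19931649) (.nd (nat_lit 19931394) (.lf (nat_lit 758)) (.nd (nat_lit 19931409) (.lf (nat_lit 759)) (.lf (nat_lit 760)))) (.nd (nat_lit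 19931664) (.lf (nat_lit 761)) (.nd (nat_lit 19931904) (.lf (nat_lit 762)) (.lf (nat_lit 2000))))) (.nd (nat_lit 19988499) (.nd (nat_lit 19935489) (.lf (nat_lit 2000)) (.nd (nat_lit 19935744) (.lf (nat_lit 2000)) (.lf (nat_lit 2000)))) (.nd (nat_lit 19988514) (.lf (nat_lit 2000)) (.nd (nat_lit 19988529) (.lf (nat_lit 768)) (.lf (nat_lit 2000)))))))) (.nd (nat_lit 20054019) (.nd (nat_lit 19992864) (.nd (nat_lit 19989264) (.nd (nat_lit 19988784) (.nd (nat_lit 19988769) (.lf (nat_lit 770)) (.lf (nat_lit 771))) (.nd (nat_lit 19989009) (.lf (nat_lit 2000)) (.nd (nat_lit 19989024) (.lf (nat_lit 773)) (.lf (nat_lit 774))))) (.nd (nat_lit 19992609) (.nd (nat_lit 19992579) (.lf (nat_lit 2000)) (.nd (nat_lit 19992594) (.lf (nat_lit 2000)) (.lf (nat_lit 777)))) (.nd (nat_lit 19992834) (.lf (nat_lit 778)) (.nd (nat_lit 19992849) (.lf (nat_lit 779)) (.lf (nat_lit 780)))))) (.nd (nat_lit 19996689) (.nd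 (nat_lit 19993104) (.nd (nat_lit 19993089) (.lf (nat_lit 781)) (.lf (nat_lit 782))) (.nd (nat_lit 19993344) (.lf (nat_lit 783)) (.nd (nat_lit 19996674) (.lf (nat_lit 2000)) (.lf (nat_lit 785))))) (.nd (nat_lit 19997184) (.nd (nat_lit 19996929) (.lf (nat_lit 786)) (.nd (nat_lit 19996944) (.lf (nat_lit 787)) (.lf (nat_lit 788)))) (.nd (nat_lit 20000769) (.lf (nat_lit 789)) (.nd (nat_lit 20001024) (.lf (nat_lit 2000)) (.lf (nat_lit 2000))))))) (.nd (nat_lit 20058129) (.nd (nat_lit 20054289) (.nd (nat_lit 20054049) (.nd (nat_lit 20054034) (.lf (nat_lit 2000)) (.lf (nat_lit 793))) (.nd (nat_lit 20054064) (.lf (nat_lit 794)) (.nd (nat_lit 20054274) (.lf (nat_lit 2000)) (.lf (nat_lit 796))))) (.nd (nat_lit 20054544) (.nd (nat_lit 20054304) (.lf (nat_lit 797)) (.nd (nat_lit 20054529) (.lf (nat_lit 798)) (.lf (nat_lit 799)))) (.nd (nat_lit 20054784) (.lf (nat_lit 800)) (.nd (nat_lit 20058114) (.lf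 (nat_lit 2000)) (.lf (nat_lit 802)))))) (.nd (nat_lit 20062224) (.nd (nat_lit 20058384) (.nd (nat_lit 20058144) (.lf (nat_lit 803)) (.nd (nat_lit 20058369) (.lf (nat_lit 804)) (.lf (nat_lit 805)))) (.nd (nat_lit 20058624) (.lf (nat_lit 806)) (.nd (nat_lit 20062209) (.lf (nat_lit 807)) (.lf (nat_lit 808))))) (.nd (nat_lit 20119554) (.nd (nat_lit 20062464) (.lf (nat_lit 809)) (.nd (nat_lit 20066304) (.lf (nat_lit 810)) (.lf (nat_lit 2000)))) (.nd (nat_lit 20119569) (.lf (nat_lit 2000)) (.nd (nat_lit 20119584) (.lf (nat_lit 2000)) (.lf (nat_lit 2000))))))))) (.nd (nat_lit 33624849) (.nd (nat_lit 33563169) (.nd (nat_lit 33559074) (.nd (nat_lit 20123904) (.nd (nat_lit 20120064) (.nd (nat_lit 20119824) (.lf (nat_lit 2000)) (.lf (nat_lit 2000))) (.nd (nat_lit 20123649) (.lf (nat_lit 2000)) (.nd (nat_lit 20123664) (.lf (nat_lit 2000)) (.lf (nat_lit 2000))))) (.nd (nat_lit 33555234) (.nd (nat_lit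 20127744) (.lf (nat_lit 2000)) (.nd (nat_lit 33555219) (.lf (nat_lit 2000)) (.lf (nat_lit 2000)))) (.nd (nat_lit 33555249) (.lf (nat_lit 2000)) (.nd (nat_lit 33559059) (.lf (nat_lit 2000)) (.lf (nat_lit 825)))))) (.nd (nat_lit 33559344) (.nd (nat_lit 33559299) (.nd (nat_lit 33559089) (.lf (nat_lit 826)) (.lf (nat_lit 827))) (.nd (nat_lit 33559314) (.lf (nat_lit 2000)) (.nd (nat_lit 33559329) (.lf (nat_lit 829)) (.lf (nat_lit 830))))) (.nd (nat_lit 33562929) (.nd (nat_lit 33562899) (.lf (nat_lit 2000)) (.nd (nat_lit 33562914) (.lf (nat_lit 832)) (.lf (nat_lit 833)))) (.nd (nat_lit 33563139) (.lf (nat_lit 834)) (.nd (nat_lit 33563154) (.lf (nat_lit 2000)) (.lf (nat_lit 836))))))) (.nd (nat_lit 33620529) (.nd (nat_lit 33566979) (.nd (nat_lit 33566739) (.nd (nat_lit 33563184) (.lf (nat_lit 837)) (.lf (nat_lit 2000))) (.nd (nat_lit 33566754) (.lf (nat_lit 2000)) (.nd (nat_lit 33566769) (.lf (nat_lit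 2000)) (.lf (nat_lit 2000))))) (.nd (nat_lit 33567024) (.nd (nat_lit 33566994) (.lf (nat_lit 2000)) (.nd (nat_lit 33567009) (.lf (nat_lit 843)) (.lf (nat_lit 844)))) (.nd (nat_lit 33620499) (.lf (nat_lit 2000)) (.nd (nat_lit 33620514) (.lf (nat_lit 846)) (.lf (nat_lit 847)))))) (.nd (nat_lit 33624369) (.nd (nat_lit 33620769) (.nd (nat_lit 33620739) (.lf (nat_lit 848)) (.nd (nat_lit 33620754) (.lf (nat_lit 2000)) (.lf (nat_lit 850)))) (.nd (nat_lit 33624339) (.lf (nat_lit 851)) (.nd (nat_lit 33624354) (.lf (nat_lit 852)) (.lf (nat_lit 853))))) (.nd (nat_lit 33624609) (.nd (nat_lit 33624579) (.lf (nat_lit 854)) (.nd (nat_lit 33624594) (.lf (nat_lit 855)) (.lf (nat_lit 856)))) (.nd (nat_lit 33624624) (.lf (nat_lit 857)) (.nd (nat_lit 33624834) (.lf (nat_lit 858)) (.lf (nat_lit 859)))))))) (.nd (nat_lit 33686049) (.nd (nat_lit 33628704) (.nd (nat_lit 33628419) (.nd (nat_lit 33628179) (.nd (nat_lit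 33624864) (.lf (nat_lit 860)) (.lf (nat_lit 861))) (.nd (nat_lit 33628194) (.lf (nat_lit 862)) (.nd (nat_lit 33628209) (.lf (nat_lit 863)) (.lf (nat_lit 864))))) (.nd (nat_lit 33628464) (.nd (nat_lit 33628434) (.lf (nat_lit 865)) (.nd (nat_lit 33628449) (.lf (nat_lit 866)) (.lf (nat_lit 867)))) (.nd (nat_lit 33628674) (.lf (nat_lit 868)) (.nd (nat_lit 33628689) (.lf (nat_lit 869)) (.lf (nat_lit 870)))))) (.nd (nat_lit 33632544) (.nd (nat_lit 33632304) (.nd (nat_lit 33632274) (.lf (nat_lit 871)) (.nd (nat_lit 33632289) (.lf (nat_lit 872)) (.lf (nat_lit 873)))) (.nd (nat_lit 33632514) (.lf (nat_lit 2000)) (.nd (nat_lit 33632529) (.lf (nat_lit 875)) (.lf (nat_lit 876))))) (.nd (nat_lit 33685809) (.nd (nat_lit 33685779) (.lf (nat_lit 877)) (.nd (nat_lit 33685794) (.lf (nat_lit 878)) (.lf (nat_lit 879)))) (.nd (nat_lit 33686019) (.lf (nat_lit 880)) (.nd (nat_lit 33686034) (.lf (nat_lit 2000))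 (.lf (nat_lit 882))))))) (.nd (nat_lit 33690129) (.nd (nat_lit 33689649) (.nd (nat_lit 33686289) (.nd (nat_lit 33686274) (.lf (nat_lit 883)) (.lf (nat_lit 2000))) (.nd (nat_lit 33689619) (.lf (nat_lit 885)) (.nd (nat_lit 33689634) (.lf (nat_lit 886)) (.lf (nat_lit 887))))) (.nd (nat_lit 33689889) (.nd (nat_lit 33689859) (.lf (nat_lit 888)) (.nd (nat_lit 33689874) (.lf (nat_lit 889)) (.lf (nat_lit 890)))) (.nd (nat_lit 33689904) (.lf (nat_lit 891)) (.nd (nat_lit 33690114) (.lf (nat_lit 892)) (.lf (nat_lit 893)))))) (.nd (nat_lit 33693744) (.nd (nat_lit 33690384) (.nd (nat_lit 33690144) (.lf (nat_lit 894)) (.nd (nat_lit 33690369) (.lf (nat_lit 895)) (.lf (nat_lit 896)))) (.nd (nat_lit 33693714) (.lf (nat_lit 897)) (.nd (nat_lit 33693729) (.lf (nat_lit 898)) (.lf (nat_lit 899))))) (.nd (nat_lit 33693984) (.nd (nat_lit 33693954) (.lf (nat_lit 2000)) (.nd (nat_lit 33693969) (.lf (nat_lit 901))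 (.lf (nat_lit 902)))) (.nd (nat_lit 33694209) (.lf (nat_lit 903)) (.nd (nat_lit 33694224) (.lf (nat_lit 904)) (.lf (nat_lit 905)))))))))) (.nd (nat_lit 34677264) (.nd (nat_lit 34611219) (.nd (nat_lit 33759249) (.nd (nat_lit 33751569) (.nd (nat_lit 33751074) (.nd (nat_lit 33698049) (.nd (nat_lit 33697824) (.lf (nat_lit 906)) (.lf (nat_lit 2000))) (.nd (nat_lit 33698064) (.lf (nat_lit 908)) (.nd (nat_lit 33751059) (.lf (nat_lit 909)) (.lf (nat_lit 2000))))) (.nd (nat_lit 33751314) (.nd (nat_lit 33751089) (.lf (nat_lit 2000)) (.nd (nat_lit 33751299) (.lf (nat_lit 2000)) (.lf (nat_lit 2000)))) (.nd (nat_lit 33751329) (.lf (nat_lit 914)) (.nd (nat_lit 33751554) (.lf (nat_lit 915)) (.lf (nat_lit 2000)))))) (.nd (nat_lit 33755394) (.nd (nat_lit 33755154) (.nd (nat_lit 33751809) (.lf (nat_lit 917)) (.lf (nat_lit 2000))) (.nd (nat_lit 33755169) (.lf (nat_lit 919)) (.nd (nat_lit 33755184) (.lf (nat_lit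 920)) (.lf (nat_lit 2000))))) (.nd (nat_lit 33755649) (.nd (nat_lit 33755409) (.lf (nat_lit 922)) (.nd (nat_lit 33755424) (.lf (nat_lit 923)) (.lf (nat_lit 924)))) (.nd (nat_lit 33755664) (.lf (nat_lit 925)) (.nd (nat_lit 33755904) (.lf (nat_lit 926)) (.lf (nat_lit 2000))))))) (.nd (nat_lit 34603809) (.nd (nat_lit 33763344) (.nd (nat_lit 33759489) (.nd (nat_lit 33759264) (.lf (nat_lit 928)) (.lf (nat_lit 2000))) (.nd (nat_lit 33759504) (.lf (nat_lit 930)) (.nd (nat_lit 33759744) (.lf (nat_lit 931)) (.lf (nat_lit 2000))))) (.nd (nat_lit 34603554) (.nd (nat_lit 33763584) (.lf (nat_lit 2000)) (.nd (nat_lit 34603539) (.lf (nat_lit 2000)) (.lf (nat_lit 935)))) (.nd (nat_lit 34603569) (.lf (nat_lit 936)) (.nd (nat_lit 34603794) (.lf (nat_lit 937)) (.lf (nat_lit 938)))))) (.nd (nat_lit 34607634) (.nd (nat_lit 34607394) (.nd (nat_lit 34603824) (.lf (nat_lit 939)) (.nd (nat_lit 34607379) (.lf (nat_lit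 2000)) (.lf (nat_lit 941)))) (.nd (nat_lit 34607409) (.lf (nat_lit 942)) (.nd (nat_lit 34607619) (.lf (nat_lit 943)) (.lf (nat_lit 944))))) (.nd (nat_lit 34607874) (.nd (nat_lit 34607649) (.lf (nat_lit 945)) (.nd (nat_lit 34607664) (.lf (nat_lit 946)) (.lf (nat_lit 947)))) (.nd (nat_lit 34607889) (.lf (nat_lit 948)) (.nd (nat_lit 34607904) (.lf (nat_lit 949)) (.lf (nat_lit 950)))))))) (.nd (nat_lit 34669314) (.nd (nat_lit 34615314) (.nd (nat_lit 34611489) (.nd (nat_lit 34611249) (.nd (nat_lit 34611234) (.lf (nat_lit 951)) (.lf (nat_lit 952))) (.nd (nat_lit 34611459) (.lf (nat_lit 953)) (.nd (nat_lit 34611474) (.lf (nat_lit 954)) (.lf (nat_lit 955))))) (.nd (nat_lit 34611729) (.nd (nat_lit 34611504) (.lf (nat_lit 956)) (.nd (nat_lit 34611714) (.lf (nat_lit 957)) (.lf (nat_lit 958)))) (.nd (nat_lit 34611744) (.lf (nat_lit 959)) (.nd (nat_lit 34615299) (.lf (nat_lit 960)) (.lf (nat_lit 2000))))))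 (.nd (nat_lit 34668834) (.nd (nat_lit 34615569) (.nd (nat_lit 34615329) (.lf (nat_lit 962)) (.nd (nat_lit 34615554) (.lf (nat_lit 963)) (.lf (nat_lit 964)))) (.nd (nat_lit 34615584) (.lf (nat_lit 965)) (.nd (nat_lit 34668819) (.lf (nat_lit 966)) (.lf (nat_lit 967))))) (.nd (nat_lit 34669074) (.nd (nat_lit 34668849) (.lf (nat_lit 968)) (.nd (nat_lit 34669059) (.lf (nat_lit 969)) (.lf (nat_lit 970)))) (.nd (nat_lit 34669089) (.lf (nat_lit 971)) (.nd (nat_lit 34669104) (.lf (nat_lit 972)) (.lf (nat_lit 973))))))) (.nd (nat_lit 34673169) (.nd (nat_lit 34672689) (.nd (nat_lit 34669344) (.nd (nat_lit 34669329) (.lf (nat_lit 974)) (.lf (nat_lit 975))) (.nd (nat_lit 34672659) (.lf (nat_lit 976)) (.nd (nat_lit 34672674) (.lf (nat_lit 977)) (.lf (nat_lit 978))))) (.nd (nat_lit 34672929) (.nd (nat_lit 34672899) (.lf (nat_lit 979)) (.nd (nat_lit 34672914) (.lf (nat_lit 980)) (.lf (nat_lit 981)))) (.nd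 (nat_lit 34672944) (.lf (nat_lit 982)) (.nd (nat_lit 34673154) (.lf (nat_lit 983)) (.lf (nat_lit 984)))))) (.nd (nat_lit 34676769) (.nd (nat_lit 34673424) (.nd (nat_lit 34673184) (.lf (nat_lit 985)) (.nd (nat_lit 34673409) (.lf (nat_lit 986)) (.lf (nat_lit 987)))) (.nd (nat_lit 34676739) (.lf (nat_lit 988)) (.nd (nat_lit 34676754) (.lf (nat_lit 989)) (.lf (nat_lit 990))))) (.nd (nat_lit 34677009) (.nd (nat_lit 34676784) (.lf (nat_lit 991)) (.nd (nat_lit 34676994) (.lf (nat_lit 992)) (.lf (nat_lit 993)))) (.nd (nat_lit 34677024) (.lf (nat_lit 994)) (.nd (nat_lit 34677249) (.lf (nat_lit 995)) (.lf (nat_lit 996))))))))) (.nd (nat_lit 34800144) (.nd (nat_lit 34738434) (.nd (nat_lit 34734369) (.nd (nat_lit 34681104) (.nd (nat_lit 34680849) (.nd (nat_lit 34680834) (.lf (nat_lit 997)) (.lf (nat_lit 998))) (.nd (nat_lit 34680864) (.lf (nat_lit 999)) (.nd (nat_lit 34681089) (.lf (nat_lit 1000)) (.lf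 (nat_lit 1001))))) (.nd (nat_lit 34734129) (.nd (nat_lit 34734099) (.lf (nat_lit 1002)) (.nd (nat_lit 34734114) (.lf (nat_lit 1003)) (.lf (nat_lit 1004)))) (.nd (nat_lit 34734339) (.lf (nat_lit 1005)) (.nd (nat_lit 34734354) (.lf (nat_lit 1006)) (.lf (nat_lit 1007)))))) (.nd (nat_lit 34734849) (.nd (nat_lit 34734594) (.nd (nat_lit 34734384) (.lf (nat_lit 1008)) (.lf (nat_lit 1009))) (.nd (nat_lit 34734609) (.lf (nat_lit 1010)) (.nd (nat_lit 34734624) (.lf (nat_lit 1011)) (.lf (nat_lit 1012))))) (.nd (nat_lit 34738194) (.nd (nat_lit 34734864) (.lf (nat_lit 1013)) (.nd (nat_lit 34738179) (.lf (nat_lit 1014)) (.lf (nat_lit 1015)))) (.nd (nat_lit 34738209) (.lf (nat_lit 1016)) (.nd (nat_lit 34738224) (.lf (nat_lit 1017)) (.lf (nat_lit 1018))))))) (.nd (nat_lit 34742784) (.nd (nat_lit 34738944) (.nd (nat_lit 34738464) (.nd (nat_lit 34738449) (.lf (nat_lit 1019)) (.lf (nat_lit 1020))) (.nd (nat_lit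 34738689) (.lf (nat_lit 1021)) (.nd (nat_lit 34738704) (.lf (nat_lit 1022)) (.lf (nat_lit 1023))))) (.nd (nat_lit 34742304) (.nd (nat_lit 34742274) (.lf (nat_lit 1024)) (.nd (nat_lit 34742289) (.lf (nat_lit 1025)) (.lf (nat_lit 1026)))) (.nd (nat_lit 34742529) (.lf (nat_lit 1027)) (.nd (nat_lit 34742544) (.lf (nat_lit 1028)) (.lf (nat_lit 1029)))))) (.nd (nat_lit 34799649) (.nd (nat_lit 34746624) (.nd (nat_lit 34746369) (.lf (nat_lit 1030)) (.nd (nat_lit 34746384) (.lf (nat_lit 1031)) (.lf (nat_lit 1032)))) (.nd (nat_lit 34799619) (.lf (nat_lit 1033)) (.nd (nat_lit 34799634) (.lf (nat_lit 2000)) (.lf (nat_lit 1035))))) (.nd (nat_lit 34799889) (.nd (nat_lit 34799664) (.lf (nat_lit 1036)) (.nd (nat_lit 34799874) (.lf (nat_lit 2000)) (.lf (nat_lit 1038)))) (.nd (nat_lit 34799904) (.lf (nat_lit 1039)) (.nd (nat_lit 34800129) (.lf (nat_lit 1040)) (.lf (nat_lit 1041)))))))) (.nd (nat_lit 35655939)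 (.nd (nat_lit 34811904) (.nd (nat_lit 34803969) (.nd (nat_lit 34803714) (.nd (nat_lit 34800384) (.lf (nat_lit 1042)) (.lf (nat_lit 2000))) (.nd (nat_lit 34803729) (.lf (nat_lit 1044)) (.nd (nat_lit 34803744) (.lf (nat_lit 1045)) (.lf (nat_lit 1046))))) (.nd (nat_lit 34807809) (.nd (nat_lit 34803984) (.lf (nat_lit 1047)) (.nd (nat_lit 34804224) (.lf (nat_lit 1048)) (.lf (nat_lit 1049)))) (.nd (nat_lit 34807824) (.lf (nat_lit 1050)) (.nd (nat_lit 34808064) (.lf (nat_lit 1051)) (.lf (nat_lit 1052)))))) (.nd (nat_lit 35652144) (.nd (nat_lit 35651889) (.nd (nat_lit 35651859) (.lf (nat_lit 2000)) (.nd (nat_lit 35651874) (.lf (nat_lit 1054)) (.lf (nat_lit 1055)))) (.nd (nat_lit 35652114) (.lf (nat_lit 1056)) (.nd (nat_lit 35652129) (.lf (nat_lit 1057)) (.lf (nat_lit 1058))))) (.nd (nat_lit 35655699) (.nd (nat_lit 35652369) (.lf (nat_lit 2000)) (.nd (nat_lit 35652384) (.lf (nat_lit 1060)) (.lf (nat_lit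 2000)))) (.nd (nat_lit 35655714) (.lf (nat_lit 1062)) (.nd (nat_lit 35655729) (.lf (nat_lit 1063)) (.lf (nat_lit 1064))))))) (.nd (nat_lit 35659809) (.nd (nat_lit 35656209) (.nd (nat_lit 35655969) (.nd (nat_lit 35655954) (.lf (nat_lit 1065)) (.lf (nat_lit 1066))) (.nd (nat_lit 35655984) (.lf (nat_lit 1067)) (.nd (nat_lit 35656194) (.lf (nat_lit 1068)) (.lf (nat_lit 1069))))) (.nd (nat_lit 35656464) (.nd (nat_lit 35656224) (.lf (nat_lit 1070)) (.nd (nat_lit 35656449) (.lf (nat_lit 1071)) (.lf (nat_lit 1072)))) (.nd (nat_lit 35659779) (.lf (nat_lit 1073)) (.nd (nat_lit 35659794) (.lf (nat_lit 2000)) (.lf (nat_lit 1075)))))) (.nd (nat_lit 35663874) (.nd (nat_lit 35660064) (.nd (nat_lit 35660034) (.lf (nat_lit 1076)) (.nd (nat_lit 35660049) (.lf (nat_lit 1077)) (.lf (nat_lit 1078)))) (.nd (nat_lit 35660289) (.lf (nat_lit 1079)) (.nd (nat_lit 35660304) (.lf (nat_lit 1080)) (.lf (nat_lit 1081)))))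 (.nd (nat_lit 35664144) (.nd (nat_lit 35663889) (.lf (nat_lit 2000)) (.nd (nat_lit 35664129) (.lf (nat_lit 1083)) (.lf (nat_lit 1084)))) (.nd (nat_lit 35717139) (.lf (nat_lit 1085)) (.nd (nat_lit 35717154) (.lf (nat_lit 1086)) (.lf (nat_lit 1087))))))))))) (.nd (nat_lit 50528514) (.nd (nat_lit 36765984) (.nd (nat_lit 35790849) (.nd (nat_lit 35725344) (.nd (nat_lit 35721234) (.nd (nat_lit 35717634) (.nd (nat_lit 35717394) (.nd (nat_lit 35717379) (.lf (nat_lit 1088)) (.lf (nat_lit 1089))) (.nd (nat_lit 35717409) (.lf (nat_lit 1090)) (.nd (nat_lit 35717424) (.lf (nat_lit 1091)) (.lf (nat_lit 1092))))) (.nd (nat_lit 35717889) (.nd (nat_lit 35717649) (.lf (nat_lit 1093)) (.nd (nat_lit 35717664) (.lf (nat_lit 1094)) (.lf (nat_lit 1095)))) (.nd (nat_lit 35717904) (.lf (nat_lit 1096)) (.nd (nat_lit 35721219) (.lf (nat_lit 1097)) (.lf (nat_lit 1098)))))) (.nd (nat_lit 35721504) (.nd (nat_lit 35721264)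 (.nd (nat_lit 35721249) (.lf (nat_lit 1099)) (.lf (nat_lit 1100))) (.nd (nat_lit 35721474) (.lf (nat_lit 1101)) (.nd (nat_lit 35721489) (.lf (nat_lit 1102)) (.lf (nat_lit 1103))))) (.nd (nat_lit 35721984) (.nd (nat_lit 35721729) (.lf (nat_lit 1104)) (.nd (nat_lit 35721744) (.lf (nat_lit 1105)) (.lf (nat_lit 1106)))) (.nd (nat_lit 35725314) (.lf (nat_lit 1107)) (.nd (nat_lit 35725329) (.lf (nat_lit 1108)) (.lf (nat_lit 1109))))))) (.nd (nat_lit 35782914) (.nd (nat_lit 35729424) (.nd (nat_lit 35725584) (.nd (nat_lit 35725569) (.lf (nat_lit 1110)) (.lf (nat_lit 1111))) (.nd (nat_lit 35725824) (.lf (nat_lit 1112)) (.nd (nat_lit 35729409) (.lf (nat_lit 1113)) (.lf (nat_lit 1114))))) (.nd (nat_lit 35782674) (.nd (nat_lit 35729664) (.lf (nat_lit 1115)) (.nd (nat_lit 35782659) (.lf (nat_lit 1116)) (.lf (nat_lit 2000)))) (.nd (nat_lit 35782689) (.lf (nat_lit 1118)) (.nd (nat_lit 35782704) (.lf (nat_lit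 1119)) (.lf (nat_lit 2000)))))) (.nd (nat_lit 35786754) (.nd (nat_lit 35783169) (.nd (nat_lit 35782929) (.lf (nat_lit 1121)) (.nd (nat_lit 35782944) (.lf (nat_lit 1122)) (.lf (nat_lit 1123)))) (.nd (nat_lit 35783184) (.lf (nat_lit 1124)) (.nd (nat_lit 35783424) (.lf (nat_lit 1125)) (.lf (nat_lit 2000))))) (.nd (nat_lit 35787009) (.nd (nat_lit 35786769) (.lf (nat_lit 1127)) (.nd (nat_lit 35786784) (.lf (nat_lit 1128)) (.lf (nat_lit 1129)))) (.nd (nat_lit 35787024) (.lf (nat_lit 1130)) (.nd (nat_lit 35787264) (.lf (nat_lit 1131)) (.lf (nat_lit 1132)))))))) (.nd (nat_lit 36700944) (.nd (nat_lit 35852304) (.nd (nat_lit 35848209) (.nd (nat_lit 35791104) (.nd (nat_lit 35790864) (.lf (nat_lit 1133)) (.lf (nat_lit 1134))) (.nd (nat_lit 35794944) (.lf (nat_lit 1135)) (.nd (nat_lit 35848194) (.lf (nat_lit 2000)) (.lf (nat_lit 2000))))) (.nd (nat_lit 35848464) (.nd (nat_lit 35848224) (.lf (nat_lit 1138))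 (.nd (nat_lit 35848449) (.lf (nat_lit 2000)) (.lf (nat_lit 1140)))) (.nd (nat_lit 35848704) (.lf (nat_lit 1141)) (.nd (nat_lit 35852289) (.lf (nat_lit 2000)) (.lf (nat_lit 1143)))))) (.nd (nat_lit 36700209) (.nd (nat_lit 35856384) (.nd (nat_lit 35852544) (.lf (nat_lit 1144)) (.lf (nat_lit 1145))) (.nd (nat_lit 36700179) (.lf (nat_lit 2000)) (.nd (nat_lit 36700194) (.lf (nat_lit 2000)) (.lf (nat_lit 2000))))) (.nd (nat_lit 36700464) (.nd (nat_lit 36700434) (.lf (nat_lit 2000)) (.nd (nat_lit 36700449) (.lf (nat_lit 1150)) (.lf (nat_lit 1151)))) (.nd (nat_lit 36700689) (.lf (nat_lit 2000)) (.nd (nat_lit 36700704) (.lf (nat_lit 1153)) (.lf (nat_lit 2000))))))) (.nd (nat_lit 36708369) (.nd (nat_lit 36704529) (.nd (nat_lit 36704274) (.nd (nat_lit 36704259) (.lf (nat_lit 2000)) (.lf (nat_lit 2000))) (.nd (nat_lit 36704289) (.lf (nat_lit 1157)) (.nd (nat_lit 36704514) (.lf (nat_lit 1158)) (.lf (nat_lit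 1159))))) (.nd (nat_lit 36704784) (.nd (nat_lit 36704544) (.lf (nat_lit 1160)) (.nd (nat_lit 36704769) (.lf (nat_lit 1161)) (.lf (nat_lit 1162)))) (.nd (nat_lit 36705024) (.lf (nat_lit 1163)) (.nd (nat_lit 36708354) (.lf (nat_lit 2000)) (.lf (nat_lit 2000)))))) (.nd (nat_lit 36765699) (.nd (nat_lit 36708864) (.nd (nat_lit 36708609) (.lf (nat_lit 1166)) (.nd (nat_lit 36708624) (.lf (nat_lit 1167)) (.lf (nat_lit 1168)))) (.nd (nat_lit 36712449) (.lf (nat_lit 2000)) (.nd (nat_lit 36712704) (.lf (nat_lit 2000)) (.lf (nat_lit 2000))))) (.nd (nat_lit 36765744) (.nd (nat_lit 36765714) (.lf (nat_lit 2000)) (.nd (nat_lit 36765729) (.lf (nat_lit 1173)) (.lf (nat_lit 1174)))) (.nd (nat_lit 36765954) (.lf (nat_lit 2000)) (.nd (nat_lit 36765969) (.lf (nat_lit 1176)) (.lf (nat_lit 1177))))))))) (.nd (nat_lit 50397969) (.nd (nat_lit 36835584) (.nd (nat_lit 36773904) (.nd (nat_lit 36769809) (.nd (nat_lit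 36766224) (.nd (nat_lit 36766209) (.lf (nat_lit 1178)) (.lf (nat_lit 1179))) (.nd (nat_lit 36766464) (.lf (nat_lit 1180)) (.nd (nat_lit 36769794) (.lf (nat_lit 2000)) (.lf (nat_lit 1182))))) (.nd (nat_lit 36770064) (.nd (nat_lit 36769824) (.lf (nat_lit 1183)) (.nd (nat_lit 36770049) (.lf (nat_lit 1184)) (.lf (nat_lit 1185)))) (.nd (nat_lit 36770304) (.lf (nat_lit 1186)) (.nd (nat_lit 36773889) (.lf (nat_lit 1187)) (.lf (nat_lit 1188)))))) (.nd (nat_lit 36831264) (.nd (nat_lit 36777984) (.nd (nat_lit 36774144) (.lf (nat_lit 1189)) (.lf (nat_lit 1190))) (.nd (nat_lit 36831234) (.lf (nat_lit 2000)) (.nd (nat_lit 36831249) (.lf (nat_lit 2000)) (.lf (nat_lit 1193))))) (.nd (nat_lit 36831744) (.nd (nat_lit 36831489) (.lf (nat_lit 2000)) (.nd (nat_lit 36831504) (.lf (nat_lit 1195)) (.lf (nat_lit 1196)))) (.nd (nat_lit 36835329) (.lf (nat_lit 2000)) (.nd (nat_lit 36835344) (.lf (nat_lit 1198)) (.lf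 (nat_lit 1199))))))) (.nd (nat_lit 50336304) (.nd (nat_lit 36900864) (.nd (nat_lit 36896769) (.nd (nat_lit 36839424) (.lf (nat_lit 1200)) (.lf (nat_lit 2000))) (.nd (nat_lit 36896784) (.lf (nat_lit 2000)) (.nd (nat_lit 36897024) (.lf (nat_lit 2000)) (.lf (nat_lit 2000))))) (.nd (nat_lit 50336259) (.nd (nat_lit 50332434) (.lf (nat_lit 2000)) (.nd (nat_lit 50332449) (.lf (nat_lit 2000)) (.lf (nat_lit 2000)))) (.nd (nat_lit 50336274) (.lf (nat_lit 2000)) (.nd (nat_lit 50336289) (.lf (nat_lit 1209)) (.lf (nat_lit 1210)))))) (.nd (nat_lit 50343969) (.nd (nat_lit 50340129) (.nd (nat_lit 50340099) (.lf (nat_lit 2000)) (.nd (nat_lit 50340114) (.lf (nat_lit 2000)) (.lf (nat_lit 1213)))) (.nd (nat_lit 50340144) (.lf (nat_lit 1214)) (.nd (nat_lit 50343954) (.lf (nat_lit 2000)) (.lf (nat_lit 2000))))) (.nd (nat_lit 50397729) (.nd (nat_lit 50397699) (.lf (nat_lit 2000)) (.nd (nat_lit 50397714) (.lf (nat_lit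 2000)) (.lf (nat_lit 1219)))) (.nd (nat_lit 50397744) (.lf (nat_lit 1220)) (.nd (nat_lit 50397954) (.lf (nat_lit 2000)) (.lf (nat_lit 2000)))))))) (.nd (nat_lit 50463234) (.nd (nat_lit 50405409) (.nd (nat_lit 50401584) (.nd (nat_lit 50401539) (.nd (nat_lit 50397984) (.lf (nat_lit 2000)) (.lf (nat_lit 2000))) (.nd (nat_lit 50401554) (.lf (nat_lit 2000)) (.nd (nat_lit 50401569) (.lf (nat_lit 1226)) (.lf (nat_lit 1227))))) (.nd (nat_lit 50401824) (.nd (nat_lit 50401794) (.lf (nat_lit 2000)) (.nd (nat_lit 50401809) (.lf (nat_lit 1229)) (.lf (nat_lit 1230)))) (.nd (nat_lit 50405379) (.lf (nat_lit 1231)) (.nd (nat_lit 50405394) (.lf (nat_lit 2000)) (.lf (nat_lit 1233)))))) (.nd (nat_lit 50409489) (.nd (nat_lit 50405649) (.nd (nat_lit 50405424) (.lf (nat_lit 1234)) (.nd (nat_lit 50405634) (.lf (nat_lit 2000)) (.lf (nat_lit 1236)))) (.nd (nat_lit 50405664) (.lf (nat_lit 1237)) (.nd (nat_lit 50409474)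 (.lf (nat_lit 1238)) (.lf (nat_lit 2000))))) (.nd (nat_lit 50462994) (.nd (nat_lit 50409504) (.lf (nat_lit 2000)) (.nd (nat_lit 50462979) (.lf (nat_lit 2000)) (.lf (nat_lit 2000)))) (.nd (nat_lit 50463009) (.lf (nat_lit 1243)) (.nd (nat_lit 50463024) (.lf (nat_lit 1244)) (.lf (nat_lit 2000))))))) (.nd (nat_lit 50467104) (.nd (nat_lit 50466819) (.nd (nat_lit 50463264) (.nd (nat_lit 50463249) (.lf (nat_lit 2000)) (.lf (nat_lit 1247))) (.nd (nat_lit 50463489) (.lf (nat_lit 2000)) (.nd (nat_lit 50463504) (.lf (nat_lit 2000)) (.lf (nat_lit 2000))))) (.nd (nat_lit 50466864) (.nd (nat_lit 50466834) (.lf (nat_lit 2000)) (.nd (nat_lit 50466849) (.lf (nat_lit 1252)) (.lf (nat_lit 1253)))) (.nd (nat_lit 50467074) (.lf (nat_lit 2000)) (.nd (nat_lit 50467089) (.lf (nat_lit 1255)) (.lf (nat_lit 1256)))))) (.nd (nat_lit 50471169) (.nd (nat_lit 50470914) (.nd (nat_lit 50467329) (.lf (nat_lit 1257)) (.nd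 (nat_lit 50467344) (.lf (nat_lit 1258)) (.lf (nat_lit 1259)))) (.nd (nat_lit 50470929) (.lf (nat_lit 2000)) (.nd (nat_lit 50470944) (.lf (nat_lit 1261)) (.lf (nat_lit 2000))))) (.nd (nat_lit 50475024) (.nd (nat_lit 50471184) (.lf (nat_lit 1263)) (.nd (nat_lit 50475009) (.lf (nat_lit 1264)) (.lf (nat_lit 2000)))) (.nd (nat_lit 50528274) (.lf (nat_lit 2000)) (.nd (nat_lit 50528289) (.lf (nat_lit 2000)) (.lf (nat_lit 2000)))))))))) (.nd (nat_lit 51581184) (.nd (nat_lit 51446529) (.nd (nat_lit 51384594) (.nd (nat_lit 50536449) (.nd (nat_lit 50532354) (.nd (nat_lit 50528544) (.nd (nat_lit 50528529) (.lf (nat_lit 2000)) (.lf (nat_lit 2000))) (.nd (nat_lit 50528769) (.lf (nat_lit 2000)) (.nd (nat_lit 50528784) (.lf (nat_lit 2000)) (.lf (nat_lit 2000))))) (.nd (nat_lit 50532609) (.nd (nat_lit 50532369) (.lf (nat_lit 2000)) (.nd (nat_lit 50532384) (.lf (nat_lit 2000)) (.lf (nat_lit 2000)))) (.nd (nat_lit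 50532624) (.lf (nat_lit 2000)) (.nd (nat_lit 50532864) (.lf (nat_lit 2000)) (.lf (nat_lit 2000)))))) (.nd (nat_lit 51380769) (.nd (nat_lit 50536704) (.nd (nat_lit 50536464) (.lf (nat_lit 2000)) (.lf (nat_lit 2000))) (.nd (nat_lit 51380739) (.lf (nat_lit 2000)) (.nd (nat_lit 51380754) (.lf (nat_lit 2000)) (.lf (nat_lit 1284))))) (.nd (nat_lit 51381009) (.nd (nat_lit 51380784) (.lf (nat_lit 1285)) (.nd (nat_lit 51380994) (.lf (nat_lit 2000)) (.lf (nat_lit 2000)))) (.nd (nat_lit 51381024) (.lf (nat_lit 2000)) (.nd (nat_lit 51384579) (.lf (nat_lit 2000)) (.lf (nat_lit 2000))))))) (.nd (nat_lit 51388689) (.nd (nat_lit 51384864) (.nd (nat_lit 51384624) (.nd (nat_lit 51384609) (.lf (nat_lit 1291)) (.lf (nat_lit 1292))) (.nd (nat_lit 51384834) (.lf (nat_lit 2000)) (.nd (nat_lit 51384849) (.lf (nat_lit 1294)) (.lf (nat_lit 1295))))) (.nd (nat_lit 51388449) (.nd (nat_lit 51388419) (.lf (nat_lit 1296))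 (.nd (nat_lit 51388434) (.lf (nat_lit 2000)) (.lf (nat_lit 1298)))) (.nd (nat_lit 51388464) (.lf (nat_lit 1299)) (.nd (nat_lit 51388674) (.lf (nat_lit 2000)) (.lf (nat_lit 1301)))))) (.nd (nat_lit 51446034) (.nd (nat_lit 51392529) (.nd (nat_lit 51388704) (.lf (nat_lit 1302)) (.nd (nat_lit 51392514) (.lf (nat_lit 1303)) (.lf (nat_lit 2000)))) (.nd (nat_lit 51392544) (.lf (nat_lit 2000)) (.nd (nat_lit 51446019) (.lf (nat_lit 2000)) (.lf (nat_lit 2000))))) (.nd (nat_lit 51446274) (.nd (nat_lit 51446049) (.lf (nat_lit 1308)) (.nd (nat_lit 51446064) (.lf (nat_lit 1309)) (.lf (nat_lit 2000)))) (.nd (nat_lit 51446289) (.lf (nat_lit 1311)) (.nd (nat_lit 51446304) (.lf (nat_lit 1312)) (.lf (nat_lit 1313)))))))) (.nd (nat_lit 51511569) (.nd (nat_lit 51453954) (.nd (nat_lit 51449904) (.nd (nat_lit 51449859) (.nd (nat_lit 51446544) (.lf (nat_lit 2000)) (.lf (nat_lit 2000))) (.nd (nat_lit 51449874) (.lf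 (nat_lit 2000)) (.nd (nat_lit 51449889) (.lf (nat_lit 1317)) (.lf (nat_lit 1318))))) (.nd (nat_lit 51450144) (.nd (nat_lit 51450114) (.lf (nat_lit 2000)) (.nd (nat_lit 51450129) (.lf (nat_lit 1320)) (.lf (nat_lit 1321)))) (.nd (nat_lit 51450369) (.lf (nat_lit 1322)) (.nd (nat_lit 51450384) (.lf (nat_lit 1323)) (.lf (nat_lit 1324)))))) (.nd (nat_lit 51458064) (.nd (nat_lit 51454209) (.nd (nat_lit 51453969) (.lf (nat_lit 1325)) (.nd (nat_lit 51453984) (.lf (nat_lit 1326)) (.lf (nat_lit 1327)))) (.nd (nat_lit 51454224) (.lf (nat_lit 1328)) (.nd (nat_lit 51458049) (.lf (nat_lit 1329)) (.lf (nat_lit 2000))))) (.nd (nat_lit 51511329) (.nd (nat_lit 51511299) (.lf (nat_lit 2000)) (.nd (nat_lit 51511314) (.lf (nat_lit 2000)) (.lf (nat_lit 1333)))) (.nd (nat_lit 51511344) (.lf (nat_lit 1334)) (.nd (nat_lit 51511554) (.lf (nat_lit 2000)) (.lf (nat_lit 1336))))))) (.nd (nat_lit 51519489) (.nd (nat_lit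 51515394) (.nd (nat_lit 51511809) (.nd (nat_lit 51511584) (.lf (nat_lit 1337)) (.lf (nat_lit 1338))) (.nd (nat_lit 51511824) (.lf (nat_lit 1339)) (.nd (nat_lit 51512064) (.lf (nat_lit 1340)) (.lf (nat_lit 2000))))) (.nd (nat_lit 51515649) (.nd (nat_lit 51515409) (.lf (nat_lit 1342)) (.nd (nat_lit 51515424) (.lf (nat_lit 1343)) (.lf (nat_lit 1344)))) (.nd (nat_lit 51515664) (.lf (nat_lit 1345)) (.nd (nat_lit 51515904) (.lf (nat_lit 1346)) (.lf (nat_lit 1347)))))) (.nd (nat_lit 51576864) (.nd (nat_lit 51523584) (.nd (nat_lit 51519504) (.lf (nat_lit 1348)) (.nd (nat_lit 51519744) (.lf (nat_lit 1349)) (.lf (nat_lit 1350)))) (.nd (nat_lit 51576834) (.lf (nat_lit 2000)) (.nd (nat_lit 51576849) (.lf (nat_lit 2000)) (.lf (nat_lit 2000))))) (.nd (nat_lit 51577344) (.nd (nat_lit 51577089) (.lf (nat_lit 2000)) (.nd (nat_lit 51577104) (.lf (nat_lit 2000)) (.lf (nat_lit 2000)))) (.nd (nat_lit 51580929)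 (.lf (nat_lit 2000)) (.nd (nat_lit 51580944) (.lf (nat_lit 2000)) (.lf (nat_lit 2000))))))))) (.nd (nat_lit 52502784) (.nd (nat_lit 52437024) (.nd (nat_lit 52432899) (.nd (nat_lit 52429104) (.nd (nat_lit 52429059) (.nd (nat_lit 51585024) (.lf (nat_lit 2000)) (.lf (nat_lit 2000))) (.nd (nat_lit 52429074) (.lf (nat_lit 2000)) (.nd (nat_lit 52429089) (.lf (nat_lit 1363)) (.lf (nat_lit 1364))))) (.nd (nat_lit 52429344) (.nd (nat_lit 52429314) (.lf (nat_lit 2000)) (.nd (nat_lit 52429329) (.lf (nat_lit 2000)) (.lf (nat_lit 1367)))) (.nd (nat_lit 52429569) (.lf (nat_lit 2000)) (.nd (nat_lit 52429584) (.lf (nat_lit 2000)) (.lf (nat_lit 2000)))))) (.nd (nat_lit 52433169) (.nd (nat_lit 52432929) (.nd (nat_lit 52432914) (.lf (nat_lit 2000)) (.lf (nat_lit 1372))) (.nd (nat_lit 52432944) (.lf (nat_lit 1373)) (.nd (nat_lit 52433154) (.lf (nat_lit 2000)) (.lf (nat_lit 1375))))) (.nd (nat_lit 52433424) (.nd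 (nat_lit 52433184) (.lf (nat_lit 1376)) (.nd (nat_lit 52433409) (.lf (nat_lit 1377)) (.lf (nat_lit 1378)))) (.nd (nat_lit 52436994) (.lf (nat_lit 1379)) (.nd (nat_lit 52437009) (.lf (nat_lit 2000)) (.lf (nat_lit 1381))))))) (.nd (nat_lit 52494624) (.nd (nat_lit 52494339) (.nd (nat_lit 52437264) (.nd (nat_lit 52437249) (.lf (nat_lit 2000)) (.lf (nat_lit 1383))) (.nd (nat_lit 52441089) (.lf (nat_lit 1384)) (.nd (nat_lit 52441104) (.lf (nat_lit 2000)) (.lf (nat_lit 2000))))) (.nd (nat_lit 52494384) (.nd (nat_lit 52494354) (.lf (nat_lit 2000)) (.nd (nat_lit 52494369) (.lf (nat_lit 1388)) (.lf (nat_lit 1389)))) (.nd (nat_lit 52494594) (.lf (nat_lit 2000)) (.nd (nat_lit 52494609) (.lf (nat_lit 1391)) (.lf (nat_lit 1392)))))) (.nd (nat_lit 52498464) (.nd (nat_lit 52495104) (.nd (nat_lit 52494849) (.lf (nat_lit 1393)) (.nd (nat_lit 52494864) (.lf (nat_lit 1394)) (.lf (nat_lit 1395)))) (.nd (nat_lit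 52498434) (.lf (nat_lit 2000)) (.nd (nat_lit 52498449) (.lf (nat_lit 1397)) (.lf (nat_lit 1398))))) (.nd (nat_lit 52498944) (.nd (nat_lit 52498689) (.lf (nat_lit 1399)) (.nd (nat_lit 52498704) (.lf (nat_lit 1400)) (.lf (nat_lit 1401)))) (.nd (nat_lit 52502529) (.lf (nat_lit 1402)) (.nd (nat_lit 52502544) (.lf (nat_lit 1403)) (.lf (nat_lit 1404)))))))) (.nd (nat_lit 53481474) (.nd (nat_lit 52568064) (.nd (nat_lit 52560129) (.nd (nat_lit 52559874) (.nd (nat_lit 52506624) (.lf (nat_lit 1405)) (.lf (nat_lit 2000))) (.nd (nat_lit 52559889) (.lf (nat_lit 2000)) (.nd (nat_lit 52559904) (.lf (nat_lit 1408)) (.lf (nat_lit 2000))))) (.nd (nat_lit 52563969) (.nd (nat_lit 52560144) (.lf (nat_lit 1410)) (.nd (nat_lit 52560384) (.lf (nat_lit 1411)) (.lf (nat_lit 2000)))) (.nd (nat_lit 52563984) (.lf (nat_lit 1413)) (.nd (nat_lit 52564224) (.lf (nat_lit 1414)) (.lf (nat_lit 1415)))))) (.nd (nat_lit 53477409)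 (.nd (nat_lit 52625664) (.nd (nat_lit 52625409) (.lf (nat_lit 2000)) (.nd (nat_lit 52625424) (.lf (nat_lit 2000)) (.lf (nat_lit 2000)))) (.nd (nat_lit 52629504) (.lf (nat_lit 2000)) (.nd (nat_lit 53477394) (.lf (nat_lit 2000)) (.lf (nat_lit 2000))))) (.nd (nat_lit 53477664) (.nd (nat_lit 53477634) (.lf (nat_lit 2000)) (.nd (nat_lit 53477649) (.lf (nat_lit 2000)) (.lf (nat_lit 2000)))) (.nd (nat_lit 53477889) (.lf (nat_lit 2000)) (.nd (nat_lit 53477904) (.lf (nat_lit 2000)) (.lf (nat_lit 2000))))))) (.nd (nat_lit 53542944) (.nd (nat_lit 53481984) (.nd (nat_lit 53481504) (.nd (nat_lit 53481489) (.lf (nat_lit 2000)) (.lf (nat_lit 2000))) (.nd (nat_lit 53481729) (.lf (nat_lit 2000)) (.nd (nat_lit 53481744) (.lf (nat_lit 2000)) (.lf (nat_lit 2000))))) (.nd (nat_lit 53485824) (.nd (nat_lit 53485569) (.lf (nat_lit 2000)) (.nd (nat_lit 53485584) (.lf (nat_lit 2000)) (.lf (nat_lit 2000)))) (.nd (nat_lit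 53542914) (.lf (nat_lit 2000)) (.nd (nat_lit 53542929) (.lf (nat_lit 2000)) (.lf (nat_lit 2000)))))) (.nd (nat_lit 53547264) (.nd (nat_lit 53543424) (.nd (nat_lit 53543169) (.lf (nat_lit 2000)) (.nd (nat_lit 53543184) (.lf (nat_lit 2000)) (.lf (nat_lit 2000)))) (.nd (nat_lit 53547009) (.lf (nat_lit 2000)) (.nd (nat_lit 53547024) (.lf (nat_lit 2000)) (.lf (nat_lit 2000))))) (.nd (nat_lit 53608464) (.nd (nat_lit 53551104) (.lf (nat_lit 2000)) (.nd (nat_lit 53608449) (.lf (nat_lit 2000)) (.lf (nat_lit 2000)))) (.nd (nat_lit 53608704) (.lf (nat_lit 2000)) (.nd (nat_lit 53612544) (.lf (nat_lit 2000)) (.lf (nat_lit 2000))))))))))))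

/-- all triples `a ≤ b ≤ c` satisfy `f` -/
def allT (f : ℕ → ℕ → ℕ → Bool) : Bool :=
  (List.range 29).all fun a => (List.range 29).all fun b => Nat.blt b a ||
    (List.range 29).all fun c => Nat.blt c b || f a b c

theorem allT_spec {f : ℕ → ℕ → ℕ → Bool} (h : allT f = true) {a b c : ℕ} (hab : a ≤ b)
    (hbc : b ≤ c) (hc : c < 29) : f a b c = true := by
  unfold allT at h
  rw [List.all_eq_true] at h
  have h1 := h a (List.mem_range.mpr (by omega))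
  rw [List.all_eq_true] at h1
  have h2 := h1 b (List.mem_range.mpr (by omega))
  have h3 : Nat.blt b a = false := by
    rw [Bool.eq_false_iff]; intro hc
    have : b < a := by simpa [Nat.blt_eq] using hc
    omega
  rw [h3, Bool.false_or, List.all_eq_true] at h2
  have h4 := h2 c (List.mem_range.mpr hc)
  have h7 : Nat.blt c b = false := by
    rw [Bool.eq_false_iff]; intro hc
    have : c < b := by simpa [Nat.blt_eq] using hc
    omega
  rw [h7, Bool.false_or] at h4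
  exact h4

/-- the literals are contradictory -/
def conf (s t : ℕ) : Bool :=
  Nat.ble 32 s && Nat.ble 32 t && (Nat.beq (Nat.add s 175) t || Nat.beq (Nat.add t 175) s)

/-- the mask of the negation of the literal `t` -/
noncomputable def mm (t : ℕ) : ℕ := @Nat.rec (fun _ => ℕ) (nat_lit 0) (fun _ _ => Nat.shiftLeft (nat_lit 1)
  (@Bool.rec (fun _ => ℕ) (Nat.sub t (nat_lit 175)) (Nat.add t (nat_lit 175)) (Nat.blt t (nat_lit 207)))) t

theorem mm_eq (t : ℕ) : mm t = if t = 0 then 0 else Nat.shiftLeft 1 (neg t) := by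
  cases t with
  | zero => rfl
  | succ t =>
    rw [if_neg (by omega)]
    have e : mm (t + 1) = Nat.shiftLeft 1 (@Bool.rec (fun _ => ℕ) (Nat.sub (t + 1) 175)
      (Nat.add (t + 1) 175) (Nat.blt (t + 1) 207)) := rfl
    rw [e]
    congr 1
    unfold neg
    cases hb : Nat.blt (t + 1) 207 with
    | true =>
      have : t + 1 < 207 := by simpa only [Nat.blt_eq] using hb
      rw [if_pos this]
    | false =>
      have : ¬ t + 1 < 207 := by
        intro hc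
        have : Nat.blt (t + 1) 207 = true := by simpa only [Nat.blt_eq] using hc
        rw [hb] at this; exact absurd this (by decide)
      rw [if_neg this]; rfl

/-- some mask of the list is contained in `M` -/
noncomputable def exF (M n : ℕ) : ℕ → Bool :=
  @Nat.rec (fun _ => ℕ → Bool) (fun _ => false)
    (fun _ ih x => @Nat.rec (fun _ => Bool) false
      (fun _ _ => @Bool.rec (fun _ => Bool) (frN (Nat.shiftRight x (nat_lit 384)) ih) true
        (Nat.beq (Nat.lor (Nat.land x m384) M) M)) x) n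

theorem exF_spec {M n : ℕ} : ∀ {x : ℕ}, exF M n x = true → ∃ F ∈ fs n x, F ||| M = M := by
  induction n with
  | zero => intro x h; exact absurd h (by simp [exF])
  | succ n ih =>
    intro x h
    cases x with
    | zero => exact absurd h (by simp [exF])
    | succ y =>
      have e0 : exF M (n + 1) (y + 1) = @Bool.rec (fun _ => Bool)
          (frN (Nat.shiftRight (y + 1) (nat_lit 384)) (exF M n)) true
          (Nat.beq (Nat.lor (Nat.land (y + 1) m384) M) M) := rfl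
      rw [e0, frN_eq] at h
      have e1 : Nat.land (y + 1) m384 = (y + 1) % 2 ^ 384 := by
        have h1 : Nat.land (y + 1) m384 = (y + 1) &&& (2 ^ 384 - 1) := by
          change (y + 1) &&& m384 = _
          congr 1
        rw [h1, Nat.and_two_pow_sub_one_eq_mod]
      have e2 : Nat.shiftRight (y + 1) (nat_lit 384) = (y + 1) / 2 ^ 384 := by
        change (y + 1) >>> 384 = _
        rw [Nat.shiftRight_eq_div_pow]
      have e3 : fs (n + 1) (y + 1) = ((y + 1) % 2 ^ 384) :: fs n ((y + 1) / 2 ^ 384) := by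
        have e4 : fs (n + 1) (y + 1) = if y + 1 = 0 then [] else
          ((y + 1) % 2 ^ 384) :: fs n ((y + 1) / 2 ^ 384) := rfl
        rw [e4, if_neg (by omega)]
      rw [e1, e2] at h
      rw [e3]
      cases hb : Nat.beq (Nat.lor ((y + 1) % 2 ^ 384) M) M with
      | true =>
        exact ⟨_, List.mem_cons_self, Nat.eq_of_beq_eq_true hb⟩
      | false =>
        rw [hb] at h
        obtain ⟨F, h1, h2⟩ := ih h
        exact ⟨F, List.mem_cons_of_mem _ h1, h2⟩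

/-- the triple is not standard or in the list -/
noncomputable def cov (x a b c : ℕ) : Bool :=
  frN (tbit a b) fun t1 => frN (tbit a c) fun t2 => frN (tbit b c) fun t3 =>
    conf t1 t2 || conf t1 t3 || conf t2 t3 ||
    frN (Nat.lor (mm t1) (Nat.lor (mm t2) (mm t3))) fun M =>
      exF M (nat_lit 31) x

/-- the check of all triples -/
noncomputable def chkT (a b c : ℕ) : Bool :=
  frN (Nat.add (Nat.add (cdv a) (cdv b)) (cdv c)) fun s => frN (kt.get s) fun n =>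
    Nat.ble 2000 n || frN (D.ct.get n) fun x => cov x a b c

/-- the check of one leaf with the representative `r` -/
noncomputable def chk3 (x r : ℕ) : Bool :=
  Nat.ble (d0 r) (d1 r) && Nat.ble (d1 r) (d2 r) && Nat.blt (d2 r) 29 &&
  (frN (kt.get (Nat.add (Nat.add (cdv (d0 r)) (cdv (d1 r))) (cdv (d2 r)))) fun n =>
    Nat.blt n 2000 && Nat.beq x (D.ct.get n)) &&
  (fs 31 x).all fun F => !(Nat.beq F 0) && Nat.beq (Nat.mod F 4294967296) 0 &&
    Nat.blt F (Nat.pow 2 382)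

theorem chkT_all : allT chkT = true := by decide +kernel

theorem conf_e {e : ℕ → ℕ → Prop} {s t : ℕ} (hs : s < 382) (ht : t < 382)
    (h1 : 32 ≤ s → Lit e s) (h2 : 32 ≤ t → Lit e t) (h : conf s t = true) : False := by
  unfold conf at h
  rw [Bool.and_eq_true, Bool.and_eq_true, Bool.or_eq_true] at h
  obtain ⟨⟨a1, a2⟩, a3⟩ := h
  have b1 := Nat.le_of_ble_eq_true a1
  have b2 := Nat.le_of_ble_eq_true a2
  rcases a3 with a3 | a3
  · have b3 : s + 175 = t := Nat.eq_of_beq_eq_true a3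
    have b4 := (lit_neg (e := e) b1 hs).mp (by unfold neg; rw [if_pos (by omega), b3]; exact h2 b2)
    exact b4 (h1 b1)
  · have b3 : t + 175 = s := Nat.eq_of_beq_eq_true a3
    have b4 := (lit_neg (e := e) b2 ht).mp (by unfold neg; rw [if_pos (by omega), b3]; exact h1 b1)
    exact b4 (h2 b2)

theorem mm_e {e : ℕ → ℕ → Prop} {t : ℕ} (ht : t < 382) (h1 : t = 0 ∨ 32 ≤ t ∧ Lit e t) {b : ℕ}
    (h : (mm t).testBit b = true) : ¬ Lit e b := by
  rw [mm_eq] at h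
  rcases h1 with h1 | h1
  · rw [if_pos h1] at h; simp at h
  · rw [if_neg (by omega)] at h
    have e1 : Nat.shiftLeft 1 (neg t) = 2 ^ neg t := by
      change 1 <<< neg t = 2 ^ neg t
      rw [Nat.shiftLeft_eq, one_mul]
    rw [e1, Nat.testBit_two_pow] at h
    have h2 : neg t = b := by simpa using h
    rw [← h2]
    intro h3
    exact (lit_neg h1.1 ht).mp h3 h1.2

/-- a sorted standard triple -/
theorem Sys.three' {e : ℕ → ℕ → Prop} {w : ℕ → ℝ} (S : Sys e w) {i j k : ℕ} (hi : i < 29)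
    (hj : j < 29) (hk : k < 29) : ∃ a b c, a ≤ b ∧ b ≤ c ∧ c < 29 ∧ e a b ∧ e a c ∧ e b c ∧
      cdv a + cdv b + cdv c = cdv i + cdv j + cdv k := by
  obtain ⟨a, b, c, ha, hb, hc, e1, e2, e3, hs⟩ := S.three i j k hi hj hk
  have h1 := (cd3 ha hb hc hi hj hk).mp hs
  have e1' := S.symm _ _ e1
  have e2' := S.symm _ _ e2
  have e3' := S.symm _ _ e3
  rcases le_total a b with hab | hab <;> rcases le_total a c with hac | hac <;>
    rcases le_total b c with hbc | hbc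
  · exact ⟨a, b, c, hab, hbc, hc, e1, e2, e3, by omega⟩
  · exact ⟨a, c, b, hac, hbc, hb, e2, e1, e3', by omega⟩
  · exact ⟨a, b, c, hab, hbc, hc, e1, e2, e3, by omega⟩
  · exact ⟨c, a, b, hac, hab, hb, e2', e3', e1, by omega⟩
  · exact ⟨b, a, c, hab, hac, hc, e1', e3, e2, by omega⟩
  · exact ⟨c, b, a, hbc, hab, ha, e3', e2', e1', by omega⟩
  · exact ⟨b, c, a, hbc, hac, ha, e3, e1', e2', by omega⟩
  · exact ⟨c, b, a, hbc, hab, ha, e3', e2', e1', by omega⟩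

theorem tb_e {e : ℕ → ℕ → Prop} {w : ℕ → ℝ} (S : Sys e w) {i j : ℕ} (hij : i ≤ j) (hj : j < 29)
    (h : e i j) : tbit i j < 382 ∧ (tbit i j = 0 ∨ 32 ≤ tbit i j ∧ Lit e (tbit i j)) := by
  rcases w2 e w S i j hij hj with h1 | ⟨h1, h2, h3⟩
  · exact ⟨by omega, Or.inl h1.1⟩
  · exact ⟨h2, Or.inr ⟨h1, h3.mp h⟩⟩

theorem chk3_valid {x r : ℕ} (h : chk3 x r = true) : ValidCub x ∧
    ∀ F ∈ fs 31 x, F ≠ 0 ∧ F % 2 ^ 32 = 0 ∧ F < 2 ^ 382 := by
  unfold chk3 at h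
  rw [frN_eq, Bool.and_eq_true, Bool.and_eq_true, Bool.and_eq_true, Bool.and_eq_true,
    Bool.and_eq_true] at h
  obtain ⟨⟨⟨⟨h1, h2⟩, h3⟩, h40, h4⟩, h5⟩ := h
  have g1 := Nat.le_of_ble_eq_true h1
  have g2 := Nat.le_of_ble_eq_true h2
  have g3 : d2 r < 29 := by simpa [Nat.blt_eq] using h3
  constructor
  · intro e w S
    obtain ⟨a, b, c, hab, hbc, hc, e1, e2, e3, hs⟩ :=
      S.three' (i := d0 r) (j := d1 r) (k := d2 r) (by omega) (by omega) g3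
    have h6 := allT_spec chkT_all hab hbc hc
    unfold chkT at h6
    rw [frN_eq, frN_eq, frN_eq] at h6
    have g4 := Nat.eq_of_beq_eq_true h4
    have g5 : Nat.add (Nat.add (cdv a) (cdv b)) (cdv c) =
      Nat.add (Nat.add (cdv (d0 r)) (cdv (d1 r))) (cdv (d2 r)) := hs
    have g6 : Nat.ble 2000 (kt.get (Nat.add (Nat.add (cdv (d0 r)) (cdv (d1 r))) (cdv (d2 r)))) =
        false := by
      rw [Bool.eq_false_iff]; intro hc
      have k1 := Nat.le_of_ble_eq_true hc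
      have k2 : kt.get (Nat.add (Nat.add (cdv (d0 r)) (cdv (d1 r))) (cdv (d2 r))) < 2000 := by
        simpa only [Nat.blt_eq] using h40
      omega
    rw [g5, g6, Bool.false_or, ← g4] at h6
    unfold cov at h6
    rw [frN_eq, frN_eq, frN_eq, frN_eq] at h6
    obtain ⟨u1, v1⟩ := tb_e S hab (by omega) e1
    obtain ⟨u2, v2⟩ := tb_e S (hab.trans hbc) hc e2
    obtain ⟨u3, v3⟩ := tb_e S hbc hc e3
    generalize tbit a b = t1 at h6 u1 v1
    generalize tbit a c = t2 at h6 u2 v2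
    generalize tbit b c = t3 at h6 u3 v3
    have w1 : 32 ≤ t1 → Lit e t1 := fun h => by rcases v1 with v | v; · omega
                                                · exact v.2
    have w2 : 32 ≤ t2 → Lit e t2 := fun h => by rcases v2 with v | v; · omega
                                                · exact v.2
    have w3 : 32 ≤ t3 → Lit e t3 := fun h => by rcases v3 with v | v; · omega
                                                · exact v.2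
    rw [Bool.or_eq_true, Bool.or_eq_true, Bool.or_eq_true] at h6
    rcases h6 with ((h6 | h6) | h6) | h6
    · exact (conf_e u1 u2 w1 w2 h6).elim
    · exact (conf_e u1 u3 w1 w3 h6).elim
    · exact (conf_e u2 u3 w2 w3 h6).elim
    · obtain ⟨F, hF, h7⟩ := exF_spec h6
      refine ⟨F, hF, fun b _ _ hb => ?_⟩
      have h8 : F ||| (mm t1 ||| (mm t2 ||| mm t3)) = mm t1 ||| (mm t2 ||| mm t3) := h7
      have h9 : (mm t1 ||| (mm t2 ||| mm t3)).testBit b = true := by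
        rw [← h8, Nat.testBit_or, hb, Bool.true_or]
      rw [Nat.testBit_or, Nat.testBit_or, Bool.or_eq_true, Bool.or_eq_true] at h9
      rcases h9 with h9 | h9 | h9
      · exact mm_e u1 v1 h9
      · exact mm_e u2 v2 h9
      · exact mm_e u3 v3 h9
  · intro F hF
    rw [List.all_eq_true] at h5
    have h6 := h5 F hF
    rw [Bool.and_eq_true, Bool.and_eq_true, Bool.not_eq_true'] at h6
    obtain ⟨⟨a1, a2⟩, a3⟩ := h6
    refine ⟨Nat.ne_of_beq_eq_false a1, ?_, ?_⟩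
    · have := Nat.eq_of_beq_eq_true a2
      have e : Nat.mod F 4294967296 = F % 2 ^ 32 := by norm_num; rfl
      rw [← e]; exact this
    · have : F < Nat.pow 2 382 := by simpa only [Nat.blt_eq] using a3
      exact this

/-- a check for the leaves of two trees of the same shape -/
def all2 (c : ℕ → ℕ → Bool) : Tr → Tr → Bool
  | .lf v, .lf w => c v w
  | .nd p l r, .nd q l' r' => Nat.beq p q && (all2 c l l' && all2 c r r')
  | .lf _, .nd _ _ _ => false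
  | .nd _ _ _, .lf _ => false

theorem all2_spec {c : ℕ → ℕ → Bool} : ∀ {t u : Tr}, all2 c t u = true → ∀ k, ∃ w, c (t.get k) w = true := by
  intro t
  induction t with
  | lf v =>
    intro u h k
    cases u with
    | lf w => exact ⟨w, h⟩
    | nd q l r => exact absurd h (by simp [all2])
  | nd p l r ihl ihr =>
    intro u h k
    cases u with
    | lf w => exact absurd h (by simp [all2])
    | nd q l' r' =>
      unfold all2 at h
      rw [Bool.and_eq_true, Bool.and_eq_true] at h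
      have e : (Tr.nd p l r).get k = @Bool.rec (fun _ => ℕ) (l.get k) (r.get k) (Nat.ble p k) := rfl
      rw [e]
      cases hb : Nat.ble p k with
      | false => exact ihl h.2.1 k
      | true => exact ihr h.2.2 k

/-- representatives of the fibres -/
noncomputable def rt : Tr :=
  .nd (nat_lit 725) (.nd (nat_lit 362) (.nd (nat_lit 181) (.nd (nat_lit 90) (.nd (nat_lit 45) (.nd (nat_lit 22) (.nd (nat_lit 11) (.nd (nat_lit 5) (.nd (nat_lit 2) (.nd (nat_lit 1) (.lf (nat_lit 5152)) (.lf (nat_lit 5152))) (.nd (nat_lit 3) (.lf (nat_lit 5152)) (.nd (nat_lit 4) (.lf (nat_lit 5152)) (.lf (nat_lit 5152))))) (.nd (nat_lit 8) (.nd (nat_lit 6) (.lf (nat_lit 5152)) (.nd (nat_lit 7) (.lf (nat_lit 5152)) (.lf (nat_lit 5152)))) (.nd (nat_lit 9) (.lf (nat_lit 5152)) (.nd (nat_lit 10) (.lf (nat_lit 5152)) (.lf (nat_lit 5152)))))) (.nd (nat_lit 16) (.nd (nat_lit 13) (.nd (nat_lit 12) (.lf (nat_lit 5152))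 (.lf (nat_lit 5152))) (.nd (nat_lit 14) (.lf (nat_lit 5152)) (.nd (nat_lit 15) (.lf (nat_lit 5152)) (.lf (nat_lit 5152))))) (.nd (nat_lit 19) (.nd (nat_lit 17) (.lf (nat_lit 5152)) (.nd (nat_lit 18) (.lf (nat_lit 5152)) (.lf (nat_lit 5152)))) (.nd (nat_lit 20) (.lf (nat_lit 5152)) (.nd (nat_lit 21) (.lf (nat_lit 6144)) (.lf (nat_lit 5152))))))) (.nd (nat_lit 33) (.nd (nat_lit 27) (.nd (nat_lit 24) (.nd (nat_lit 23) (.lf (nat_lit 7168)) (.lf (nat_lit 5152))) (.nd (nat_lit 25) (.lf (nat_lit 5153)) (.nd (nat_lit 26) (.lf (nat_lit 6176)) (.lf (nat_lit 5185))))) (.nd (nat_lit 30) (.nd (nat_lit 28) (.lf (nat_lit 7200)) (.nd (nat_lit 29) (.lf (nat_lit 6240)) (.lf (nat_lit 5152)))) (.nd (nat_lit 31) (.lf (nat_lit 7232)) (.nd (nat_lit 32) (.lf (nat_lit 7264)) (.lf (nat_lit 5152)))))) (.nd (nat_lit 39) (.nd (nat_lit 36) (.nd (nat_lit 34) (.lf (nat_lit 7201)) (.nd (nat_lit 35) (.lf (nat_lit 5152)) (.lf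 (nat_lit 7233)))) (.nd (nat_lit 37) (.lf (nat_lit 7265)) (.nd (nat_lit 38) (.lf (nat_lit 5152)) (.lf (nat_lit 5152))))) (.nd (nat_lit 42) (.nd (nat_lit 40) (.lf (nat_lit 5152)) (.nd (nat_lit 41) (.lf (nat_lit 5152)) (.lf (nat_lit 5152)))) (.nd (nat_lit 43) (.lf (nat_lit 5152)) (.nd (nat_lit 44) (.lf (nat_lit 5152)) (.lf (nat_lit 5152)))))))) (.nd (nat_lit 67) (.nd (nat_lit 56) (.nd (nat_lit 50) (.nd (nat_lit 47) (.nd (nat_lit 46) (.lf (nat_lit 5249)) (.lf (nat_lit 6272))) (.nd (nat_lit 48) (.lf (nat_lit 5281)) (.nd (nat_lit 49) (.lf (nat_lit 7296)) (.lf (nat_lit 5152))))) (.nd (nat_lit 53) (.nd (nat_lit 51) (.lf (nat_lit 7328)) (.nd (nat_lit 52) (.lf (nat_lit 5152)) (.lf (nat_lit 7297)))) (.nd (nat_lit 54) (.lf (nat_lit 6336)) (.nd (nat_lit 55) (.lf (nat_lit 7329)) (.lf (nat_lit 7360)))))) (.nd (nat_lit 61) (.nd (nat_lit 58) (.nd (nat_lit 57) (.lf (nat_lit 5152)) (.lf (nat_lit 7392))) (.nd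 (nat_lit 59) (.lf (nat_lit 5152)) (.nd (nat_lit 60) (.lf (nat_lit 7361)) (.lf (nat_lit 5152))))) (.nd (nat_lit 64) (.nd (nat_lit 62) (.lf (nat_lit 7393)) (.nd (nat_lit 63) (.lf (nat_lit 5152)) (.lf (nat_lit 5152)))) (.nd (nat_lit 65) (.lf (nat_lit 5152)) (.nd (nat_lit 66) (.lf (nat_lit 5152)) (.lf (nat_lit 5152))))))) (.nd (nat_lit 78) (.nd (nat_lit 72) (.nd (nat_lit 69) (.nd (nat_lit 68) (.lf (nat_lit 5152)) (.lf (nat_lit 7300))) (.nd (nat_lit 70) (.lf (nat_lit 7332)) (.nd (nat_lit 71) (.lf (nat_lit 5152)) (.lf (nat_lit 5152))))) (.nd (nat_lit 75) (.nd (nat_lit 73) (.lf (nat_lit 7364)) (.nd (nat_lit 74) (.lf (nat_lit 7396)) (.lf (nat_lit 5152)))) (.nd (nat_lit 76) (.lf (nat_lit 5152)) (.nd (nat_lit 77) (.lf (nat_lit 5152)) (.lf (nat_lit 5152)))))) (.nd (nat_lit 84) (.nd (nat_lit 81) (.nd (nat_lit 79) (.lf (nat_lit 5152)) (.nd (nat_lit 80) (.lf (nat_lit 5152)) (.lf (nat_lit 10240)))) (.nd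 (nat_lit 82) (.lf (nat_lit 9248)) (.nd (nat_lit 83) (.lf (nat_lit 11264)) (.lf (nat_lit 5152))))) (.nd (nat_lit 87) (.nd (nat_lit 85) (.lf (nat_lit 5152)) (.nd (nat_lit 86) (.lf (nat_lit 10272)) (.lf (nat_lit 9249)))) (.nd (nat_lit 88) (.lf (nat_lit 10304)) (.nd (nat_lit 89) (.lf (nat_lit 11296)) (.lf (nat_lit 9313))))))))) (.nd (nat_lit 135) (.nd (nat_lit 112) (.nd (nat_lit 101) (.nd (nat_lit 95) (.nd (nat_lit 92) (.nd (nat_lit 91) (.lf (nat_lit 11328)) (.lf (nat_lit 11360))) (.nd (nat_lit 93) (.lf (nat_lit 5152)) (.nd (nat_lit 94) (.lf (nat_lit 5152)) (.lf (nat_lit 5152))))) (.nd (nat_lit 98) (.nd (nat_lit 96) (.lf (nat_lit 11297)) (.nd (nat_lit 97) (.lf (nat_lit 5152)) (.lf (nat_lit 11329)))) (.nd (nat_lit 99) (.lf (nat_lit 11361)) (.nd (nat_lit 100) (.lf (nat_lit 5152)) (.lf (nat_lit 5152)))))) (.nd (nat_lit 106) (.nd (nat_lit 103) (.nd (nat_lit 102) (.lf (nat_lit 5152)) (.lf (nat_lit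 5152))) (.nd (nat_lit 104) (.lf (nat_lit 12288)) (.nd (nat_lit 105) (.lf (nat_lit 13312)) (.lf (nat_lit 14336))))) (.nd (nat_lit 109) (.nd (nat_lit 107) (.lf (nat_lit 5152)) (.nd (nat_lit 108) (.lf (nat_lit 12320)) (.lf (nat_lit 13344)))) (.nd (nat_lit 110) (.lf (nat_lit 12352)) (.nd (nat_lit 111) (.lf (nat_lit 15360)) (.lf (nat_lit 13408))))))) (.nd (nat_lit 123) (.nd (nat_lit 117) (.nd (nat_lit 114) (.nd (nat_lit 113) (.lf (nat_lit 14400)) (.lf (nat_lit 14432))) (.nd (nat_lit 115) (.lf (nat_lit 12321)) (.nd (nat_lit 116) (.lf (nat_lit 13345)) (.lf (nat_lit 12353))))) (.nd (nat_lit 120) (.nd (nat_lit 118) (.lf (nat_lit 15392)) (.nd (nat_lit 119) (.lf (nat_lit 13409)) (.lf (nat_lit 12354)))) (.nd (nat_lit 121) (.lf (nat_lit 15424)) (.nd (nat_lit 122) (.lf (nat_lit 15456)) (.lf (nat_lit 13411)))))) (.nd (nat_lit 129) (.nd (nat_lit 126) (.nd (nat_lit 124) (.lf (nat_lit 14402)) (.nd (nat_lit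 125) (.lf (nat_lit 11488)) (.lf (nat_lit 14435)))) (.nd (nat_lit 127) (.lf (nat_lit 15393)) (.nd (nat_lit 128) (.lf (nat_lit 15425)) (.lf (nat_lit 15457))))) (.nd (nat_lit 132) (.nd (nat_lit 130) (.lf (nat_lit 15426)) (.nd (nat_lit 131) (.lf (nat_lit 11489)) (.lf (nat_lit 15459)))) (.nd (nat_lit 133) (.lf (nat_lit 5152)) (.nd (nat_lit 134) (.lf (nat_lit 5152)) (.lf (nat_lit 5152)))))))) (.nd (nat_lit 158) (.nd (nat_lit 146) (.nd (nat_lit 140) (.nd (nat_lit 137) (.nd (nat_lit 136) (.lf (nat_lit 12416)) (.lf (nat_lit 13440))) (.nd (nat_lit 138) (.lf (nat_lit 12448)) (.nd (nat_lit 139) (.lf (nat_lit 14464)) (.lf (nat_lit 14496))))) (.nd (nat_lit 143) (.nd (nat_lit 141) (.lf (nat_lit 12417)) (.nd (nat_lit 142) (.lf (nat_lit 13441)) (.lf (nat_lit 12449)))) (.nd (nat_lit 144) (.lf (nat_lit 15488)) (.nd (nat_lit 145) (.lf (nat_lit 13504)) (.lf (nat_lit 12450)))))) (.nd (nat_lit 152) (.nd (nat_lit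 149) (.nd (nat_lit 147) (.lf (nat_lit 15520)) (.nd (nat_lit 148) (.lf (nat_lit 14528)) (.lf (nat_lit 14498)))) (.nd (nat_lit 150) (.lf (nat_lit 14560)) (.nd (nat_lit 151) (.lf (nat_lit 15489)) (.lf (nat_lit 13505))))) (.nd (nat_lit 155) (.nd (nat_lit 153) (.lf (nat_lit 15521)) (.nd (nat_lit 154) (.lf (nat_lit 15552)) (.lf (nat_lit 13507)))) (.nd (nat_lit 156) (.lf (nat_lit 15522)) (.nd (nat_lit 157) (.lf (nat_lit 15584)) (.lf (nat_lit 14531))))))) (.nd (nat_lit 169) (.nd (nat_lit 163) (.nd (nat_lit 160) (.nd (nat_lit 159) (.lf (nat_lit 14562)) (.lf (nat_lit 14563))) (.nd (nat_lit 161) (.lf (nat_lit 15553)) (.nd (nat_lit 162) (.lf (nat_lit 15585)) (.lf (nat_lit 15555))))) (.nd (nat_lit 166) (.nd (nat_lit 164) (.lf (nat_lit 15586)) (.nd (nat_lit 165) (.lf (nat_lit 15587)) (.lf (nat_lit 5152)))) (.nd (nat_lit 167) (.lf (nat_lit 5152)) (.nd (nat_lit 168) (.lf (nat_lit 5152)) (.lf (nat_lit 5152))))))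 (.nd (nat_lit 175) (.nd (nat_lit 172) (.nd (nat_lit 170) (.lf (nat_lit 14468)) (.nd (nat_lit 171) (.lf (nat_lit 5152)) (.lf (nat_lit 14500)))) (.nd (nat_lit 173) (.lf (nat_lit 5152)) (.nd (nat_lit 174) (.lf (nat_lit 15492)) (.lf (nat_lit 5152))))) (.nd (nat_lit 178) (.nd (nat_lit 176) (.lf (nat_lit 15524)) (.nd (nat_lit 177) (.lf (nat_lit 14532)) (.lf (nat_lit 15525)))) (.nd (nat_lit 179) (.lf (nat_lit 14564)) (.nd (nat_lit 180) (.lf (nat_lit 5152)) (.lf (nat_lit 15556)))))))))) (.nd (nat_lit 271) (.nd (nat_lit 226) (.nd (nat_lit 203) (.nd (nat_lit 192) (.nd (nat_lit 186) (.nd (nat_lit 183) (.nd (nat_lit 182) (.lf (nat_lit 5152)) (.lf (nat_lit 15588))) (.nd (nat_lit 184) (.lf (nat_lit 14534)) (.nd (nat_lit 185) (.lf (nat_lit 15589)) (.lf (nat_lit 14566))))) (.nd (nat_lit 189) (.nd (nat_lit 187) (.lf (nat_lit 5152)) (.nd (nat_lit 188) (.lf (nat_lit 5152)) (.lf (nat_lit 5152)))) (.nd (nat_lit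 190) (.lf (nat_lit 5152)) (.nd (nat_lit 191) (.lf (nat_lit 5152)) (.lf (nat_lit 5152)))))) (.nd (nat_lit 197) (.nd (nat_lit 194) (.nd (nat_lit 193) (.lf (nat_lit 5152)) (.lf (nat_lit 5152))) (.nd (nat_lit 195) (.lf (nat_lit 10496)) (.nd (nat_lit 196) (.lf (nat_lit 9473)) (.lf (nat_lit 11520))))) (.nd (nat_lit 200) (.nd (nat_lit 198) (.lf (nat_lit 9505)) (.nd (nat_lit 199) (.lf (nat_lit 11552)) (.lf (nat_lit 5152)))) (.nd (nat_lit 201) (.lf (nat_lit 5152)) (.nd (nat_lit 202) (.lf (nat_lit 10560)) (.lf (nat_lit 11521))))))) (.nd (nat_lit 214) (.nd (nat_lit 208) (.nd (nat_lit 205) (.nd (nat_lit 204) (.lf (nat_lit 11584)) (.lf (nat_lit 11553))) (.nd (nat_lit 206) (.lf (nat_lit 11616)) (.nd (nat_lit 207) (.lf (nat_lit 5152)) (.lf (nat_lit 5152))))) (.nd (nat_lit 211) (.nd (nat_lit 209) (.lf (nat_lit 5152)) (.nd (nat_lit 210) (.lf (nat_lit 11585)) (.lf (nat_lit 5152)))) (.nd (nat_lit 212) (.lf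 (nat_lit 11617)) (.nd (nat_lit 213) (.lf (nat_lit 5152)) (.lf (nat_lit 5152)))))) (.nd (nat_lit 220) (.nd (nat_lit 217) (.nd (nat_lit 215) (.lf (nat_lit 5152)) (.nd (nat_lit 216) (.lf (nat_lit 12544)) (.lf (nat_lit 13568)))) (.nd (nat_lit 218) (.lf (nat_lit 14592)) (.nd (nat_lit 219) (.lf (nat_lit 13600)) (.lf (nat_lit 14624))))) (.nd (nat_lit 223) (.nd (nat_lit 221) (.lf (nat_lit 12545)) (.nd (nat_lit 222) (.lf (nat_lit 13569)) (.lf (nat_lit 12608)))) (.nd (nat_lit 224) (.lf (nat_lit 15616)) (.nd (nat_lit 225) (.lf (nat_lit 13601)) (.lf (nat_lit 14656)))))))) (.nd (nat_lit 248) (.nd (nat_lit 237) (.nd (nat_lit 231) (.nd (nat_lit 228) (.nd (nat_lit 227) (.lf (nat_lit 15648)) (.lf (nat_lit 13603))) (.nd (nat_lit 229) (.lf (nat_lit 14688)) (.nd (nat_lit 230) (.lf (nat_lit 14627)) (.lf (nat_lit 12609))))) (.nd (nat_lit 234) (.nd (nat_lit 232) (.lf (nat_lit 15617)) (.nd (nat_lit 233) (.lf (nat_lit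 12610)) (.lf (nat_lit 15680)))) (.nd (nat_lit 235) (.lf (nat_lit 15649)) (.nd (nat_lit 236) (.lf (nat_lit 14658)) (.lf (nat_lit 15712)))))) (.nd (nat_lit 242) (.nd (nat_lit 239) (.nd (nat_lit 238) (.lf (nat_lit 15651)) (.lf (nat_lit 14690))) (.nd (nat_lit 240) (.lf (nat_lit 14691)) (.nd (nat_lit 241) (.lf (nat_lit 15681)) (.lf (nat_lit 15682))))) (.nd (nat_lit 245) (.nd (nat_lit 243) (.lf (nat_lit 15713)) (.nd (nat_lit 244) (.lf (nat_lit 15714)) (.lf (nat_lit 15715)))) (.nd (nat_lit 246) (.lf (nat_lit 5152)) (.nd (nat_lit 247) (.lf (nat_lit 5152)) (.lf (nat_lit 5152))))))) (.nd (nat_lit 259) (.nd (nat_lit 253) (.nd (nat_lit 250) (.nd (nat_lit 249) (.lf (nat_lit 12672)) (.lf (nat_lit 13696))) (.nd (nat_lit 251) (.lf (nat_lit 13728)) (.nd (nat_lit 252) (.lf (nat_lit 14720)) (.lf (nat_lit 14752))))) (.nd (nat_lit 256) (.nd (nat_lit 254) (.lf (nat_lit 14784)) (.nd (nat_lit 255) (.lf (nat_lit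 12673)) (.lf (nat_lit 13697)))) (.nd (nat_lit 257) (.lf (nat_lit 13729)) (.nd (nat_lit 258) (.lf (nat_lit 12674)) (.lf (nat_lit 15744)))))) (.nd (nat_lit 265) (.nd (nat_lit 262) (.nd (nat_lit 260) (.lf (nat_lit 15776)) (.nd (nat_lit 261) (.lf (nat_lit 13731)) (.lf (nat_lit 14722)))) (.nd (nat_lit 263) (.lf (nat_lit 15808)) (.nd (nat_lit 264) (.lf (nat_lit 14755)) (.lf (nat_lit 14786))))) (.nd (nat_lit 268) (.nd (nat_lit 266) (.lf (nat_lit 14787)) (.nd (nat_lit 267) (.lf (nat_lit 15745)) (.lf (nat_lit 15777)))) (.nd (nat_lit 269) (.lf (nat_lit 15746)) (.nd (nat_lit 270) (.lf (nat_lit 15840)) (.lf (nat_lit 15779))))))))) (.nd (nat_lit 316) (.nd (nat_lit 293) (.nd (nat_lit 282) (.nd (nat_lit 276) (.nd (nat_lit 273) (.nd (nat_lit 272) (.lf (nat_lit 15810)) (.lf (nat_lit 15811))) (.nd (nat_lit 274) (.lf (nat_lit 5152)) (.nd (nat_lit 275) (.lf (nat_lit 15841)) (.lf (nat_lit 15842))))) (.nd (nat_lit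 279) (.nd (nat_lit 277) (.lf (nat_lit 15843)) (.nd (nat_lit 278) (.lf (nat_lit 5152)) (.lf (nat_lit 5152)))) (.nd (nat_lit 280) (.lf (nat_lit 5152)) (.nd (nat_lit 281) (.lf (nat_lit 5152)) (.lf (nat_lit 5152)))))) (.nd (nat_lit 287) (.nd (nat_lit 284) (.nd (nat_lit 283) (.lf (nat_lit 14724)) (.lf (nat_lit 14756))) (.nd (nat_lit 285) (.lf (nat_lit 5152)) (.nd (nat_lit 286) (.lf (nat_lit 14788)) (.lf (nat_lit 5152))))) (.nd (nat_lit 290) (.nd (nat_lit 288) (.lf (nat_lit 15748)) (.nd (nat_lit 289) (.lf (nat_lit 15780)) (.lf (nat_lit 5152)))) (.nd (nat_lit 291) (.lf (nat_lit 15749)) (.nd (nat_lit 292) (.lf (nat_lit 15812)) (.lf (nat_lit 14758))))))) (.nd (nat_lit 304) (.nd (nat_lit 298) (.nd (nat_lit 295) (.nd (nat_lit 294) (.lf (nat_lit 15813)) (.lf (nat_lit 14790))) (.nd (nat_lit 296) (.lf (nat_lit 5152)) (.nd (nat_lit 297) (.lf (nat_lit 15844)) (.lf (nat_lit 5152))))) (.nd (nat_lit 301) (.nd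 (nat_lit 299) (.lf (nat_lit 15845)) (.nd (nat_lit 300) (.lf (nat_lit 15814)) (.lf (nat_lit 5152)))) (.nd (nat_lit 302) (.lf (nat_lit 5152)) (.nd (nat_lit 303) (.lf (nat_lit 5152)) (.lf (nat_lit 5152)))))) (.nd (nat_lit 310) (.nd (nat_lit 307) (.nd (nat_lit 305) (.lf (nat_lit 5152)) (.nd (nat_lit 306) (.lf (nat_lit 5152)) (.lf (nat_lit 11528)))) (.nd (nat_lit 308) (.lf (nat_lit 11560)) (.nd (nat_lit 309) (.lf (nat_lit 5152)) (.lf (nat_lit 5152))))) (.nd (nat_lit 313) (.nd (nat_lit 311) (.lf (nat_lit 11592)) (.nd (nat_lit 312) (.lf (nat_lit 11624)) (.lf (nat_lit 5152)))) (.nd (nat_lit 314) (.lf (nat_lit 5152)) (.nd (nat_lit 315) (.lf (nat_lit 5152)) (.lf (nat_lit 5152)))))))) (.nd (nat_lit 339) (.nd (nat_lit 327) (.nd (nat_lit 321) (.nd (nat_lit 318) (.nd (nat_lit 317) (.lf (nat_lit 5152)) (.lf (nat_lit 14600))) (.nd (nat_lit 319) (.lf (nat_lit 5152)) (.nd (nat_lit 320) (.lf (nat_lit 14632))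 (.lf (nat_lit 5152))))) (.nd (nat_lit 324) (.nd (nat_lit 322) (.lf (nat_lit 5152)) (.nd (nat_lit 323) (.lf (nat_lit 5152)) (.lf (nat_lit 15624)))) (.nd (nat_lit 325) (.lf (nat_lit 14664)) (.nd (nat_lit 326) (.lf (nat_lit 15656)) (.lf (nat_lit 14696)))))) (.nd (nat_lit 333) (.nd (nat_lit 330) (.nd (nat_lit 328) (.lf (nat_lit 15657)) (.nd (nat_lit 329) (.lf (nat_lit 5152)) (.lf (nat_lit 5152)))) (.nd (nat_lit 331) (.lf (nat_lit 15688)) (.nd (nat_lit 332) (.lf (nat_lit 14666)) (.lf (nat_lit 15720))))) (.nd (nat_lit 336) (.nd (nat_lit 334) (.lf (nat_lit 14698)) (.nd (nat_lit 335) (.lf (nat_lit 15721)) (.lf (nat_lit 5152)))) (.nd (nat_lit 337) (.lf (nat_lit 5152)) (.nd (nat_lit 338) (.lf (nat_lit 5152)) (.lf (nat_lit 5152))))))) (.nd (nat_lit 350) (.nd (nat_lit 344) (.nd (nat_lit 341) (.nd (nat_lit 340) (.lf (nat_lit 5152)) (.lf (nat_lit 5152))) (.nd (nat_lit 342) (.lf (nat_lit 5152)) (.nd (nat_lit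 343) (.lf (nat_lit 14728)) (.lf (nat_lit 14760))))) (.nd (nat_lit 347) (.nd (nat_lit 345) (.lf (nat_lit 5152)) (.nd (nat_lit 346) (.lf (nat_lit 14792)) (.lf (nat_lit 5152)))) (.nd (nat_lit 348) (.lf (nat_lit 5152)) (.nd (nat_lit 349) (.lf (nat_lit 5152)) (.lf (nat_lit 15752)))))) (.nd (nat_lit 356) (.nd (nat_lit 353) (.nd (nat_lit 351) (.lf (nat_lit 15784)) (.nd (nat_lit 352) (.lf (nat_lit 14730)) (.lf (nat_lit 15816)))) (.nd (nat_lit 354) (.lf (nat_lit 15785)) (.nd (nat_lit 355) (.lf (nat_lit 14794)) (.lf (nat_lit 15817))))) (.nd (nat_lit 359) (.nd (nat_lit 357) (.lf (nat_lit 5152)) (.nd (nat_lit 358) (.lf (nat_lit 5152)) (.lf (nat_lit 15848)))) (.nd (nat_lit 360) (.lf (nat_lit 15818)) (.nd (nat_lit 361) (.lf (nat_lit 15849)) (.lf (nat_lit 5152))))))))))) (.nd (nat_lit 543) (.nd (nat_lit 452) (.nd (nat_lit 407) (.nd (nat_lit 384) (.nd (nat_lit 373) (.nd (nat_lit 367) (.nd (nat_lit 364) (.nd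 (nat_lit 363) (.lf (nat_lit 5152)) (.lf (nat_lit 5152))) (.nd (nat_lit 365) (.lf (nat_lit 5152)) (.nd (nat_lit 366) (.lf (nat_lit 5152)) (.lf (nat_lit 5152))))) (.nd (nat_lit 370) (.nd (nat_lit 368) (.lf (nat_lit 5152)) (.nd (nat_lit 369) (.lf (nat_lit 5152)) (.lf (nat_lit 5152)))) (.nd (nat_lit 371) (.lf (nat_lit 5152)) (.nd (nat_lit 372) (.lf (nat_lit 5152)) (.lf (nat_lit 5152)))))) (.nd (nat_lit 378) (.nd (nat_lit 375) (.nd (nat_lit 374) (.lf (nat_lit 5152)) (.lf (nat_lit 5152))) (.nd (nat_lit 376) (.lf (nat_lit 5152)) (.nd (nat_lit 377) (.lf (nat_lit 5152)) (.lf (nat_lit 5152))))) (.nd (nat_lit 381) (.nd (nat_lit 379) (.lf (nat_lit 5152)) (.nd (nat_lit 380) (.lf (nat_lit 5152)) (.lf (nat_lit 5152)))) (.nd (nat_lit 382) (.lf (nat_lit 5152)) (.nd (nat_lit 383) (.lf (nat_lit 18432)) (.lf (nat_lit 19456))))))) (.nd (nat_lit 395) (.nd (nat_lit 389) (.nd (nat_lit 386) (.nd (nat_lit 385) (.lf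 (nat_lit 5152)) (.lf (nat_lit 17472))) (.nd (nat_lit 387) (.lf (nat_lit 5152)) (.nd (nat_lit 388) (.lf (nat_lit 18464)) (.lf (nat_lit 19488))))) (.nd (nat_lit 392) (.nd (nat_lit 390) (.lf (nat_lit 18496)) (.nd (nat_lit 391) (.lf (nat_lit 19520)) (.lf (nat_lit 19552)))) (.nd (nat_lit 393) (.lf (nat_lit 5152)) (.nd (nat_lit 394) (.lf (nat_lit 17474)) (.lf (nat_lit 17506)))))) (.nd (nat_lit 401) (.nd (nat_lit 398) (.nd (nat_lit 396) (.lf (nat_lit 5152)) (.nd (nat_lit 397) (.lf (nat_lit 5152)) (.lf (nat_lit 5152)))) (.nd (nat_lit 399) (.lf (nat_lit 5152)) (.nd (nat_lit 400) (.lf (nat_lit 19521)) (.lf (nat_lit 5152))))) (.nd (nat_lit 404) (.nd (nat_lit 402) (.lf (nat_lit 5152)) (.nd (nat_lit 403) (.lf (nat_lit 19522)) (.lf (nat_lit 19554)))) (.nd (nat_lit 405) (.lf (nat_lit 5152)) (.nd (nat_lit 406) (.lf (nat_lit 20480)) (.lf (nat_lit 21504)))))))) (.nd (nat_lit 429) (.nd (nat_lit 418) (.nd (nat_lit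 412) (.nd (nat_lit 409) (.nd (nat_lit 408) (.lf (nat_lit 5152)) (.lf (nat_lit 22528))) (.nd (nat_lit 410) (.lf (nat_lit 20512)) (.nd (nat_lit 411) (.lf (nat_lit 21536)) (.lf (nat_lit 20544))))) (.nd (nat_lit 415) (.nd (nat_lit 413) (.lf (nat_lit 23552)) (.nd (nat_lit 414) (.lf (nat_lit 21600)) (.lf (nat_lit 5152)))) (.nd (nat_lit 416) (.lf (nat_lit 22592)) (.nd (nat_lit 417) (.lf (nat_lit 22624)) (.lf (nat_lit 20513)))))) (.nd (nat_lit 423) (.nd (nat_lit 420) (.nd (nat_lit 419) (.lf (nat_lit 21537)) (.lf (nat_lit 20545))) (.nd (nat_lit 421) (.lf (nat_lit 23584)) (.nd (nat_lit 422) (.lf (nat_lit 19648)) (.lf (nat_lit 20546))))) (.nd (nat_lit 426) (.nd (nat_lit 424) (.lf (nat_lit 23616)) (.nd (nat_lit 425) (.lf (nat_lit 23648)) (.lf (nat_lit 21603)))) (.nd (nat_lit 427) (.lf (nat_lit 22594)) (.nd (nat_lit 428) (.lf (nat_lit 22626)) (.lf (nat_lit 22627))))))) (.nd (nat_lit 440) (.nd (nat_lit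 434) (.nd (nat_lit 431) (.nd (nat_lit 430) (.lf (nat_lit 23585)) (.lf (nat_lit 5152))) (.nd (nat_lit 432) (.lf (nat_lit 23617)) (.nd (nat_lit 433) (.lf (nat_lit 23649)) (.lf (nat_lit 5152))))) (.nd (nat_lit 437) (.nd (nat_lit 435) (.lf (nat_lit 23618)) (.nd (nat_lit 436) (.lf (nat_lit 23650)) (.lf (nat_lit 23651)))) (.nd (nat_lit 438) (.lf (nat_lit 20608)) (.nd (nat_lit 439) (.lf (nat_lit 21632)) (.lf (nat_lit 20640)))))) (.nd (nat_lit 446) (.nd (nat_lit 443) (.nd (nat_lit 441) (.lf (nat_lit 22656)) (.nd (nat_lit 442) (.lf (nat_lit 5152)) (.lf (nat_lit 22688)))) (.nd (nat_lit 444) (.lf (nat_lit 20609)) (.nd (nat_lit 445) (.lf (nat_lit 21633)) (.lf (nat_lit 20641))))) (.nd (nat_lit 449) (.nd (nat_lit 447) (.lf (nat_lit 23680)) (.nd (nat_lit 448) (.lf (nat_lit 21696)) (.lf (nat_lit 20642)))) (.nd (nat_lit 450) (.lf (nat_lit 23712)) (.nd (nat_lit 451) (.lf (nat_lit 22720)) (.lf (nat_lit 22690)))))))))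 (.nd (nat_lit 497) (.nd (nat_lit 474) (.nd (nat_lit 463) (.nd (nat_lit 457) (.nd (nat_lit 454) (.nd (nat_lit 453) (.lf (nat_lit 22752)) (.lf (nat_lit 23681))) (.nd (nat_lit 455) (.lf (nat_lit 21697)) (.nd (nat_lit 456) (.lf (nat_lit 23713)) (.lf (nat_lit 23744))))) (.nd (nat_lit 460) (.nd (nat_lit 458) (.lf (nat_lit 21699)) (.nd (nat_lit 459) (.lf (nat_lit 23714)) (.lf (nat_lit 23776)))) (.nd (nat_lit 461) (.lf (nat_lit 22723)) (.nd (nat_lit 462) (.lf (nat_lit 22754)) (.lf (nat_lit 22755)))))) (.nd (nat_lit 468) (.nd (nat_lit 465) (.nd (nat_lit 464) (.lf (nat_lit 23745)) (.lf (nat_lit 5152))) (.nd (nat_lit 466) (.lf (nat_lit 23777)) (.nd (nat_lit 467) (.lf (nat_lit 23747)) (.lf (nat_lit 23778))))) (.nd (nat_lit 471) (.nd (nat_lit 469) (.lf (nat_lit 23779)) (.nd (nat_lit 470) (.lf (nat_lit 5152)) (.lf (nat_lit 5152)))) (.nd (nat_lit 472) (.lf (nat_lit 5152)) (.nd (nat_lit 473) (.lf (nat_lit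 22660)) (.lf (nat_lit 5152))))))) (.nd (nat_lit 485) (.nd (nat_lit 479) (.nd (nat_lit 476) (.nd (nat_lit 475) (.lf (nat_lit 22692)) (.lf (nat_lit 5152))) (.nd (nat_lit 477) (.lf (nat_lit 23684)) (.nd (nat_lit 478) (.lf (nat_lit 5152)) (.lf (nat_lit 23716))))) (.nd (nat_lit 482) (.nd (nat_lit 480) (.lf (nat_lit 22724)) (.nd (nat_lit 481) (.lf (nat_lit 23717)) (.lf (nat_lit 22756)))) (.nd (nat_lit 483) (.lf (nat_lit 5152)) (.nd (nat_lit 484) (.lf (nat_lit 23748)) (.lf (nat_lit 5152)))))) (.nd (nat_lit 491) (.nd (nat_lit 488) (.nd (nat_lit 486) (.lf (nat_lit 23780)) (.nd (nat_lit 487) (.lf (nat_lit 22726)) (.lf (nat_lit 23781)))) (.nd (nat_lit 489) (.lf (nat_lit 22758)) (.nd (nat_lit 490) (.lf (nat_lit 5152)) (.lf (nat_lit 5152))))) (.nd (nat_lit 494) (.nd (nat_lit 492) (.lf (nat_lit 5152)) (.nd (nat_lit 493) (.lf (nat_lit 5152)) (.lf (nat_lit 24576)))) (.nd (nat_lit 495) (.lf (nat_lit 25600))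 (.nd (nat_lit 496) (.lf (nat_lit 26624)) (.lf (nat_lit 5152)))))))) (.nd (nat_lit 520) (.nd (nat_lit 508) (.nd (nat_lit 502) (.nd (nat_lit 499) (.nd (nat_lit 498) (.lf (nat_lit 24608)) (.lf (nat_lit 25632))) (.nd (nat_lit 500) (.lf (nat_lit 24640)) (.nd (nat_lit 501) (.lf (nat_lit 27648)) (.lf (nat_lit 25696))))) (.nd (nat_lit 505) (.nd (nat_lit 503) (.lf (nat_lit 26688)) (.nd (nat_lit 504) (.lf (nat_lit 26720)) (.lf (nat_lit 5152)))) (.nd (nat_lit 506) (.lf (nat_lit 24609)) (.nd (nat_lit 507) (.lf (nat_lit 25633)) (.lf (nat_lit 18752)))))) (.nd (nat_lit 514) (.nd (nat_lit 511) (.nd (nat_lit 509) (.lf (nat_lit 27680)) (.nd (nat_lit 510) (.lf (nat_lit 25697)) (.lf (nat_lit 24642)))) (.nd (nat_lit 512) (.lf (nat_lit 27712)) (.nd (nat_lit 513) (.lf (nat_lit 27744)) (.lf (nat_lit 25699))))) (.nd (nat_lit 517) (.nd (nat_lit 515) (.lf (nat_lit 26690)) (.nd (nat_lit 516) (.lf (nat_lit 26722)) (.lf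 (nat_lit 26723)))) (.nd (nat_lit 518) (.lf (nat_lit 5152)) (.nd (nat_lit 519) (.lf (nat_lit 27681)) (.lf (nat_lit 5152))))))) (.nd (nat_lit 531) (.nd (nat_lit 525) (.nd (nat_lit 522) (.nd (nat_lit 521) (.lf (nat_lit 27713)) (.lf (nat_lit 27745))) (.nd (nat_lit 523) (.lf (nat_lit 27714)) (.nd (nat_lit 524) (.lf (nat_lit 27746)) (.lf (nat_lit 27747))))) (.nd (nat_lit 528) (.nd (nat_lit 526) (.lf (nat_lit 24704)) (.nd (nat_lit 527) (.lf (nat_lit 25728)) (.lf (nat_lit 24736)))) (.nd (nat_lit 529) (.lf (nat_lit 28672)) (.nd (nat_lit 530) (.lf (nat_lit 21792)) (.lf (nat_lit 26784)))))) (.nd (nat_lit 537) (.nd (nat_lit 534) (.nd (nat_lit 532) (.lf (nat_lit 22816)) (.nd (nat_lit 533) (.lf (nat_lit 24705)) (.lf (nat_lit 25729)))) (.nd (nat_lit 535) (.lf (nat_lit 20800)) (.nd (nat_lit 536) (.lf (nat_lit 28704)) (.lf (nat_lit 25792))))) (.nd (nat_lit 540) (.nd (nat_lit 538) (.lf (nat_lit 24738)) (.nd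 (nat_lit 539) (.lf (nat_lit 28736)) (.lf (nat_lit 28768)))) (.nd (nat_lit 541) (.lf (nat_lit 21795)) (.nd (nat_lit 542) (.lf (nat_lit 26786)) (.lf (nat_lit 26848)))))))))) (.nd (nat_lit 634) (.nd (nat_lit 588) (.nd (nat_lit 565) (.nd (nat_lit 554) (.nd (nat_lit 548) (.nd (nat_lit 545) (.nd (nat_lit 544) (.lf (nat_lit 22819)) (.lf (nat_lit 20801))) (.nd (nat_lit 546) (.lf (nat_lit 28705)) (.nd (nat_lit 547) (.lf (nat_lit 25793)) (.lf (nat_lit 20802))))) (.nd (nat_lit 551) (.nd (nat_lit 549) (.lf (nat_lit 23872)) (.nd (nat_lit 550) (.lf (nat_lit 27840)) (.lf (nat_lit 25795)))) (.nd (nat_lit 552) (.lf (nat_lit 28738)) (.nd (nat_lit 553) (.lf (nat_lit 27872)) (.lf (nat_lit 28771)))))) (.nd (nat_lit 559) (.nd (nat_lit 556) (.nd (nat_lit 555) (.lf (nat_lit 26850)) (.lf (nat_lit 26851))) (.nd (nat_lit 557) (.lf (nat_lit 23873)) (.nd (nat_lit 558) (.lf (nat_lit 27841)) (.lf (nat_lit 23874))))) (.nd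 (nat_lit 562) (.nd (nat_lit 560) (.lf (nat_lit 27873)) (.nd (nat_lit 561) (.lf (nat_lit 27843)) (.lf (nat_lit 27874)))) (.nd (nat_lit 563) (.lf (nat_lit 27875)) (.nd (nat_lit 564) (.lf (nat_lit 24708)) (.lf (nat_lit 25732))))))) (.nd (nat_lit 576) (.nd (nat_lit 570) (.nd (nat_lit 567) (.nd (nat_lit 566) (.lf (nat_lit 20864)) (.lf (nat_lit 28800))) (.nd (nat_lit 568) (.lf (nat_lit 21920)) (.nd (nat_lit 569) (.lf (nat_lit 24741)) (.lf (nat_lit 28832))))) (.nd (nat_lit 573) (.nd (nat_lit 571) (.lf (nat_lit 22944)) (.nd (nat_lit 572) (.lf (nat_lit 26789)) (.lf (nat_lit 22976)))) (.nd (nat_lit 574) (.lf (nat_lit 20865)) (.nd (nat_lit 575) (.lf (nat_lit 28801)) (.lf (nat_lit 21921)))))) (.nd (nat_lit 582) (.nd (nat_lit 579) (.nd (nat_lit 577) (.lf (nat_lit 20866)) (.nd (nat_lit 578) (.lf (nat_lit 23936)) (.lf (nat_lit 28864)))) (.nd (nat_lit 580) (.lf (nat_lit 21923)) (.nd (nat_lit 581) (.lf (nat_lit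 28834)) (.lf (nat_lit 28896))))) (.nd (nat_lit 585) (.nd (nat_lit 583) (.lf (nat_lit 22947)) (.nd (nat_lit 584) (.lf (nat_lit 22978)) (.lf (nat_lit 22979)))) (.nd (nat_lit 586) (.lf (nat_lit 23937)) (.nd (nat_lit 587) (.lf (nat_lit 28865)) (.lf (nat_lit 25798)))))))) (.nd (nat_lit 611) (.nd (nat_lit 599) (.nd (nat_lit 593) (.nd (nat_lit 590) (.nd (nat_lit 589) (.lf (nat_lit 23938)) (.lf (nat_lit 24032))) (.nd (nat_lit 591) (.lf (nat_lit 28867)) (.nd (nat_lit 592) (.lf (nat_lit 28898)) (.lf (nat_lit 28899))))) (.nd (nat_lit 596) (.nd (nat_lit 594) (.lf (nat_lit 26855)) (.nd (nat_lit 595) (.lf (nat_lit 24033)) (.lf (nat_lit 27846)))) (.nd (nat_lit 597) (.lf (nat_lit 24034)) (.nd (nat_lit 598) (.lf (nat_lit 24035)) (.lf (nat_lit 27879)))))) (.nd (nat_lit 605) (.nd (nat_lit 602) (.nd (nat_lit 600) (.lf (nat_lit 5152)) (.nd (nat_lit 601) (.lf (nat_lit 28804)) (.lf (nat_lit 5152)))) (.nd (nat_lit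 603) (.lf (nat_lit 5152)) (.nd (nat_lit 604) (.lf (nat_lit 28836)) (.lf (nat_lit 22948))))) (.nd (nat_lit 608) (.nd (nat_lit 606) (.lf (nat_lit 28837)) (.nd (nat_lit 607) (.lf (nat_lit 22980)) (.lf (nat_lit 5152)))) (.nd (nat_lit 609) (.lf (nat_lit 23940)) (.nd (nat_lit 610) (.lf (nat_lit 28868)) (.lf (nat_lit 5152))))))) (.nd (nat_lit 622) (.nd (nat_lit 616) (.nd (nat_lit 613) (.nd (nat_lit 612) (.lf (nat_lit 23941)) (.lf (nat_lit 28900))) (.nd (nat_lit 614) (.lf (nat_lit 22950)) (.nd (nat_lit 615) (.lf (nat_lit 28901)) (.lf (nat_lit 22982))))) (.nd (nat_lit 619) (.nd (nat_lit 617) (.lf (nat_lit 5152)) (.nd (nat_lit 618) (.lf (nat_lit 24036)) (.lf (nat_lit 28870)))) (.nd (nat_lit 620) (.lf (nat_lit 24037)) (.nd (nat_lit 621) (.lf (nat_lit 28902)) (.lf (nat_lit 28903)))))) (.nd (nat_lit 628) (.nd (nat_lit 625) (.nd (nat_lit 623) (.lf (nat_lit 5152)) (.nd (nat_lit 624) (.lf (nat_lit 5152))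 (.lf (nat_lit 24832)))) (.nd (nat_lit 626) (.lf (nat_lit 25856)) (.nd (nat_lit 627) (.lf (nat_lit 26880)) (.lf (nat_lit 25888))))) (.nd (nat_lit 631) (.nd (nat_lit 629) (.lf (nat_lit 26912)) (.nd (nat_lit 630) (.lf (nat_lit 5152)) (.lf (nat_lit 24833)))) (.nd (nat_lit 632) (.lf (nat_lit 25857)) (.nd (nat_lit 633) (.lf (nat_lit 24896)) (.lf (nat_lit 27904))))))))) (.nd (nat_lit 679) (.nd (nat_lit 656) (.nd (nat_lit 645) (.nd (nat_lit 639) (.nd (nat_lit 636) (.nd (nat_lit 635) (.lf (nat_lit 25889)) (.lf (nat_lit 26944))) (.nd (nat_lit 637) (.lf (nat_lit 27936)) (.nd (nat_lit 638) (.lf (nat_lit 25891)) (.lf (nat_lit 26976))))) (.nd (nat_lit 642) (.nd (nat_lit 640) (.lf (nat_lit 26915)) (.nd (nat_lit 641) (.lf (nat_lit 24897)) (.lf (nat_lit 27905)))) (.nd (nat_lit 643) (.lf (nat_lit 24898)) (.nd (nat_lit 644) (.lf (nat_lit 27968)) (.lf (nat_lit 27937)))))) (.nd (nat_lit 650) (.nd (nat_lit 647)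 (.nd (nat_lit 646) (.lf (nat_lit 26946)) (.lf (nat_lit 28000))) (.nd (nat_lit 648) (.lf (nat_lit 27939)) (.nd (nat_lit 649) (.lf (nat_lit 26978)) (.lf (nat_lit 26979))))) (.nd (nat_lit 653) (.nd (nat_lit 651) (.lf (nat_lit 5152)) (.nd (nat_lit 652) (.lf (nat_lit 27969)) (.lf (nat_lit 27970)))) (.nd (nat_lit 654) (.lf (nat_lit 28001)) (.nd (nat_lit 655) (.lf (nat_lit 28002)) (.lf (nat_lit 28003))))))) (.nd (nat_lit 667) (.nd (nat_lit 661) (.nd (nat_lit 658) (.nd (nat_lit 657) (.lf (nat_lit 24836)) (.lf (nat_lit 25860))) (.nd (nat_lit 659) (.lf (nat_lit 24960)) (.nd (nat_lit 660) (.lf (nat_lit 28928)) (.lf (nat_lit 26016))))) (.nd (nat_lit 664) (.nd (nat_lit 662) (.lf (nat_lit 27008)) (.nd (nat_lit 663) (.lf (nat_lit 28960)) (.lf (nat_lit 21801)))) (.nd (nat_lit 665) (.lf (nat_lit 27072)) (.nd (nat_lit 666) (.lf (nat_lit 22825)) (.lf (nat_lit 24961)))))) (.nd (nat_lit 673) (.nd (nat_lit 670)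 (.nd (nat_lit 668) (.lf (nat_lit 28929)) (.nd (nat_lit 669) (.lf (nat_lit 26017)) (.lf (nat_lit 24962)))) (.nd (nat_lit 671) (.lf (nat_lit 28992)) (.nd (nat_lit 672) (.lf (nat_lit 28064)) (.lf (nat_lit 26019))))) (.nd (nat_lit 676) (.nd (nat_lit 674) (.lf (nat_lit 27010)) (.nd (nat_lit 675) (.lf (nat_lit 29024)) (.lf (nat_lit 28963)))) (.nd (nat_lit 677) (.lf (nat_lit 27074)) (.nd (nat_lit 678) (.lf (nat_lit 27075)) (.lf (nat_lit 20810)))))))) (.nd (nat_lit 702) (.nd (nat_lit 690) (.nd (nat_lit 684) (.nd (nat_lit 681) (.nd (nat_lit 680) (.lf (nat_lit 28993)) (.lf (nat_lit 28065))) (.nd (nat_lit 682) (.lf (nat_lit 28994)) (.nd (nat_lit 683) (.lf (nat_lit 28128)) (.lf (nat_lit 28067))))) (.nd (nat_lit 687) (.nd (nat_lit 685) (.lf (nat_lit 29026)) (.nd (nat_lit 686) (.lf (nat_lit 29027)) (.lf (nat_lit 26983)))) (.nd (nat_lit 688) (.lf (nat_lit 23882)) (.nd (nat_lit 689) (.lf (nat_lit 28129))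 (.lf (nat_lit 28130)))))) (.nd (nat_lit 696) (.nd (nat_lit 693) (.nd (nat_lit 691) (.lf (nat_lit 28131)) (.nd (nat_lit 692) (.lf (nat_lit 28007)) (.lf (nat_lit 24964)))) (.nd (nat_lit 694) (.lf (nat_lit 28932)) (.nd (nat_lit 695) (.lf (nat_lit 26020)) (.lf (nat_lit 24965))))) (.nd (nat_lit 699) (.nd (nat_lit 697) (.lf (nat_lit 29056)) (.nd (nat_lit 698) (.lf (nat_lit 29088)) (.lf (nat_lit 21929)))) (.nd (nat_lit 700) (.lf (nat_lit 27013)) (.nd (nat_lit 701) (.lf (nat_lit 29120)) (.lf (nat_lit 22953))))))) (.nd (nat_lit 713) (.nd (nat_lit 707) (.nd (nat_lit 704) (.nd (nat_lit 703) (.lf (nat_lit 27077)) (.lf (nat_lit 22985))) (.nd (nat_lit 705) (.lf (nat_lit 20874)) (.nd (nat_lit 706) (.lf (nat_lit 29057)) (.lf (nat_lit 29089))))) (.nd (nat_lit 710) (.nd (nat_lit 708) (.lf (nat_lit 26022)) (.nd (nat_lit 709) (.lf (nat_lit 29058)) (.lf (nat_lit 29152)))) (.nd (nat_lit 711) (.lf (nat_lit 29091))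 (.nd (nat_lit 712) (.lf (nat_lit 29122)) (.lf (nat_lit 29123)))))) (.nd (nat_lit 719) (.nd (nat_lit 716) (.nd (nat_lit 714) (.lf (nat_lit 27079)) (.nd (nat_lit 715) (.lf (nat_lit 23946)) (.lf (nat_lit 29153)))) (.nd (nat_lit 717) (.lf (nat_lit 28070)) (.nd (nat_lit 718) (.lf (nat_lit 29154)) (.lf (nat_lit 29155))))) (.nd (nat_lit 722) (.nd (nat_lit 720) (.lf (nat_lit 29031)) (.nd (nat_lit 721) (.lf (nat_lit 24042)) (.lf (nat_lit 28134)))) (.nd (nat_lit 723) (.lf (nat_lit 28135)) (.nd (nat_lit 724) (.lf (nat_lit 5152)) (.lf (nat_lit 29060)))))))))))) (.nd (nat_lit 1088) (.nd (nat_lit 906) (.nd (nat_lit 815) (.nd (nat_lit 770) (.nd (nat_lit 747) (.nd (nat_lit 736) (.nd (nat_lit 730) (.nd (nat_lit 727) (.nd (nat_lit 726) (.lf (nat_lit 29092)) (.lf (nat_lit 5152))) (.nd (nat_lit 728) (.lf (nat_lit 29061)) (.nd (nat_lit 729) (.lf (nat_lit 29124)) (.lf (nat_lit 22957))))) (.nd (nat_lit 733) (.nd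 (nat_lit 731) (.lf (nat_lit 29125)) (.nd (nat_lit 732) (.lf (nat_lit 22989)) (.lf (nat_lit 5152)))) (.nd (nat_lit 734) (.lf (nat_lit 23948)) (.nd (nat_lit 735) (.lf (nat_lit 29156)) (.lf (nat_lit 29094)))))) (.nd (nat_lit 741) (.nd (nat_lit 738) (.nd (nat_lit 737) (.lf (nat_lit 29157)) (.lf (nat_lit 29126))) (.nd (nat_lit 739) (.lf (nat_lit 29127)) (.nd (nat_lit 740) (.lf (nat_lit 24044)) (.lf (nat_lit 29158))))) (.nd (nat_lit 744) (.nd (nat_lit 742) (.lf (nat_lit 29159)) (.nd (nat_lit 743) (.lf (nat_lit 5152)) (.lf (nat_lit 5152)))) (.nd (nat_lit 745) (.lf (nat_lit 5152)) (.nd (nat_lit 746) (.lf (nat_lit 26888)) (.lf (nat_lit 5152))))))) (.nd (nat_lit 758) (.nd (nat_lit 752) (.nd (nat_lit 749) (.nd (nat_lit 748) (.lf (nat_lit 26920)) (.lf (nat_lit 5152))) (.nd (nat_lit 750) (.lf (nat_lit 5152)) (.nd (nat_lit 751) (.lf (nat_lit 5152)) (.lf (nat_lit 27912))))) (.nd (nat_lit 755) (.nd (nat_lit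 753) (.lf (nat_lit 26952)) (.nd (nat_lit 754) (.lf (nat_lit 27944)) (.lf (nat_lit 26984)))) (.nd (nat_lit 756) (.lf (nat_lit 27945)) (.nd (nat_lit 757) (.lf (nat_lit 5152)) (.lf (nat_lit 5152)))))) (.nd (nat_lit 764) (.nd (nat_lit 761) (.nd (nat_lit 759) (.lf (nat_lit 27976)) (.nd (nat_lit 760) (.lf (nat_lit 26954)) (.lf (nat_lit 28008)))) (.nd (nat_lit 762) (.lf (nat_lit 26986)) (.nd (nat_lit 763) (.lf (nat_lit 28009)) (.lf (nat_lit 5152))))) (.nd (nat_lit 767) (.nd (nat_lit 765) (.lf (nat_lit 5152)) (.nd (nat_lit 766) (.lf (nat_lit 5152)) (.lf (nat_lit 5152)))) (.nd (nat_lit 768) (.lf (nat_lit 5152)) (.nd (nat_lit 769) (.lf (nat_lit 28936)) (.lf (nat_lit 5152)))))))) (.nd (nat_lit 792) (.nd (nat_lit 781) (.nd (nat_lit 775) (.nd (nat_lit 772) (.nd (nat_lit 771) (.lf (nat_lit 27016)) (.lf (nat_lit 28968))) (.nd (nat_lit 773) (.lf (nat_lit 5152)) (.nd (nat_lit 774) (.lf (nat_lit 27080)) (.lf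 (nat_lit 28969))))) (.nd (nat_lit 778) (.nd (nat_lit 776) (.lf (nat_lit 5152)) (.nd (nat_lit 777) (.lf (nat_lit 5152)) (.lf (nat_lit 29000)))) (.nd (nat_lit 779) (.lf (nat_lit 28072)) (.nd (nat_lit 780) (.lf (nat_lit 27018)) (.lf (nat_lit 29032)))))) (.nd (nat_lit 786) (.nd (nat_lit 783) (.nd (nat_lit 782) (.lf (nat_lit 28073)) (.lf (nat_lit 27082))) (.nd (nat_lit 784) (.lf (nat_lit 29033)) (.nd (nat_lit 785) (.lf (nat_lit 5152)) (.lf (nat_lit 29002))))) (.nd (nat_lit 789) (.nd (nat_lit 787) (.lf (nat_lit 28136)) (.nd (nat_lit 788) (.lf (nat_lit 29034)) (.lf (nat_lit 28137)))) (.nd (nat_lit 790) (.lf (nat_lit 29035)) (.nd (nat_lit 791) (.lf (nat_lit 5152)) (.lf (nat_lit 5152))))))) (.nd (nat_lit 803) (.nd (nat_lit 797) (.nd (nat_lit 794) (.nd (nat_lit 793) (.lf (nat_lit 5152)) (.lf (nat_lit 29064))) (.nd (nat_lit 795) (.lf (nat_lit 29096)) (.nd (nat_lit 796) (.lf (nat_lit 5152)) (.lf (nat_lit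 27020))))) (.nd (nat_lit 800) (.nd (nat_lit 798) (.lf (nat_lit 29128)) (.nd (nat_lit 799) (.lf (nat_lit 29097)) (.lf (nat_lit 27084)))) (.nd (nat_lit 801) (.lf (nat_lit 29129)) (.nd (nat_lit 802) (.lf (nat_lit 5152)) (.lf (nat_lit 29066)))))) (.nd (nat_lit 809) (.nd (nat_lit 806) (.nd (nat_lit 804) (.lf (nat_lit 29160)) (.nd (nat_lit 805) (.lf (nat_lit 28077)) (.lf (nat_lit 29130)))) (.nd (nat_lit 807) (.lf (nat_lit 29161)) (.nd (nat_lit 808) (.lf (nat_lit 29131)) (.lf (nat_lit 29162))))) (.nd (nat_lit 812) (.nd (nat_lit 810) (.lf (nat_lit 28141)) (.nd (nat_lit 811) (.lf (nat_lit 29163)) (.lf (nat_lit 5152)))) (.nd (nat_lit 813) (.lf (nat_lit 5152)) (.nd (nat_lit 814) (.lf (nat_lit 5152)) (.lf (nat_lit 5152))))))))) (.nd (nat_lit 860) (.nd (nat_lit 837) (.nd (nat_lit 826) (.nd (nat_lit 820) (.nd (nat_lit 817) (.nd (nat_lit 816) (.lf (nat_lit 5152)) (.lf (nat_lit 5152))) (.nd (nat_lit 818)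 (.lf (nat_lit 5152)) (.nd (nat_lit 819) (.lf (nat_lit 5152)) (.lf (nat_lit 5152))))) (.nd (nat_lit 823) (.nd (nat_lit 821) (.lf (nat_lit 5152)) (.nd (nat_lit 822) (.lf (nat_lit 5152)) (.lf (nat_lit 5152)))) (.nd (nat_lit 824) (.lf (nat_lit 5152)) (.nd (nat_lit 825) (.lf (nat_lit 5152)) (.lf (nat_lit 18944)))))) (.nd (nat_lit 831) (.nd (nat_lit 828) (.nd (nat_lit 827) (.lf (nat_lit 19968)) (.lf (nat_lit 20000))) (.nd (nat_lit 829) (.lf (nat_lit 5152)) (.nd (nat_lit 830) (.lf (nat_lit 17922)) (.lf (nat_lit 17954))))) (.nd (nat_lit 834) (.nd (nat_lit 832) (.lf (nat_lit 5152)) (.nd (nat_lit 833) (.lf (nat_lit 19008)) (.lf (nat_lit 20032)))) (.nd (nat_lit 835) (.lf (nat_lit 20064)) (.nd (nat_lit 836) (.lf (nat_lit 5152)) (.lf (nat_lit 19970))))))) (.nd (nat_lit 848) (.nd (nat_lit 842) (.nd (nat_lit 839) (.nd (nat_lit 838) (.lf (nat_lit 20002)) (.lf (nat_lit 5152))) (.nd (nat_lit 840) (.lf (nat_lit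 5152)) (.nd (nat_lit 841) (.lf (nat_lit 5152)) (.lf (nat_lit 5152))))) (.nd (nat_lit 845) (.nd (nat_lit 843) (.lf (nat_lit 5152)) (.nd (nat_lit 844) (.lf (nat_lit 20034)) (.lf (nat_lit 20066)))) (.nd (nat_lit 846) (.lf (nat_lit 5152)) (.nd (nat_lit 847) (.lf (nat_lit 20992)) (.lf (nat_lit 22016)))))) (.nd (nat_lit 854) (.nd (nat_lit 851) (.nd (nat_lit 849) (.lf (nat_lit 22048)) (.nd (nat_lit 850) (.lf (nat_lit 5152)) (.lf (nat_lit 23040)))) (.nd (nat_lit 852) (.lf (nat_lit 23072)) (.nd (nat_lit 853) (.lf (nat_lit 21056)) (.lf (nat_lit 22080))))) (.nd (nat_lit 857) (.nd (nat_lit 855) (.lf (nat_lit 22112)) (.nd (nat_lit 856) (.lf (nat_lit 20994)) (.lf (nat_lit 24064)))) (.nd (nat_lit 858) (.lf (nat_lit 24096)) (.nd (nat_lit 859) (.lf (nat_lit 22051)) (.lf (nat_lit 23042)))))))) (.nd (nat_lit 883) (.nd (nat_lit 871) (.nd (nat_lit 865) (.nd (nat_lit 862) (.nd (nat_lit 861) (.lf (nat_lit 23074))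 (.lf (nat_lit 23075))) (.nd (nat_lit 863) (.lf (nat_lit 21057)) (.nd (nat_lit 864) (.lf (nat_lit 22081)) (.lf (nat_lit 22113))))) (.nd (nat_lit 868) (.nd (nat_lit 866) (.lf (nat_lit 21058)) (.nd (nat_lit 867) (.lf (nat_lit 24128)) (.lf (nat_lit 24160)))) (.nd (nat_lit 869) (.lf (nat_lit 22115)) (.nd (nat_lit 870) (.lf (nat_lit 24066)) (.lf (nat_lit 24098)))))) (.nd (nat_lit 877) (.nd (nat_lit 874) (.nd (nat_lit 872) (.lf (nat_lit 24099)) (.nd (nat_lit 873) (.lf (nat_lit 24129)) (.lf (nat_lit 24161)))) (.nd (nat_lit 875) (.lf (nat_lit 5152)) (.nd (nat_lit 876) (.lf (nat_lit 24130)) (.lf (nat_lit 24162))))) (.nd (nat_lit 880) (.nd (nat_lit 878) (.lf (nat_lit 24163)) (.nd (nat_lit 879) (.lf (nat_lit 21120)) (.lf (nat_lit 22144)))) (.nd (nat_lit 881) (.lf (nat_lit 22176)) (.nd (nat_lit 882) (.lf (nat_lit 5152)) (.lf (nat_lit 23168))))))) (.nd (nat_lit 894) (.nd (nat_lit 888) (.nd (nat_lit 885)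 (.nd (nat_lit 884) (.lf (nat_lit 23200)) (.lf (nat_lit 5152))) (.nd (nat_lit 886) (.lf (nat_lit 23232)) (.nd (nat_lit 887) (.lf (nat_lit 21121)) (.lf (nat_lit 22145))))) (.nd (nat_lit 891) (.nd (nat_lit 889) (.lf (nat_lit 22177)) (.nd (nat_lit 890) (.lf (nat_lit 21122)) (.lf (nat_lit 24192)))) (.nd (nat_lit 892) (.lf (nat_lit 24224)) (.nd (nat_lit 893) (.lf (nat_lit 22179)) (.lf (nat_lit 23170)))))) (.nd (nat_lit 900) (.nd (nat_lit 897) (.nd (nat_lit 895) (.lf (nat_lit 24256)) (.nd (nat_lit 896) (.lf (nat_lit 23203)) (.lf (nat_lit 23234)))) (.nd (nat_lit 898) (.lf (nat_lit 23235)) (.nd (nat_lit 899) (.lf (nat_lit 24193)) (.lf (nat_lit 24225))))) (.nd (nat_lit 903) (.nd (nat_lit 901) (.lf (nat_lit 5152)) (.nd (nat_lit 902) (.lf (nat_lit 24194)) (.lf (nat_lit 24288)))) (.nd (nat_lit 904) (.lf (nat_lit 24227)) (.nd (nat_lit 905) (.lf (nat_lit 24258)) (.lf (nat_lit 24259)))))))))) (.nd (nat_lit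 997) (.nd (nat_lit 951) (.nd (nat_lit 928) (.nd (nat_lit 917) (.nd (nat_lit 911) (.nd (nat_lit 908) (.nd (nat_lit 907) (.lf (nat_lit 24289)) (.lf (nat_lit 5152))) (.nd (nat_lit 909) (.lf (nat_lit 24290)) (.nd (nat_lit 910) (.lf (nat_lit 24291)) (.lf (nat_lit 5152))))) (.nd (nat_lit 914) (.nd (nat_lit 912) (.lf (nat_lit 5152)) (.nd (nat_lit 913) (.lf (nat_lit 5152)) (.lf (nat_lit 5152)))) (.nd (nat_lit 915) (.lf (nat_lit 23172)) (.nd (nat_lit 916) (.lf (nat_lit 23204)) (.lf (nat_lit 5152)))))) (.nd (nat_lit 922) (.nd (nat_lit 919) (.nd (nat_lit 918) (.lf (nat_lit 23236)) (.lf (nat_lit 5152))) (.nd (nat_lit 920) (.lf (nat_lit 24196)) (.nd (nat_lit 921) (.lf (nat_lit 24228)) (.lf (nat_lit 5152))))) (.nd (nat_lit 925) (.nd (nat_lit 923) (.lf (nat_lit 24197)) (.nd (nat_lit 924) (.lf (nat_lit 24260)) (.lf (nat_lit 23206)))) (.nd (nat_lit 926) (.lf (nat_lit 24261)) (.nd (nat_lit 927) (.lf (nat_lit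 23238)) (.lf (nat_lit 5152))))))) (.nd (nat_lit 939) (.nd (nat_lit 933) (.nd (nat_lit 930) (.nd (nat_lit 929) (.lf (nat_lit 24292)) (.lf (nat_lit 5152))) (.nd (nat_lit 931) (.lf (nat_lit 24293)) (.nd (nat_lit 932) (.lf (nat_lit 24262)) (.lf (nat_lit 5152))))) (.nd (nat_lit 936) (.nd (nat_lit 934) (.lf (nat_lit 5152)) (.nd (nat_lit 935) (.lf (nat_lit 5152)) (.lf (nat_lit 25088)))) (.nd (nat_lit 937) (.lf (nat_lit 26112)) (.nd (nat_lit 938) (.lf (nat_lit 26144)) (.lf (nat_lit 27136)))))) (.nd (nat_lit 945) (.nd (nat_lit 942) (.nd (nat_lit 940) (.lf (nat_lit 27168)) (.nd (nat_lit 941) (.lf (nat_lit 5152)) (.lf (nat_lit 25152)))) (.nd (nat_lit 943) (.lf (nat_lit 26176)) (.nd (nat_lit 944) (.lf (nat_lit 26208)) (.lf (nat_lit 25090))))) (.nd (nat_lit 948) (.nd (nat_lit 946) (.lf (nat_lit 28160)) (.nd (nat_lit 947) (.lf (nat_lit 28192)) (.lf (nat_lit 26147)))) (.nd (nat_lit 949) (.lf (nat_lit 27138))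 (.nd (nat_lit 950) (.lf (nat_lit 27170)) (.lf (nat_lit 27171)))))))) (.nd (nat_lit 974) (.nd (nat_lit 962) (.nd (nat_lit 956) (.nd (nat_lit 953) (.nd (nat_lit 952) (.lf (nat_lit 25153)) (.lf (nat_lit 26177))) (.nd (nat_lit 954) (.lf (nat_lit 26209)) (.nd (nat_lit 955) (.lf (nat_lit 25154)) (.lf (nat_lit 28224))))) (.nd (nat_lit 959) (.nd (nat_lit 957) (.lf (nat_lit 28256)) (.nd (nat_lit 958) (.lf (nat_lit 26211)) (.lf (nat_lit 28162)))) (.nd (nat_lit 960) (.lf (nat_lit 28194)) (.nd (nat_lit 961) (.lf (nat_lit 28195)) (.lf (nat_lit 5152)))))) (.nd (nat_lit 968) (.nd (nat_lit 965) (.nd (nat_lit 963) (.lf (nat_lit 28225)) (.nd (nat_lit 964) (.lf (nat_lit 28257)) (.lf (nat_lit 28226)))) (.nd (nat_lit 966) (.lf (nat_lit 28258)) (.nd (nat_lit 967) (.lf (nat_lit 28259)) (.lf (nat_lit 25216))))) (.nd (nat_lit 971) (.nd (nat_lit 969) (.lf (nat_lit 26240)) (.nd (nat_lit 970) (.lf (nat_lit 26272)) (.lf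 (nat_lit 25093)))) (.nd (nat_lit 972) (.lf (nat_lit 29184)) (.nd (nat_lit 973) (.lf (nat_lit 29216)) (.lf (nat_lit 22057))))))) (.nd (nat_lit 985) (.nd (nat_lit 979) (.nd (nat_lit 976) (.nd (nat_lit 975) (.lf (nat_lit 27141)) (.lf (nat_lit 27328))) (.nd (nat_lit 977) (.lf (nat_lit 23081)) (.nd (nat_lit 978) (.lf (nat_lit 25217)) (.lf (nat_lit 26241))))) (.nd (nat_lit 982) (.nd (nat_lit 980) (.lf (nat_lit 26273)) (.nd (nat_lit 981) (.lf (nat_lit 25218)) (.lf (nat_lit 29248)))) (.nd (nat_lit 983) (.lf (nat_lit 29280)) (.nd (nat_lit 984) (.lf (nat_lit 26275)) (.lf (nat_lit 29186)))))) (.nd (nat_lit 991) (.nd (nat_lit 988) (.nd (nat_lit 986) (.lf (nat_lit 28352)) (.nd (nat_lit 987) (.lf (nat_lit 29219)) (.lf (nat_lit 27330)))) (.nd (nat_lit 989) (.lf (nat_lit 27331)) (.nd (nat_lit 990) (.lf (nat_lit 21066)) (.lf (nat_lit 29249))))) (.nd (nat_lit 994) (.nd (nat_lit 992) (.lf (nat_lit 29281)) (.nd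 (nat_lit 993) (.lf (nat_lit 26214)) (.lf (nat_lit 29250)))) (.nd (nat_lit 995) (.lf (nat_lit 28384)) (.nd (nat_lit 996) (.lf (nat_lit 29283)) (.lf (nat_lit 28354))))))))) (.nd (nat_lit 1042) (.nd (nat_lit 1019) (.nd (nat_lit 1008) (.nd (nat_lit 1002) (.nd (nat_lit 999) (.nd (nat_lit 998) (.lf (nat_lit 28355)) (.lf (nat_lit 24138))) (.nd (nat_lit 1000) (.lf (nat_lit 28385)) (.nd (nat_lit 1001) (.lf (nat_lit 28262)) (.lf (nat_lit 28386))))) (.nd (nat_lit 1005) (.nd (nat_lit 1003) (.lf (nat_lit 28387)) (.nd (nat_lit 1004) (.lf (nat_lit 25220)) (.lf (nat_lit 26244)))) (.nd (nat_lit 1006) (.lf (nat_lit 26276)) (.nd (nat_lit 1007) (.lf (nat_lit 25221)) (.lf (nat_lit 29312)))))) (.nd (nat_lit 1013) (.nd (nat_lit 1010) (.nd (nat_lit 1009) (.lf (nat_lit 29344)) (.lf (nat_lit 22185))) (.nd (nat_lit 1011) (.lf (nat_lit 29189)) (.nd (nat_lit 1012) (.lf (nat_lit 29376)) (.lf (nat_lit 23209))))) (.nd (nat_lit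 1016) (.nd (nat_lit 1014) (.lf (nat_lit 27333)) (.nd (nat_lit 1015) (.lf (nat_lit 23241)) (.lf (nat_lit 21130)))) (.nd (nat_lit 1017) (.lf (nat_lit 29313)) (.nd (nat_lit 1018) (.lf (nat_lit 29345)) (.lf (nat_lit 26278))))))) (.nd (nat_lit 1030) (.nd (nat_lit 1024) (.nd (nat_lit 1021) (.nd (nat_lit 1020) (.lf (nat_lit 29314)) (.lf (nat_lit 29408))) (.nd (nat_lit 1022) (.lf (nat_lit 29347)) (.nd (nat_lit 1023) (.lf (nat_lit 29378)) (.lf (nat_lit 29379))))) (.nd (nat_lit 1027) (.nd (nat_lit 1025) (.lf (nat_lit 27335)) (.nd (nat_lit 1026) (.lf (nat_lit 24202)) (.lf (nat_lit 29409)))) (.nd (nat_lit 1028) (.lf (nat_lit 29286)) (.nd (nat_lit 1029) (.lf (nat_lit 29410)) (.lf (nat_lit 29411)))))) (.nd (nat_lit 1036) (.nd (nat_lit 1033) (.nd (nat_lit 1031) (.lf (nat_lit 28359)) (.nd (nat_lit 1032) (.lf (nat_lit 24298)) (.lf (nat_lit 28390)))) (.nd (nat_lit 1034) (.lf (nat_lit 28391)) (.nd (nat_lit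 1035) (.lf (nat_lit 5152)) (.lf (nat_lit 29316))))) (.nd (nat_lit 1039) (.nd (nat_lit 1037) (.lf (nat_lit 29348)) (.nd (nat_lit 1038) (.lf (nat_lit 5152)) (.lf (nat_lit 29317)))) (.nd (nat_lit 1040) (.lf (nat_lit 29380)) (.nd (nat_lit 1041) (.lf (nat_lit 23213)) (.lf (nat_lit 29381)))))))) (.nd (nat_lit 1065) (.nd (nat_lit 1053) (.nd (nat_lit 1047) (.nd (nat_lit 1044) (.nd (nat_lit 1043) (.lf (nat_lit 23245)) (.lf (nat_lit 5152))) (.nd (nat_lit 1045) (.lf (nat_lit 24204)) (.nd (nat_lit 1046) (.lf (nat_lit 29412)) (.lf (nat_lit 29350))))) (.nd (nat_lit 1050) (.nd (nat_lit 1048) (.lf (nat_lit 29413)) (.nd (nat_lit 1049) (.lf (nat_lit 29382)) (.lf (nat_lit 29383)))) (.nd (nat_lit 1051) (.lf (nat_lit 24300)) (.nd (nat_lit 1052) (.lf (nat_lit 29414)) (.lf (nat_lit 29415)))))) (.nd (nat_lit 1059) (.nd (nat_lit 1056) (.nd (nat_lit 1054) (.lf (nat_lit 5152)) (.nd (nat_lit 1055) (.lf (nat_lit 25344))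 (.lf (nat_lit 26368)))) (.nd (nat_lit 1057) (.lf (nat_lit 26400)) (.nd (nat_lit 1058) (.lf (nat_lit 27392)) (.lf (nat_lit 27424))))) (.nd (nat_lit 1062) (.nd (nat_lit 1060) (.lf (nat_lit 5152)) (.nd (nat_lit 1061) (.lf (nat_lit 27456)) (.lf (nat_lit 5152)))) (.nd (nat_lit 1063) (.lf (nat_lit 25345)) (.nd (nat_lit 1064) (.lf (nat_lit 26369)) (.lf (nat_lit 26401))))))) (.nd (nat_lit 1076) (.nd (nat_lit 1070) (.nd (nat_lit 1067) (.nd (nat_lit 1066) (.lf (nat_lit 25346)) (.lf (nat_lit 28416))) (.nd (nat_lit 1068) (.lf (nat_lit 28448)) (.nd (nat_lit 1069) (.lf (nat_lit 26403)) (.lf (nat_lit 27394))))) (.nd (nat_lit 1073) (.nd (nat_lit 1071) (.lf (nat_lit 28480)) (.nd (nat_lit 1072) (.lf (nat_lit 27427)) (.lf (nat_lit 27458)))) (.nd (nat_lit 1074) (.lf (nat_lit 27459)) (.nd (nat_lit 1075) (.lf (nat_lit 5152)) (.lf (nat_lit 28417)))))) (.nd (nat_lit 1082) (.nd (nat_lit 1079) (.nd (nat_lit 1077)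 (.lf (nat_lit 28449)) (.nd (nat_lit 1078) (.lf (nat_lit 28418)) (.lf (nat_lit 28512)))) (.nd (nat_lit 1080) (.lf (nat_lit 28451)) (.nd (nat_lit 1081) (.lf (nat_lit 28482)) (.lf (nat_lit 28483))))) (.nd (nat_lit 1085) (.nd (nat_lit 1083) (.lf (nat_lit 5152)) (.nd (nat_lit 1084) (.lf (nat_lit 28513)) (.lf (nat_lit 28514)))) (.nd (nat_lit 1086) (.lf (nat_lit 28515)) (.nd (nat_lit 1087) (.lf (nat_lit 25348)) (.lf (nat_lit 26372))))))))))) (.nd (nat_lit 1269) (.nd (nat_lit 1178) (.nd (nat_lit 1133) (.nd (nat_lit 1110) (.nd (nat_lit 1099) (.nd (nat_lit 1093) (.nd (nat_lit 1090) (.nd (nat_lit 1089) (.lf (nat_lit 26404)) (.lf (nat_lit 25349))) (.nd (nat_lit 1091) (.lf (nat_lit 29440)) (.nd (nat_lit 1092) (.lf (nat_lit 29472)) (.lf (nat_lit 26281))))) (.nd (nat_lit 1096) (.nd (nat_lit 1094) (.lf (nat_lit 27397)) (.nd (nat_lit 1095) (.lf (nat_lit 29504)) (.lf (nat_lit 29225)))) (.nd (nat_lit 1097)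 (.lf (nat_lit 27461)) (.nd (nat_lit 1098) (.lf (nat_lit 27337)) (.lf (nat_lit 25226)))))) (.nd (nat_lit 1104) (.nd (nat_lit 1101) (.nd (nat_lit 1100) (.lf (nat_lit 29441)) (.lf (nat_lit 29473))) (.nd (nat_lit 1102) (.lf (nat_lit 26406)) (.nd (nat_lit 1103) (.lf (nat_lit 29442)) (.lf (nat_lit 29536))))) (.nd (nat_lit 1107) (.nd (nat_lit 1105) (.lf (nat_lit 29475)) (.nd (nat_lit 1106) (.lf (nat_lit 29506)) (.lf (nat_lit 29507)))) (.nd (nat_lit 1108) (.lf (nat_lit 27463)) (.nd (nat_lit 1109) (.lf (nat_lit 29258)) (.lf (nat_lit 29537))))))) (.nd (nat_lit 1121) (.nd (nat_lit 1115) (.nd (nat_lit 1112) (.nd (nat_lit 1111) (.lf (nat_lit 28454)) (.lf (nat_lit 29538))) (.nd (nat_lit 1113) (.lf (nat_lit 29539)) (.nd (nat_lit 1114) (.lf (nat_lit 28487)) (.lf (nat_lit 28394))))) (.nd (nat_lit 1118) (.nd (nat_lit 1116) (.lf (nat_lit 28518)) (.nd (nat_lit 1117) (.lf (nat_lit 28519)) (.lf (nat_lit 5152))))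 (.nd (nat_lit 1119) (.lf (nat_lit 29444)) (.nd (nat_lit 1120) (.lf (nat_lit 29476)) (.lf (nat_lit 5152)))))) (.nd (nat_lit 1127) (.nd (nat_lit 1124) (.nd (nat_lit 1122) (.lf (nat_lit 29445)) (.nd (nat_lit 1123) (.lf (nat_lit 29568)) (.lf (nat_lit 29353)))) (.nd (nat_lit 1125) (.lf (nat_lit 29509)) (.nd (nat_lit 1126) (.lf (nat_lit 29385)) (.lf (nat_lit 5152))))) (.nd (nat_lit 1130) (.nd (nat_lit 1128) (.lf (nat_lit 29322)) (.nd (nat_lit 1129) (.lf (nat_lit 29569)) (.lf (nat_lit 29478)))) (.nd (nat_lit 1131) (.lf (nat_lit 29570)) (.nd (nat_lit 1132) (.lf (nat_lit 29571)) (.lf (nat_lit 29511)))))))) (.nd (nat_lit 1155) (.nd (nat_lit 1144) (.nd (nat_lit 1138) (.nd (nat_lit 1135) (.nd (nat_lit 1134) (.lf (nat_lit 29418)) (.lf (nat_lit 29542))) (.nd (nat_lit 1136) (.lf (nat_lit 29543)) (.nd (nat_lit 1137) (.lf (nat_lit 5152)) (.lf (nat_lit 5152))))) (.nd (nat_lit 1141) (.nd (nat_lit 1139) (.lf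 (nat_lit 29572)) (.nd (nat_lit 1140) (.lf (nat_lit 5152)) (.lf (nat_lit 29573)))) (.nd (nat_lit 1142) (.lf (nat_lit 29389)) (.nd (nat_lit 1143) (.lf (nat_lit 5152)) (.lf (nat_lit 29420)))))) (.nd (nat_lit 1149) (.nd (nat_lit 1146) (.nd (nat_lit 1145) (.lf (nat_lit 29574)) (.lf (nat_lit 29575))) (.nd (nat_lit 1147) (.lf (nat_lit 5152)) (.nd (nat_lit 1148) (.lf (nat_lit 5152)) (.lf (nat_lit 5152))))) (.nd (nat_lit 1152) (.nd (nat_lit 1150) (.lf (nat_lit 5152)) (.nd (nat_lit 1151) (.lf (nat_lit 27400)) (.lf (nat_lit 27432)))) (.nd (nat_lit 1153) (.lf (nat_lit 5152)) (.nd (nat_lit 1154) (.lf (nat_lit 27464)) (.lf (nat_lit 5152))))))) (.nd (nat_lit 1166) (.nd (nat_lit 1160) (.nd (nat_lit 1157) (.nd (nat_lit 1156) (.lf (nat_lit 5152)) (.lf (nat_lit 5152))) (.nd (nat_lit 1158) (.lf (nat_lit 28424)) (.nd (nat_lit 1159) (.lf (nat_lit 28456)) (.lf (nat_lit 27402))))) (.nd (nat_lit 1163) (.nd (nat_lit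 1161) (.lf (nat_lit 28488)) (.nd (nat_lit 1162) (.lf (nat_lit 28457)) (.lf (nat_lit 27466)))) (.nd (nat_lit 1164) (.lf (nat_lit 28489)) (.nd (nat_lit 1165) (.lf (nat_lit 5152)) (.lf (nat_lit 5152)))))) (.nd (nat_lit 1172) (.nd (nat_lit 1169) (.nd (nat_lit 1167) (.lf (nat_lit 28520)) (.nd (nat_lit 1168) (.lf (nat_lit 28490)) (.lf (nat_lit 28521)))) (.nd (nat_lit 1170) (.lf (nat_lit 5152)) (.nd (nat_lit 1171) (.lf (nat_lit 5152)) (.lf (nat_lit 5152))))) (.nd (nat_lit 1175) (.nd (nat_lit 1173) (.lf (nat_lit 5152)) (.nd (nat_lit 1174) (.lf (nat_lit 29448)) (.lf (nat_lit 29480)))) (.nd (nat_lit 1176) (.lf (nat_lit 5152)) (.nd (nat_lit 1177) (.lf (nat_lit 27404)) (.lf (nat_lit 29512))))))))) (.nd (nat_lit 1223) (.nd (nat_lit 1200) (.nd (nat_lit 1189) (.nd (nat_lit 1183) (.nd (nat_lit 1180) (.nd (nat_lit 1179) (.lf (nat_lit 29481)) (.lf (nat_lit 27468))) (.nd (nat_lit 1181) (.lf (nat_lit 29513))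 (.nd (nat_lit 1182) (.lf (nat_lit 5152)) (.lf (nat_lit 29450))))) (.nd (nat_lit 1186) (.nd (nat_lit 1184) (.lf (nat_lit 29544)) (.nd (nat_lit 1185) (.lf (nat_lit 28461)) (.lf (nat_lit 29514)))) (.nd (nat_lit 1187) (.lf (nat_lit 29545)) (.nd (nat_lit 1188) (.lf (nat_lit 29515)) (.lf (nat_lit 29546)))))) (.nd (nat_lit 1194) (.nd (nat_lit 1191) (.nd (nat_lit 1190) (.lf (nat_lit 28525)) (.lf (nat_lit 29547))) (.nd (nat_lit 1192) (.lf (nat_lit 5152)) (.nd (nat_lit 1193) (.lf (nat_lit 5152)) (.lf (nat_lit 29576))))) (.nd (nat_lit 1197) (.nd (nat_lit 1195) (.lf (nat_lit 5152)) (.nd (nat_lit 1196) (.lf (nat_lit 29516)) (.lf (nat_lit 29577)))) (.nd (nat_lit 1198) (.lf (nat_lit 5152)) (.nd (nat_lit 1199) (.lf (nat_lit 29578)) (.lf (nat_lit 29549))))))) (.nd (nat_lit 1211) (.nd (nat_lit 1205) (.nd (nat_lit 1202) (.nd (nat_lit 1201) (.lf (nat_lit 29579)) (.lf (nat_lit 5152))) (.nd (nat_lit 1203) (.lf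 (nat_lit 5152)) (.nd (nat_lit 1204) (.lf (nat_lit 5152)) (.lf (nat_lit 5152))))) (.nd (nat_lit 1208) (.nd (nat_lit 1206) (.lf (nat_lit 5152)) (.nd (nat_lit 1207) (.lf (nat_lit 5152)) (.lf (nat_lit 5152)))) (.nd (nat_lit 1209) (.lf (nat_lit 5152)) (.nd (nat_lit 1210) (.lf (nat_lit 19984)) (.lf (nat_lit 20016)))))) (.nd (nat_lit 1217) (.nd (nat_lit 1214) (.nd (nat_lit 1212) (.lf (nat_lit 5152)) (.nd (nat_lit 1213) (.lf (nat_lit 5152)) (.lf (nat_lit 20048)))) (.nd (nat_lit 1215) (.lf (nat_lit 20080)) (.nd (nat_lit 1216) (.lf (nat_lit 5152)) (.lf (nat_lit 5152))))) (.nd (nat_lit 1220) (.nd (nat_lit 1218) (.lf (nat_lit 5152)) (.nd (nat_lit 1219) (.lf (nat_lit 5152)) (.lf (nat_lit 22032)))) (.nd (nat_lit 1221) (.lf (nat_lit 22064)) (.nd (nat_lit 1222) (.lf (nat_lit 5152)) (.lf (nat_lit 5152)))))))) (.nd (nat_lit 1246) (.nd (nat_lit 1234) (.nd (nat_lit 1228) (.nd (nat_lit 1225) (.nd (nat_lit 1224)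 (.lf (nat_lit 5152)) (.lf (nat_lit 5152))) (.nd (nat_lit 1226) (.lf (nat_lit 5152)) (.nd (nat_lit 1227) (.lf (nat_lit 22096)) (.lf (nat_lit 22128))))) (.nd (nat_lit 1231) (.nd (nat_lit 1229) (.lf (nat_lit 5152)) (.nd (nat_lit 1230) (.lf (nat_lit 24080)) (.lf (nat_lit 24112)))) (.nd (nat_lit 1232) (.lf (nat_lit 24113)) (.nd (nat_lit 1233) (.lf (nat_lit 5152)) (.lf (nat_lit 22098)))))) (.nd (nat_lit 1240) (.nd (nat_lit 1237) (.nd (nat_lit 1235) (.lf (nat_lit 22130)) (.nd (nat_lit 1236) (.lf (nat_lit 5152)) (.lf (nat_lit 24144)))) (.nd (nat_lit 1238) (.lf (nat_lit 24176)) (.nd (nat_lit 1239) (.lf (nat_lit 24177)) (.lf (nat_lit 5152))))) (.nd (nat_lit 1243) (.nd (nat_lit 1241) (.lf (nat_lit 5152)) (.nd (nat_lit 1242) (.lf (nat_lit 5152)) (.lf (nat_lit 5152)))) (.nd (nat_lit 1244) (.lf (nat_lit 22160)) (.nd (nat_lit 1245) (.lf (nat_lit 22192)) (.lf (nat_lit 5152))))))) (.nd (nat_lit 1257) (.nd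 (nat_lit 1251) (.nd (nat_lit 1248) (.nd (nat_lit 1247) (.lf (nat_lit 5152)) (.lf (nat_lit 23216))) (.nd (nat_lit 1249) (.lf (nat_lit 5152)) (.nd (nat_lit 1250) (.lf (nat_lit 5152)) (.lf (nat_lit 5152))))) (.nd (nat_lit 1254) (.nd (nat_lit 1252) (.lf (nat_lit 5152)) (.nd (nat_lit 1253) (.lf (nat_lit 22162)) (.lf (nat_lit 22194)))) (.nd (nat_lit 1255) (.lf (nat_lit 5152)) (.nd (nat_lit 1256) (.lf (nat_lit 24208)) (.lf (nat_lit 24240)))))) (.nd (nat_lit 1263) (.nd (nat_lit 1260) (.nd (nat_lit 1258) (.lf (nat_lit 24241)) (.nd (nat_lit 1259) (.lf (nat_lit 24272)) (.lf (nat_lit 24273)))) (.nd (nat_lit 1261) (.lf (nat_lit 5152)) (.nd (nat_lit 1262) (.lf (nat_lit 24242)) (.lf (nat_lit 5152))))) (.nd (nat_lit 1266) (.nd (nat_lit 1264) (.lf (nat_lit 24304)) (.nd (nat_lit 1265) (.lf (nat_lit 24305)) (.lf (nat_lit 5152)))) (.nd (nat_lit 1267) (.lf (nat_lit 5152)) (.nd (nat_lit 1268) (.lf (nat_lit 5152))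 (.lf (nat_lit 5152)))))))))) (.nd (nat_lit 1360) (.nd (nat_lit 1314) (.nd (nat_lit 1291) (.nd (nat_lit 1280) (.nd (nat_lit 1274) (.nd (nat_lit 1271) (.nd (nat_lit 1270) (.lf (nat_lit 5152)) (.lf (nat_lit 5152))) (.nd (nat_lit 1272) (.lf (nat_lit 5152)) (.nd (nat_lit 1273) (.lf (nat_lit 5152)) (.lf (nat_lit 5152))))) (.nd (nat_lit 1277) (.nd (nat_lit 1275) (.lf (nat_lit 5152)) (.nd (nat_lit 1276) (.lf (nat_lit 5152)) (.lf (nat_lit 5152)))) (.nd (nat_lit 1278) (.lf (nat_lit 5152)) (.nd (nat_lit 1279) (.lf (nat_lit 5152)) (.lf (nat_lit 5152)))))) (.nd (nat_lit 1285) (.nd (nat_lit 1282) (.nd (nat_lit 1281) (.lf (nat_lit 5152)) (.lf (nat_lit 5152))) (.nd (nat_lit 1283) (.lf (nat_lit 5152)) (.nd (nat_lit 1284) (.lf (nat_lit 5152)) (.lf (nat_lit 26128))))) (.nd (nat_lit 1288) (.nd (nat_lit 1286) (.lf (nat_lit 26160)) (.nd (nat_lit 1287) (.lf (nat_lit 5152)) (.lf (nat_lit 5152)))) (.nd (nat_lit 1289)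 (.lf (nat_lit 5152)) (.nd (nat_lit 1290) (.lf (nat_lit 5152)) (.lf (nat_lit 5152))))))) (.nd (nat_lit 1302) (.nd (nat_lit 1296) (.nd (nat_lit 1293) (.nd (nat_lit 1292) (.lf (nat_lit 26192)) (.lf (nat_lit 26224))) (.nd (nat_lit 1294) (.lf (nat_lit 5152)) (.nd (nat_lit 1295) (.lf (nat_lit 28176)) (.lf (nat_lit 28208))))) (.nd (nat_lit 1299) (.nd (nat_lit 1297) (.lf (nat_lit 28209)) (.nd (nat_lit 1298) (.lf (nat_lit 5152)) (.lf (nat_lit 26194)))) (.nd (nat_lit 1300) (.lf (nat_lit 26226)) (.nd (nat_lit 1301) (.lf (nat_lit 5152)) (.lf (nat_lit 28240)))))) (.nd (nat_lit 1308) (.nd (nat_lit 1305) (.nd (nat_lit 1303) (.lf (nat_lit 28272)) (.nd (nat_lit 1304) (.lf (nat_lit 28273)) (.lf (nat_lit 5152)))) (.nd (nat_lit 1306) (.lf (nat_lit 5152)) (.nd (nat_lit 1307) (.lf (nat_lit 5152)) (.lf (nat_lit 5152))))) (.nd (nat_lit 1311) (.nd (nat_lit 1309) (.lf (nat_lit 26256)) (.nd (nat_lit 1310) (.lf (nat_lit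 26288)) (.lf (nat_lit 5152)))) (.nd (nat_lit 1312) (.lf (nat_lit 29200)) (.nd (nat_lit 1313) (.lf (nat_lit 29232)) (.lf (nat_lit 29233)))))))) (.nd (nat_lit 1337) (.nd (nat_lit 1325) (.nd (nat_lit 1319) (.nd (nat_lit 1316) (.nd (nat_lit 1315) (.lf (nat_lit 5152)) (.lf (nat_lit 5152))) (.nd (nat_lit 1317) (.lf (nat_lit 5152)) (.nd (nat_lit 1318) (.lf (nat_lit 26258)) (.lf (nat_lit 26290))))) (.nd (nat_lit 1322) (.nd (nat_lit 1320) (.lf (nat_lit 5152)) (.nd (nat_lit 1321) (.lf (nat_lit 29264)) (.lf (nat_lit 29296)))) (.nd (nat_lit 1323) (.lf (nat_lit 29297)) (.nd (nat_lit 1324) (.lf (nat_lit 28368)) (.lf (nat_lit 28369)))))) (.nd (nat_lit 1331) (.nd (nat_lit 1328) (.nd (nat_lit 1326) (.lf (nat_lit 29266)) (.nd (nat_lit 1327) (.lf (nat_lit 29298)) (.lf (nat_lit 29299)))) (.nd (nat_lit 1329) (.lf (nat_lit 28400)) (.nd (nat_lit 1330) (.lf (nat_lit 28401)) (.lf (nat_lit 5152))))) (.nd (nat_lit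 1334) (.nd (nat_lit 1332) (.lf (nat_lit 5152)) (.nd (nat_lit 1333) (.lf (nat_lit 5152)) (.lf (nat_lit 26260)))) (.nd (nat_lit 1335) (.lf (nat_lit 26292)) (.nd (nat_lit 1336) (.lf (nat_lit 5152)) (.lf (nat_lit 29328))))))) (.nd (nat_lit 1348) (.nd (nat_lit 1342) (.nd (nat_lit 1339) (.nd (nat_lit 1338) (.lf (nat_lit 29360)) (.lf (nat_lit 29361))) (.nd (nat_lit 1340) (.lf (nat_lit 29392)) (.nd (nat_lit 1341) (.lf (nat_lit 29393)) (.lf (nat_lit 5152))))) (.nd (nat_lit 1345) (.nd (nat_lit 1343) (.lf (nat_lit 29330)) (.nd (nat_lit 1344) (.lf (nat_lit 29362)) (.lf (nat_lit 29363)))) (.nd (nat_lit 1346) (.lf (nat_lit 29424)) (.nd (nat_lit 1347) (.lf (nat_lit 29425)) (.lf (nat_lit 28374)))))) (.nd (nat_lit 1354) (.nd (nat_lit 1351) (.nd (nat_lit 1349) (.lf (nat_lit 29426)) (.nd (nat_lit 1350) (.lf (nat_lit 29427)) (.lf (nat_lit 28406)))) (.nd (nat_lit 1352) (.lf (nat_lit 5152)) (.nd (nat_lit 1353)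 (.lf (nat_lit 5152)) (.lf (nat_lit 5152))))) (.nd (nat_lit 1357) (.nd (nat_lit 1355) (.lf (nat_lit 5152)) (.nd (nat_lit 1356) (.lf (nat_lit 5152)) (.lf (nat_lit 5152)))) (.nd (nat_lit 1358) (.lf (nat_lit 5152)) (.nd (nat_lit 1359) (.lf (nat_lit 5152)) (.lf (nat_lit 5152))))))))) (.nd (nat_lit 1405) (.nd (nat_lit 1382) (.nd (nat_lit 1371) (.nd (nat_lit 1365) (.nd (nat_lit 1362) (.nd (nat_lit 1361) (.lf (nat_lit 5152)) (.lf (nat_lit 5152))) (.nd (nat_lit 1363) (.lf (nat_lit 5152)) (.nd (nat_lit 1364) (.lf (nat_lit 26384)) (.lf (nat_lit 26416))))) (.nd (nat_lit 1368) (.nd (nat_lit 1366) (.lf (nat_lit 5152)) (.nd (nat_lit 1367) (.lf (nat_lit 5152)) (.lf (nat_lit 27440)))) (.nd (nat_lit 1369) (.lf (nat_lit 5152)) (.nd (nat_lit 1370) (.lf (nat_lit 5152)) (.lf (nat_lit 5152)))))) (.nd (nat_lit 1376) (.nd (nat_lit 1373) (.nd (nat_lit 1372) (.lf (nat_lit 5152)) (.lf (nat_lit 26386))) (.nd (nat_lit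 1374) (.lf (nat_lit 26418)) (.nd (nat_lit 1375) (.lf (nat_lit 5152)) (.lf (nat_lit 28432))))) (.nd (nat_lit 1379) (.nd (nat_lit 1377) (.lf (nat_lit 28464)) (.nd (nat_lit 1378) (.lf (nat_lit 28465)) (.lf (nat_lit 28496)))) (.nd (nat_lit 1380) (.lf (nat_lit 28497)) (.nd (nat_lit 1381) (.lf (nat_lit 5152)) (.lf (nat_lit 28466))))))) (.nd (nat_lit 1393) (.nd (nat_lit 1387) (.nd (nat_lit 1384) (.nd (nat_lit 1383) (.lf (nat_lit 5152)) (.lf (nat_lit 28528))) (.nd (nat_lit 1385) (.lf (nat_lit 28529)) (.nd (nat_lit 1386) (.lf (nat_lit 5152)) (.lf (nat_lit 5152))))) (.nd (nat_lit 1390) (.nd (nat_lit 1388) (.lf (nat_lit 5152)) (.nd (nat_lit 1389) (.lf (nat_lit 26388)) (.lf (nat_lit 26420)))) (.nd (nat_lit 1391) (.lf (nat_lit 5152)) (.nd (nat_lit 1392) (.lf (nat_lit 29456)) (.lf (nat_lit 29488)))))) (.nd (nat_lit 1399) (.nd (nat_lit 1396) (.nd (nat_lit 1394) (.lf (nat_lit 29489)) (.nd (nat_lit 1395)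 (.lf (nat_lit 29520)) (.lf (nat_lit 29521)))) (.nd (nat_lit 1397) (.lf (nat_lit 5152)) (.nd (nat_lit 1398) (.lf (nat_lit 29458)) (.lf (nat_lit 29490))))) (.nd (nat_lit 1402) (.nd (nat_lit 1400) (.lf (nat_lit 29491)) (.nd (nat_lit 1401) (.lf (nat_lit 29552)) (.lf (nat_lit 29553)))) (.nd (nat_lit 1403) (.lf (nat_lit 28502)) (.nd (nat_lit 1404) (.lf (nat_lit 29554)) (.lf (nat_lit 29555)))))))) (.nd (nat_lit 1428) (.nd (nat_lit 1416) (.nd (nat_lit 1410) (.nd (nat_lit 1407) (.nd (nat_lit 1406) (.lf (nat_lit 28534)) (.lf (nat_lit 5152))) (.nd (nat_lit 1408) (.lf (nat_lit 5152)) (.nd (nat_lit 1409) (.lf (nat_lit 29492)) (.lf (nat_lit 5152))))) (.nd (nat_lit 1413) (.nd (nat_lit 1411) (.lf (nat_lit 29584)) (.nd (nat_lit 1412) (.lf (nat_lit 29585)) (.lf (nat_lit 5152)))) (.nd (nat_lit 1414) (.lf (nat_lit 29586)) (.nd (nat_lit 1415) (.lf (nat_lit 29587)) (.lf (nat_lit 29558)))))) (.nd (nat_lit 1422)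 (.nd (nat_lit 1419) (.nd (nat_lit 1417) (.lf (nat_lit 5152)) (.nd (nat_lit 1418) (.lf (nat_lit 5152)) (.lf (nat_lit 5152)))) (.nd (nat_lit 1420) (.lf (nat_lit 5152)) (.nd (nat_lit 1421) (.lf (nat_lit 5152)) (.lf (nat_lit 5152))))) (.nd (nat_lit 1425) (.nd (nat_lit 1423) (.lf (nat_lit 5152)) (.nd (nat_lit 1424) (.lf (nat_lit 5152)) (.lf (nat_lit 5152)))) (.nd (nat_lit 1426) (.lf (nat_lit 5152)) (.nd (nat_lit 1427) (.lf (nat_lit 5152)) (.lf (nat_lit 5152))))))) (.nd (nat_lit 1439) (.nd (nat_lit 1433) (.nd (nat_lit 1430) (.nd (nat_lit 1429) (.lf (nat_lit 5152)) (.lf (nat_lit 5152))) (.nd (nat_lit 1431) (.lf (nat_lit 5152)) (.nd (nat_lit 1432) (.lf (nat_lit 5152)) (.lf (nat_lit 5152))))) (.nd (nat_lit 1436) (.nd (nat_lit 1434) (.lf (nat_lit 5152)) (.nd (nat_lit 1435) (.lf (nat_lit 5152)) (.lf (nat_lit 5152)))) (.nd (nat_lit 1437) (.lf (nat_lit 5152)) (.nd (nat_lit 1438) (.lf (nat_lit 5152)) (.lf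 (nat_lit 5152)))))) (.nd (nat_lit 1445) (.nd (nat_lit 1442) (.nd (nat_lit 1440) (.lf (nat_lit 5152)) (.nd (nat_lit 1441) (.lf (nat_lit 5152)) (.lf (nat_lit 5152)))) (.nd (nat_lit 1443) (.lf (nat_lit 5152)) (.nd (nat_lit 1444) (.lf (nat_lit 5152)) (.lf (nat_lit 5152))))) (.nd (nat_lit 1448) (.nd (nat_lit 1446) (.lf (nat_lit 5152)) (.nd (nat_lit 1447) (.lf (nat_lit 5152)) (.lf (nat_lit 5152)))) (.nd (nat_lit 1449) (.lf (nat_lit 5152)) (.nd (nat_lit 1450) (.lf (nat_lit 5152)) (.lf (nat_lit 5152))))))))))))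

theorem chk3_all : all2 chk3 D.ct rt = true := by decide +kernel

theorem w3 : ∀ f, ValidCub (D.ct.get f) := fun f => by
  obtain ⟨w, hw⟩ := all2_spec chk3_all f
  exact (chk3_valid hw).1

theorem w3b : ∀ f, ∀ F ∈ fs 31 (D.ct.get f), F ≠ 0 ∧ F % 2 ^ 32 = 0 ∧ F < 2 ^ 382 := fun f => by
  obtain ⟨w, hw⟩ := all2_spec chk3_all f
  exact (chk3_valid hw).2

end Pool.Agent.H36.QT
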