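import Pool.Agent.H36.QT.W3

/-!
# W4: the 24 symmetries of the certificate (seat helper36, MP_02a80e_co)
-/

set_option autoImplicit false
set_option maxRecDepth 100000

namespace Pool.Agent.H36.QT

/-- the permutation of the bases -/
def gI (R i : ℕ) : ℕ := Nat.land (Nat.shiftRight R (5 * i)) 31
/-- its inverse -/
def gJ (R i : ℕ) : ℕ := Nat.land (Nat.shiftRight R (145 + 5 * i)) 31
/-- the permutation of the points -/
def pI (R x : ℕ) : ℕ := Nat.land (Nat.shiftRight R (290 + 3 * x)) 7
/-- its inverse -/
def pJ (R x : ℕ) : ℕ := Nat.land (Nat.shiftRight R (311 + 3 * x)) 7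

/-- `tbit` of the sorted pair -/
noncomputable def tbs (a c : ℕ) : ℕ := if a ≤ c then tbit a c else tbit c a

/-- the check of the variable `v` -/
noncomputable def chkV (T R v : ℕ) : Bool :=
  Nat.blt (el.getD v (0, 0)).1 29 && Nat.blt (el.getD v (0, 0)).2 29 &&
  Nat.ble 32 (tbs (gI R (el.getD v (0, 0)).1) (gI R (el.getD v (0, 0)).2)) &&
  Nat.blt (tbs (gI R (el.getD v (0, 0)).1) (gI R (el.getD v (0, 0)).2)) 382 &&
  Nat.beq (ent T (32 + v)) (tbs (gI R (el.getD v (0, 0)).1) (gI R (el.getD v (0, 0)).2)) &&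
  Nat.beq (ent T (207 + v)) (neg (tbs (gI R (el.getD v (0, 0)).1) (gI R (el.getD v (0, 0)).2)))

/-- the check of a symmetry -/
noncomputable def chk4 (T R : ℕ) : Bool :=
  ((List.range 29).all fun i => Nat.blt (gI R i) 29 && Nat.blt (gJ R i) 29 &&
    Nat.beq (gI R (gJ R i)) i && Nat.beq (gJ R (gI R i)) i &&
    (List.range 7).all fun x => Nat.beq (dg x (gI R i)) (dg (pI R x) i)) &&
  ((List.range 7).all fun x => Nat.blt (pI R x) 7 && Nat.blt (pJ R x) 7 && Nat.beq (pI R (pJ R x)) x) &&
  (List.range 175).all (chkV T R)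

theorem blt_lt {a b : ℕ} (h : Nat.blt a b = true) : a < b := by
  simpa only [Nat.blt_eq] using h

/-- the image of a system under a symmetry -/
theorem sys_image {e : ℕ → ℕ → Prop} {w : ℕ → ℝ} (S : Sys e w) (g h p q : ℕ → ℕ)
    (h1 : ∀ i < 29, g i < 29) (h2 : ∀ i < 29, h i < 29) (h3 : ∀ i < 29, g (h i) = i)
    (h4 : ∀ i < 29, h (g i) = i) (h5 : ∀ i < 29, ∀ x < 7, dg x (g i) = dg (p x) i)
    (h6 : ∀ x < 7, p x < 7) (h7 : ∀ x < 7, q x < 7) (h8 : ∀ x < 7, p (q x) = x) :
    Sys (fun i j => e (g i) (g j)) (fun i => w (g i)) where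
  symm := fun i j hij => S.symm _ _ hij
  two := by
    intro i j hi hj
    obtain ⟨a, b, ha, hb, he, hs⟩ := S.two (g i) (g j) (h1 i hi) (h1 j hj)
    refine ⟨h a, h b, h2 a ha, h2 b hb, ?_, ?_⟩
    · change e (g (h a)) (g (h b))
      rw [h3 a ha, h3 b hb]; exact he
    · intro x hx
      have hh := hs (q x) (h7 x hx)
      have ea := h5 (h a) (h2 a ha) _ (h7 x hx)
      have eb := h5 (h b) (h2 b hb) _ (h7 x hx)
      rw [h3 a ha, h8 x hx] at ea
      rw [h3 b hb, h8 x hx] at eb
      rw [h5 i hi _ (h7 x hx), h5 j hj _ (h7 x hx), h8 x hx, ea, eb] at hh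
      exact hh
  lt := by
    intro i j i' j' hi hj hi' hj' he hs
    have hs' : ∀ x < 7, dg x (g i') + dg x (g j') = dg x (g i) + dg x (g j) := by
      intro x hx
      rw [h5 i' hi' x hx, h5 j' hj' x hx, h5 i hi x hx, h5 j hj x hx]
      exact hs _ (h6 x hx)
    rcases S.lt (g i) (g j) (g i') (g j') (h1 i hi) (h1 j hj) (h1 i' hi') (h1 j' hj') he hs' with
      hh | hh | hh
    · left
      exact ⟨by rw [← h4 i' hi', hh.1, h4 i hi], by rw [← h4 j' hj', hh.2, h4 j hj]⟩
    · right; left
      exact ⟨by rw [← h4 i' hi', hh.1, h4 j hj], by rw [← h4 j' hj', hh.2, h4 i hi]⟩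
    · right; right
      exact hh
  three := by
    intro i j k hi hj hk
    obtain ⟨a, b, c, ha, hb, hc, e1, e2, e3, hs⟩ :=
      S.three (g i) (g j) (g k) (h1 i hi) (h1 j hj) (h1 k hk)
    refine ⟨h a, h b, h c, h2 a ha, h2 b hb, h2 c hc, ?_, ?_, ?_, ?_⟩
    · change e (g (h a)) (g (h b))
      rw [h3 a ha, h3 b hb]; exact e1
    · change e (g (h a)) (g (h c))
      rw [h3 a ha, h3 c hc]; exact e2
    · change e (g (h b)) (g (h c))
      rw [h3 b hb, h3 c hc]; exact e3
    · intro x hx
      have hh := hs (q x) (h7 x hx)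
      have ea := h5 (h a) (h2 a ha) _ (h7 x hx)
      have eb := h5 (h b) (h2 b hb) _ (h7 x hx)
      have ec := h5 (h c) (h2 c hc) _ (h7 x hx)
      rw [h3 a ha, h8 x hx] at ea
      rw [h3 b hb, h8 x hx] at eb
      rw [h3 c hc, h8 x hx] at ec
      rw [h5 i hi _ (h7 x hx), h5 j hj _ (h7 x hx), h5 k hk _ (h7 x hx), h8 x hx, ea, eb, ec] at hh
      exact hh
  unique := by
    intro i j k i' j' k' hi hj hk hi' hj' hk' e1 e2 e3 e1' e2' e3' hs
    have hs' : ∀ x < 7, dg x (g i') + dg x (g j') + dg x (g k') =
        dg x (g i) + dg x (g j) + dg x (g k) := by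
      intro x hx
      rw [h5 i' hi' x hx, h5 j' hj' x hx, h5 k' hk' x hx, h5 i hi x hx, h5 j hj x hx, h5 k hk x hx]
      exact hs _ (h6 x hx)
    have hm := S.unique (g i) (g j) (g k) (g i') (g j') (g k') (h1 i hi) (h1 j hj) (h1 k hk)
      (h1 i' hi') (h1 j' hj') (h1 k' hk') e1 e2 e3 e1' e2' e3' hs'
    have hm2 := congrArg (Multiset.map h) hm
    simpa [h4 i hi, h4 j hj, h4 k hk, h4 i' hi', h4 j' hj', h4 k' hk'] using hm2

theorem tbs_e {e : ℕ → ℕ → Prop} {w : ℕ → ℝ} (S : Sys e w) {a c : ℕ} (ha : a < 29) (hc : c < 29)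
    (h32 : 32 ≤ tbs a c) : e a c ↔ Lit e (tbs a c) := by
  unfold tbs at *
  by_cases h : a ≤ c
  · rw [if_pos h] at *
    rcases w2 e w S a c h hc with h1 | h1
    · omega
    · exact h1.2.2
  · rw [if_neg h] at *
    rcases w2 e w S c a (by omega) ha with h1 | h1
    · omega
    · exact ⟨fun h2 => h1.2.2.mp (S.symm _ _ h2), fun h2 => S.symm _ _ (h1.2.2.mpr h2)⟩

theorem chk4_valid {T R : ℕ} (h : chk4 T R = true) : GoodT T := by
  unfold chk4 at h
  rw [Bool.and_eq_true, Bool.and_eq_true, List.all_eq_true, List.all_eq_true, List.all_eq_true] at h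
  obtain ⟨⟨H1, H2⟩, H3⟩ := h
  have A : ∀ i < 29, gI R i < 29 ∧ gJ R i < 29 ∧ gI R (gJ R i) = i ∧ gJ R (gI R i) = i ∧
      ∀ x < 7, dg x (gI R i) = dg (pI R x) i := by
    intro i hi
    have h := H1 i (List.mem_range.mpr hi)
    rw [Bool.and_eq_true, Bool.and_eq_true, Bool.and_eq_true, Bool.and_eq_true] at h
    obtain ⟨⟨⟨⟨a1, a2⟩, a3⟩, a4⟩, a5⟩ := h
    refine ⟨blt_lt a1, blt_lt a2, Nat.eq_of_beq_eq_true a3, Nat.eq_of_beq_eq_true a4, ?_⟩
    intro x hx
    rw [List.all_eq_true] at a5
    exact Nat.eq_of_beq_eq_true (a5 x (List.mem_range.mpr hx))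
  have B : ∀ x < 7, pI R x < 7 ∧ pJ R x < 7 ∧ pI R (pJ R x) = x := by
    intro x hx
    have h := H2 x (List.mem_range.mpr hx)
    rw [Bool.and_eq_true, Bool.and_eq_true] at h
    exact ⟨blt_lt h.1.1, blt_lt h.1.2, Nat.eq_of_beq_eq_true h.2⟩
  intro e w S
  have S' := sys_image S (gI R) (gJ R) (pI R) (pJ R) (fun i hi => (A i hi).1)
    (fun i hi => (A i hi).2.1) (fun i hi => (A i hi).2.2.1) (fun i hi => (A i hi).2.2.2.1)
    (fun i hi => (A i hi).2.2.2.2) (fun x hx => (B x hx).1) (fun x hx => (B x hx).2.1)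
    (fun x hx => (B x hx).2.2)
  refine ⟨_, _, S', ?_⟩
  have V : ∀ v < 175, 32 ≤ ent T (32 + v) ∧ ent T (32 + v) < 382 ∧ ent T (207 + v) = neg (ent T (32 + v)) ∧
      (e (gI R (el.getD v (0, 0)).1) (gI R (el.getD v (0, 0)).2) ↔ Lit e (ent T (32 + v))) := by
    intro v hv
    have h := H3 v (List.mem_range.mpr hv)
    unfold chkV at h
    rw [Bool.and_eq_true, Bool.and_eq_true, Bool.and_eq_true, Bool.and_eq_true, Bool.and_eq_true] at h
    obtain ⟨⟨⟨⟨⟨a1, a2⟩, a3⟩, a4⟩, a5⟩, a6⟩ := h
    have b1 := blt_lt a1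
    have b2 := blt_lt a2
    have b3 := Nat.le_of_ble_eq_true a3
    have b4 := blt_lt a4
    have b5 := Nat.eq_of_beq_eq_true a5
    have b6 := Nat.eq_of_beq_eq_true a6
    have b7 := tbs_e S (A _ b1).1 (A _ b2).1 b3
    rw [b5]
    exact ⟨b3, b4, b6, b7⟩
  intro b hb1 hb2
  by_cases hb : b < 207
  · obtain ⟨v, rfl⟩ : ∃ v, b = 32 + v := ⟨b - 32, by omega⟩
    obtain ⟨c1, c2, c3, c4⟩ := V v (by omega)
    refine ⟨c1, c2, ?_⟩
    rw [← c4]
    have e1 : 32 + v - 32 = v := by omega
    have e2 : Lit (fun i j => e (gI R i) (gI R j)) (32 + v) ↔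
        e (gI R (el.getD v (0, 0)).1) (gI R (el.getD v (0, 0)).2) := by
      unfold Lit
      rw [if_pos hb, e1]
    exact e2
  · obtain ⟨v, rfl⟩ : ∃ v, b = 207 + v := ⟨b - 207, by omega⟩
    obtain ⟨c1, c2, c3, c4⟩ := V v (by omega)
    have e1 : 207 + v - 207 = v := by omega
    have e2 : Lit (fun i j => e (gI R i) (gI R j)) (207 + v) ↔
        ¬ e (gI R (el.getD v (0, 0)).1) (gI R (el.getD v (0, 0)).2) := by
      unfold Lit
      rw [if_neg hb, e1]
    rw [c3]
    refine ⟨?_, ?_, ?_⟩
    · unfold neg; split_ifs <;> omega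
    · unfold neg; split_ifs <;> omega
    · rw [e2, lit_neg c1 c2, c4]

/-- the permutations -/
noncomputable def rg : Tr :=
  .nd (nat_lit 12) (.nd (nat_lit 6) (.nd (nat_lit 3) (.nd (nat_lit 1) (.lf (nat_lit 7320598434390859344558424905964667426512910826759615208078654873616506711941664252068950252573526048)) (.nd (nat_lit 2) (.lf (nat_lit 7199114113794637103320752594373038239609221321714528253664317558232147010056022251007719555370944513)) (.lf (nat_lit 6363442162308778615397896818649848453629100531977188932551119115877719859374569891423449119020123200)))) (.nd (nat_lit 4) (.lf (nat_lit 6120473122637095450524360992002172586901318166554418239272529703172015809719412554585120092595520514)) (.nd (nat_lit 5) (.lf (nat_lit 5284801968109706306078314129686944270878692613264386202026840137649444983088030995367416206886797377)) (.lf (nat_lit 5163317249034245382442450612810615911983578390287171003022152751269227292686731088540689661205512226))))) (.nd (nat_lit 9) (.nd (nat_lit 7) (.lf (nat_lit 7200953900380591237601609460589147165127205387798347087170352713612602048327385948160745543013829664))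 (.nd (nat_lit 8) (.lf (nat_lit 7318700241881541642977846909312527968984712486838340063664381950825510247069547280617856651218717697)) (.lf (nat_lit 5286641755572940509510464960636394053211818223956342491017055979662308327932088949162588114204558432)))) (.nd (nat_lit 10) (.lf (nat_lit 5161419058279487819164460549372698594606270673507276718781453579430389686059102381684775791455437827)) (.nd (nat_lit 11) (.lf (nat_lit 6361076721730223040670845308131500312836054312584125988836347657216807502452005739815122126080376929)) (.lf (nat_lit 6118107682935819944948603446324142371298764525551629960459072280392563750091141139566528977431494691)))))) (.nd (nat_lit 18) (.nd (nat_lit 15) (.nd (nat_lit 13) (.lf (nat_lit 6124152694931723649934780755900020620415663183802815707469183219609138615235252324577230139858914368)) (.nd (nat_lit 14) (.lf (nat_lit 6359645777972472458768463265616051195723467393783072185020019552032518881503219435217752672638635010)) (.lf (nat_lit 5166996822206153651004164341548781870688221395772046149016441394115690877412965346383818412625266784))))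 (.nd (nat_lit 16) (.lf (nat_lit 5281005585527960287751468506333782863357063816640927616701898186415588650835299892794460517375707139)) (.nd (nat_lit 17) (.lf (nat_lit 7315867554598406688167766754814687055735190450130582889097636564628579888297840065874363215558770786)) (.lf (nat_lit 7194383234879464516081388408170352862397149967104110821898067724902612953945682206426443002768556099))))) (.nd (nat_lit 21) (.nd (nat_lit 19) (.lf (nat_lit 5165098627942275811120998418856569920924683579520784388794977246944303028072561595022520063296015425)) (.nd (nat_lit 20) (.lf (nat_lit 5282845369482074214578443478028938013303959327861516429711349053095901752966582802084247945114291234)) (.lf (nat_lit 6121787253475888006056435280648331622807475419801615308270231074315817871314994840755291953428432993)))) (.nd (nat_lit 22) (.lf (nat_lit 6357280337393916884041411755204680123305772208172146450722381442620658434877254687841439711389288483)) (.nd (nat_lit 23) (.lf (nat_lit 7196223019710858512059657344598848869159187022932837090391699278215334367446677024584862053277107298))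 (.lf (nat_lit 7313969362089088986587188758269524666582343143991444954100496991086635333722322498655283645894362179))))))

theorem chk4_all : all2 chk4 D.gt rg = true := by decide +kernel

theorem w4 : ∀ g, GoodT (D.gt.get g) := fun g => by
  obtain ⟨w, hw⟩ := all2_spec chk4_all g
  exact chk4_valid hw

end Pool.Agent.H36.QT
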