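import Pool.Agent.H36.QT.W2

/-!
# W5: the base clauses of the certificate (seat helper36, MP_02a80e_co)

Three kinds of clauses: a fibre of pairs contains a standard pair (`a`), two standard triples of the
same cubic fibre (`b`), a positive combination of strict inequalities (`t`).
-/

set_option autoImplicit false

namespace Pool.Agent.H36.QT

/-- the bit `b` of `N` -/
def bitB (N b : ℕ) : Bool := Nat.beq (Nat.land (Nat.shiftRight N b) 1) 1

theorem bitB_eq (N b : ℕ) : bitB N b = N.testBit b := by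
  unfold bitB
  have h : Nat.land (Nat.shiftRight N b) 1 = (N >>> b) &&& 1 := rfl
  rw [h, Nat.and_one_is_mod, Nat.testBit_eq_decide_div_mod_eq, Nat.shiftRight_eq_div_pow]
  by_cases h1 : N / 2 ^ b % 2 = 1
  · simp [h1]
  · have : N / 2 ^ b % 2 = 0 := by omega
    simp only [this]
    rfl

/-- the pair is standard by hypothesis -/
noncomputable def inN (N i j : ℕ) : Bool := Nat.beq (tbit i j) 0 || bitB N (tbit i j)

theorem inN_e {e : ℕ → ℕ → Prop} {w : ℕ → ℝ} (S : Sys e w) {N i j : ℕ} (hN : Hold e N)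
    (hij : i ≤ j) (hj : j < 29) (h : inN N i j = true) : e i j := by
  rcases w2 e w S i j hij hj with h1 | ⟨h1, h2, h3⟩
  · exact h1.2
  · unfold inN at h
    rw [Bool.or_eq_true] at h
    rcases h with h | h
    · have := Nat.eq_of_beq_eq_true h
      omega
    · rw [bitB_eq] at h
      exact h3.mpr (hN _ h1 h2 h)

/-- the pair is not standard by hypothesis -/
noncomputable def notN (N i j : ℕ) : Bool :=
  (Nat.ble 32 (tbit i j) && Nat.blt (tbit i j) 207 && bitB N (tbit i j + 175)) ||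
  (Nat.ble 207 (tbit i j) && bitB N (tbit i j - 175))

theorem notN_e {e : ℕ → ℕ → Prop} {w : ℕ → ℝ} (S : Sys e w) {N i j : ℕ} (hN : Hold e N)
    (hij : i ≤ j) (hj : j < 29) (h : notN N i j = true) : ¬ e i j := by
  have h0 := w2 e w S i j hij hj
  unfold notN at h
  generalize tbit i j = B at h h0
  rcases h0 with h1 | ⟨h1, h2, h3⟩
  · rw [h1.1] at h
    simp only [show Nat.ble 32 0 = false from rfl, show Nat.ble 207 0 = false from rfl,
      Bool.false_and, Bool.or_self, Bool.false_eq_true] at h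
  · rw [Bool.or_eq_true, Bool.and_eq_true, Bool.and_eq_true, Bool.and_eq_true] at h
    intro he
    have h4 := h3.mp he
    unfold Lit at h4
    rcases h with ⟨⟨_, h5⟩, h6⟩ | ⟨h5, h6⟩
    · have g1 : B < 207 := by simpa [Nat.blt_eq] using h5
      rw [if_pos g1] at h4
      rw [bitB_eq] at h6
      have g2 := hN (B + 175) (by omega) (by omega) h6
      unfold Lit at g2
      rw [if_neg (by omega)] at g2
      have g3 : B + 175 - 207 = B - 32 := by omega
      rw [g3] at g2
      exact g2 h4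
    · have g1 : 207 ≤ B := Nat.le_of_ble_eq_true h5
      rw [if_neg (by omega)] at h4
      rw [bitB_eq] at h6
      obtain ⟨C, hC⟩ : ∃ C, C = B - 175 := ⟨_, rfl⟩
      rw [← hC] at h6
      have g2 := hN C (by omega) (by omega) h6
      unfold Lit at g2
      rw [if_pos (by omega)] at g2
      have g3 : C - 32 = B - 207 := by omega
      rw [g3] at g2
      exact h4 g2

/-- certificates -/
inductive Ce : Type
  | a : ℕ → Ce
  | b : ℕ → Ce
  | t : List ℕ → Ce

/-- digits of the codes -/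
def d0 (r : ℕ) : ℕ := Nat.land r 31
/-- digits of the codes -/
def d1 (r : ℕ) : ℕ := Nat.land (Nat.shiftRight r 5) 31
/-- digits of the codes -/
def d2 (r : ℕ) : ℕ := Nat.land (Nat.shiftRight r 10) 31
/-- digits of the codes -/
def d3 (r : ℕ) : ℕ := Nat.land (Nat.shiftRight r 15) 31
/-- digits of the codes -/
def d4 (r : ℕ) : ℕ := Nat.land (Nat.shiftRight r 20) 31
/-- digits of the codes -/
def d5 (r : ℕ) : ℕ := Nat.land (Nat.shiftRight r 25) 31

/-- all pairs of the fibre are not standard -/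
noncomputable def chkA (N r : ℕ) : Bool :=
  Nat.blt (d0 r) 29 && Nat.blt (d1 r) 29 && allS (cdv (d0 r) + cdv (d1 r)) (notN N)

/-- two standard triples -/
noncomputable def chkB (N r : ℕ) : Bool :=
  Nat.ble (d0 r) (d1 r) && Nat.ble (d1 r) (d2 r) && Nat.blt (d2 r) 29 &&
  Nat.ble (d3 r) (d4 r) && Nat.ble (d4 r) (d5 r) && Nat.blt (d5 r) 29 &&
  Nat.beq (cdv (d0 r) + cdv (d1 r) + cdv (d2 r)) (cdv (d3 r) + cdv (d4 r) + cdv (d5 r)) &&
  !(Nat.beq (d0 r) (d3 r) && Nat.beq (d1 r) (d4 r) && Nat.beq (d2 r) (d5 r)) &&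
  inN N (d0 r) (d1 r) && inN N (d0 r) (d2 r) && inN N (d1 r) (d2 r) &&
  inN N (d3 r) (d4 r) && inN N (d3 r) (d5 r) && inN N (d4 r) (d5 r)

/-- one inequality `w (d0 r) + w (d1 r) < w (d2 r) + w (d3 r)`, with the factor `d4 r` -/
noncomputable def chkR (N r : ℕ) : Bool :=
  Nat.ble (d0 r) (d1 r) && Nat.blt (d1 r) 29 && Nat.ble (d2 r) (d3 r) && Nat.blt (d3 r) 29 &&
  Nat.beq (cdv (d0 r) + cdv (d1 r)) (cdv (d2 r) + cdv (d3 r)) &&
  !(Nat.beq (d0 r) (d2 r) && Nat.beq (d1 r) (d3 r)) &&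
  inN N (d0 r) (d1 r) && Nat.ble 1 (d4 r)

/-- left side -/
def sL {R : Type} [Semiring R] (f : ℕ → R) (L : List ℕ) : R :=
  (L.map fun r => (d4 r : R) * (f (d0 r) + f (d1 r))).sum

/-- right side -/
def sR {R : Type} [Semiring R] (f : ℕ → R) (L : List ℕ) : R :=
  (L.map fun r => (d4 r : R) * (f (d2 r) + f (d3 r))).sum

theorem sL_cons {R : Type} [Semiring R] (f : ℕ → R) (r : ℕ) (L : List ℕ) :
    sL f (r :: L) = (d4 r : R) * (f (d0 r) + f (d1 r)) + sL f L := by simp [sL]

theorem sR_cons {R : Type} [Semiring R] (f : ℕ → R) (r : ℕ) (L : List ℕ) :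
    sR f (r :: L) = (d4 r : R) * (f (d2 r) + f (d3 r)) + sR f L := by simp [sR]

/-- the checked sums -/
def nL : List ℕ → ℕ
  | [] => 0
  | r :: L => Nat.add (Nat.mul (d4 r) (Nat.add (Nat.pow 2 (Nat.mul 5 (d0 r))) (Nat.pow 2 (Nat.mul 5 (d1 r))))) (nL L)
/-- the checked sums -/
def nR : List ℕ → ℕ
  | [] => 0
  | r :: L => Nat.add (Nat.mul (d4 r) (Nat.add (Nat.pow 2 (Nat.mul 5 (d2 r))) (Nat.pow 2 (Nat.mul 5 (d3 r))))) (nR L)
/-- the sum of the factors -/
def nM : List ℕ → ℕ
  | [] => 0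
  | r :: L => Nat.add (d4 r) (nM L)

theorem nL_eq (L : List ℕ) : nL L = sL (fun x => 32 ^ x) L := by
  induction L with
  | nil => rfl
  | cons r L ih =>
    rw [sL_cons, ← ih]
    have e : ∀ x : ℕ, (32 : ℕ) ^ x = 2 ^ (5 * x) := fun x => by rw [pow_mul]; norm_num
    rw [e, e]; rfl

theorem nR_eq (L : List ℕ) : nR L = sR (fun x => 32 ^ x) L := by
  induction L with
  | nil => rfl
  | cons r L ih =>
    rw [sR_cons, ← ih]
    have e : ∀ x : ℕ, (32 : ℕ) ^ x = 2 ^ (5 * x) := fun x => by rw [pow_mul]; norm_num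
    rw [e, e]; rfl

theorem nM_le (L : List ℕ) (t : ℕ) : sL (fun x => if x = t then 1 else 0) L ≤ 2 * nM L ∧
    sR (fun x => if x = t then 1 else 0) L ≤ 2 * nM L := by
  induction L with
  | nil => simp [sL, sR]
  | cons r L ih =>
    rw [sL_cons, sR_cons]
    have h : nM (r :: L) = d4 r + nM L := rfl
    rw [h]
    have a1 : ((d4 r : ℕ) : ℕ) * ((if d0 r = t then 1 else 0) + (if d1 r = t then 1 else 0)) ≤
        2 * d4 r := by split_ifs <;> omega
    have a2 : ((d4 r : ℕ) : ℕ) * ((if d2 r = t then 1 else 0) + (if d3 r = t then 1 else 0)) ≤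
        2 * d4 r := by split_ifs <;> omega
    have a3 := ih.1
    have a4 := ih.2
    simp only [Nat.cast_id] at *
    constructor <;> omega

/-- change of the order of summation -/
theorem sL_sum {R : Type} [CommSemiring R] (f : ℕ → R) (L : List ℕ)
    (h : ∀ r ∈ L, d0 r < 29 ∧ d1 r < 29) :
    sL f L = ∑ t ∈ Finset.range 29, ((sL (fun x => if x = t then (1 : ℕ) else 0) L : ℕ) : R) * f t := by
  induction L with
  | nil => simp [sL]
  | cons r L ih =>
    have h1 := h r (by simp)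
    have e : ∀ (c : R) (x : ℕ), x < 29 → ∑ t ∈ Finset.range 29,
        c * ((if x = t then (1 : ℕ) else 0 : ℕ) : R) * f t = c * f x := by
      intro c x hx
      rw [Finset.sum_eq_single x]
      · simp
      · intro b _ hb; simp [hb.symm]
      · intro hb; exact absurd (Finset.mem_range.mpr hx) hb
    rw [sL_cons, ih (fun r hr => h r (by simp [hr]))]
    simp only [sL_cons, Nat.cast_add, Nat.cast_mul, add_mul, Finset.sum_add_distrib, mul_add,
      Nat.cast_id]
    rw [e _ _ h1.1, e _ _ h1.2]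

/-- change of the order of summation -/
theorem sR_sum {R : Type} [CommSemiring R] (f : ℕ → R) (L : List ℕ)
    (h : ∀ r ∈ L, d2 r < 29 ∧ d3 r < 29) :
    sR f L = ∑ t ∈ Finset.range 29, ((sR (fun x => if x = t then (1 : ℕ) else 0) L : ℕ) : R) * f t := by
  induction L with
  | nil => simp [sR]
  | cons r L ih =>
    have h1 := h r (by simp)
    have e : ∀ (c : R) (x : ℕ), x < 29 → ∑ t ∈ Finset.range 29,
        c * ((if x = t then (1 : ℕ) else 0 : ℕ) : R) * f t = c * f x := by
      intro c x hx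
      rw [Finset.sum_eq_single x]
      · simp
      · intro b _ hb; simp [hb.symm]
      · intro hb; exact absurd (Finset.mem_range.mpr hx) hb
    rw [sR_cons, ih (fun r hr => h r (by simp [hr]))]
    simp only [sR_cons, Nat.cast_add, Nat.cast_mul, add_mul, Finset.sum_add_distrib, mul_add,
      Nat.cast_id]
    rw [e _ _ h1.1, e _ _ h1.2]

/-- digits are determined by the number -/
theorem dig_inj (X : ℕ) : ∀ (n : ℕ) (a b : ℕ → ℕ), (∀ t, a t < X) → (∀ t, b t < X) →
    ∑ t ∈ Finset.range n, a t * X ^ t = ∑ t ∈ Finset.range n, b t * X ^ t → ∀ t < n, a t = b t := by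
  intro n
  induction n with
  | zero => intro a b _ _ _ t ht; omega
  | succ n ih =>
    intro a b ha hb h t ht
    rw [Finset.sum_range_succ', Finset.sum_range_succ'] at h
    have e : ∀ c : ℕ → ℕ, ∑ k ∈ Finset.range n, c (k + 1) * X ^ (k + 1) =
        X * ∑ k ∈ Finset.range n, c (k + 1) * X ^ k := by
      intro c
      rw [Finset.mul_sum]
      exact Finset.sum_congr rfl fun k _ => by ring
    rw [e, e, pow_zero, mul_one, mul_one] at h
    have hX : 0 < X := lt_of_le_of_lt (Nat.zero_le _) (ha 0)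
    have h0 : a 0 = b 0 := by
      have := congrArg (· % X) h
      simpa [Nat.mod_eq_of_lt (ha 0), Nat.mod_eq_of_lt (hb 0)] using this
    have h1 : ∑ k ∈ Finset.range n, a (k + 1) * X ^ k = ∑ k ∈ Finset.range n, b (k + 1) * X ^ k := by
      rw [h0] at h
      exact Nat.eq_of_mul_eq_mul_left hX (Nat.add_right_cancel h)
    rcases t with _ | t
    · exact h0
    · exact ih (fun k => a (k + 1)) (fun k => b (k + 1)) (fun k => ha _) (fun k => hb _) h1 t (by omega)

/-- the equality of the sums -/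
theorem sum_eq {L : List ℕ} (h : ∀ r ∈ L, (d0 r < 29 ∧ d1 r < 29) ∧ d2 r < 29 ∧ d3 r < 29)
    (h1 : nL L = nR L) (h2 : 2 * nM L < 32) (f : ℕ → ℝ) : sL f L = sR f L := by
  rw [nL_eq, nR_eq, sL_sum _ L (fun r hr => (h r hr).1), sR_sum _ L (fun r hr => (h r hr).2)] at h1
  have h3 := dig_inj 32 29 (fun t => sL (fun x => if x = t then (1 : ℕ) else 0) L)
    (fun t => sR (fun x => if x = t then (1 : ℕ) else 0) L)
    (fun t => lt_of_le_of_lt (nM_le L t).1 h2) (fun t => lt_of_le_of_lt (nM_le L t).2 h2)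
    (by simpa using h1)
  rw [sL_sum _ L (fun r hr => (h r hr).1), sR_sum _ L (fun r hr => (h r hr).2)]
  refine Finset.sum_congr rfl fun t ht => ?_
  have := h3 t (Finset.mem_range.mp ht)
  rw [this]

/-- the strict inequality -/
theorem sum_lt {L : List ℕ} {f : ℕ → ℝ} (h : ∀ r ∈ L, 1 ≤ d4 r ∧ f (d0 r) + f (d1 r) < f (d2 r) + f (d3 r)) :
    sL f L ≤ sR f L ∧ (L ≠ [] → sL f L < sR f L) := by
  induction L with
  | nil => simp [sL, sR]
  | cons r L ih =>
    have h1 := h r (by simp)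
    have h2 := (ih (fun r hr => h r (by simp [hr]))).1
    have h3 : (0 : ℝ) < d4 r := by exact_mod_cast h1.1
    have h4 : (d4 r : ℝ) * (f (d0 r) + f (d1 r)) < (d4 r : ℝ) * (f (d2 r) + f (d3 r)) :=
      mul_lt_mul_of_pos_left h1.2 h3
    rw [sL_cons, sR_cons]
    exact ⟨by linarith, fun _ => by linarith⟩

theorem chkR_e {e : ℕ → ℕ → Prop} {w : ℕ → ℝ} (S : Sys e w) {N r : ℕ} (hN : Hold e N)
    (h : chkR N r = true) : ((d0 r < 29 ∧ d1 r < 29) ∧ d2 r < 29 ∧ d3 r < 29) ∧ 1 ≤ d4 r ∧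
      w (d0 r) + w (d1 r) < w (d2 r) + w (d3 r) := by
  unfold chkR at h
  simp only [Bool.and_eq_true, Bool.not_eq_true', Bool.and_eq_false_iff] at h
  obtain ⟨⟨⟨⟨⟨⟨⟨h1, h2⟩, h3⟩, h4⟩, h5⟩, h6⟩, h7⟩, h8⟩ := h
  have g1 := Nat.le_of_ble_eq_true h1
  have g2 : d1 r < 29 := by simpa [Nat.blt_eq] using h2
  have g3 := Nat.le_of_ble_eq_true h3
  have g4 : d3 r < 29 := by simpa [Nat.blt_eq] using h4
  have g5 := Nat.eq_of_beq_eq_true h5
  have g6 : ¬ (d0 r = d2 r ∧ d1 r = d3 r) := by
    rintro ⟨u, v⟩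
    rcases h6 with h6 | h6
    · exact Nat.ne_of_beq_eq_false h6 u
    · exact Nat.ne_of_beq_eq_false h6 v
  have g8 := Nat.le_of_ble_eq_true h8
  refine ⟨by omega, g8, ?_⟩
  refine S.lt' (by omega) g2 (by omega) g4 (inN_e S hN g1 g2 h7) g5.symm (fun h => g6 ⟨h.1.symm, h.2.symm⟩) ?_
  rintro ⟨u, v⟩
  exact g6 (by omega)

/-- the check of one clause -/
noncomputable def chk5 (N : ℕ) : Ce → Bool
  | .a r => chkA N r
  | .b r => chkB N r
  | .t L => !L.isEmpty && Nat.beq (nL L) (nR L) && Nat.blt (Nat.mul 2 (nM L)) 32 && L.all (chkR N)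

theorem chk5_valid {N : ℕ} {c : Ce} (h : chk5 N c = true) : Valid N := by
  intro e w S hN
  cases c with
  | a r =>
    change chkA N r = true at h
    unfold chkA at h
    rw [Bool.and_eq_true, Bool.and_eq_true] at h
    obtain ⟨⟨h1, h2⟩, h3⟩ := h
    have g1 : d0 r < 29 := by simpa [Nat.blt_eq] using h1
    have g2 : d1 r < 29 := by simpa [Nat.blt_eq] using h2
    obtain ⟨k, l, hkl, hl, he, hs⟩ := S.two' g1 g2
    exact notN_e S hN hkl hl (allS_spec h3 (by omega) hl hkl hs) he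
  | b r =>
    change chkB N r = true at h
    unfold chkB at h
    simp only [Bool.and_eq_true, Bool.not_eq_true', Bool.and_eq_false_iff] at h
    obtain ⟨⟨⟨⟨⟨⟨⟨⟨⟨⟨⟨⟨⟨h1, h2⟩, h3⟩, h4⟩, h5⟩, h6⟩, h7⟩, h8⟩, k1⟩, k2⟩, k3⟩, k4⟩, k5⟩, k6⟩ := h
    have g1 := Nat.le_of_ble_eq_true h1
    have g2 := Nat.le_of_ble_eq_true h2
    have g3 : d2 r < 29 := by simpa [Nat.blt_eq] using h3
    have g4 := Nat.le_of_ble_eq_true h4
    have g5 := Nat.le_of_ble_eq_true h5
    have g6 : d5 r < 29 := by simpa [Nat.blt_eq] using h6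
    have g7 := Nat.eq_of_beq_eq_true h7
    have e1 := inN_e S hN g1 (by omega) k1
    have e2 := inN_e S hN (by omega) g3 k2
    have e3 := inN_e S hN g2 g3 k3
    have e4 := inN_e S hN g4 (by omega) k4
    have e5 := inN_e S hN (by omega) g6 k5
    have e6 := inN_e S hN g5 g6 k6
    have hm := S.unique (d0 r) (d1 r) (d2 r) (d3 r) (d4 r) (d5 r) (by omega) (by omega) g3 (by omega)
      (by omega) g6 e1 e2 e3 e4 e5 e6
      ((cd3 (by omega) (by omega) g6 (by omega) (by omega) g3).mpr g7.symm)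
    have hp : [d3 r, d4 r, d5 r].Perm [d0 r, d1 r, d2 r] := Multiset.coe_eq_coe.mp hm
    have hl : [d3 r, d4 r, d5 r] = [d0 r, d1 r, d2 r] := by
      refine List.Perm.eq_of_pairwise (le := fun a b : ℕ => a ≤ b) ?_ ?_ ?_ hp
      · intro a b _ _ h1 h2; exact le_antisymm h1 h2
      · simp only [List.pairwise_cons, List.mem_cons, List.not_mem_nil, or_false, forall_eq_or_imp, forall_eq,
          List.Pairwise.nil, and_true, IsEmpty.forall_iff, implies_true]
        omega
      · simp only [List.pairwise_cons, List.mem_cons, List.not_mem_nil, or_false, forall_eq_or_imp, forall_eq,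
          List.Pairwise.nil, and_true, IsEmpty.forall_iff, implies_true]
        omega
    simp only [List.cons.injEq, and_true] at hl
    rcases h8 with (h8 | h8) | h8
    · exact Nat.ne_of_beq_eq_false h8 hl.1.symm
    · exact Nat.ne_of_beq_eq_false h8 hl.2.1.symm
    · exact Nat.ne_of_beq_eq_false h8 hl.2.2.symm
  | t L =>
    change (!L.isEmpty && Nat.beq (nL L) (nR L) && Nat.blt (Nat.mul 2 (nM L)) 32 && L.all (chkR N)) = true at h
    rw [Bool.and_eq_true, Bool.and_eq_true, Bool.and_eq_true] at h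
    obtain ⟨⟨⟨h1, h2⟩, h3⟩, h4⟩ := h
    have g1 : L ≠ [] := by intro hc; rw [hc] at h1; simp at h1
    have g2 := Nat.eq_of_beq_eq_true h2
    have g3 : 2 * nM L < 32 := by
      have : Nat.mul 2 (nM L) < 32 := by simpa [Nat.blt_eq] using h3
      exact this
    rw [List.all_eq_true] at h4
    have a1 := sum_eq (fun r hr => (chkR_e S hN (h4 r hr)).1) g2 g3 w
    have a2 := (sum_lt (f := w) (fun r hr => (chkR_e S hN (h4 r hr)).2)).2 g1
    linarith

/-- the check of a list of clauses -/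
noncomputable def all5 (db : Tr) : List Ce → ℕ → Bool
  | [], _ => true
  | c :: l, i => frN (cl db i) (fun N => chk5 N c) && frN (Nat.succ i) (all5 db l)

theorem frN_eq {α : Type} (v : ℕ) (k : ℕ → α) : frN v k = k v := by
  cases v <;> rfl

theorem all5_valid {db : Tr} : ∀ {l : List Ce} {i : ℕ}, all5 db l i = true →
    ∀ h, i ≤ h → h < i + l.length → Valid (cl db h) := by
  intro l
  induction l with
  | nil => intro i _ h h1 h2; simp at h2; omega
  | cons c l ih =>
    intro i h0 h h1 h2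
    unfold all5 at h0
    rw [Bool.and_eq_true, frN_eq, frN_eq] at h0
    rcases Nat.eq_or_lt_of_le h1 with h3 | h3
    · rw [← h3]; exact chk5_valid h0.1
    · exact ih h0.2 h h3 (by simp only [List.length_cons] at h2; omega)

end Pool.Agent.H36.QT
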